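import Pool.Agent.EV3.GStmts

/-!
# BCR: base change of quadratic extensions
-/

set_option autoImplicit false

namespace Pool.Agent.EV3

open scoped BigOperators
open Pool.Agent.EWG (VV vm iu QD vm_surj vm_mul vm_one vm_eq_zero vm_eq_iff Good)
open Pool.Agent.EWH (Two BQ FX pf sy)
open Pool.Agent.ETG (EqQ LZ ZDec ZLoc ZFan Fac ND Indec Rig Zf Zh vmap vmap_vm)

namespace BCR_

theorem cor_eq {F K : Type} [Field F] [Field K] [Algebra F K] {E : QD F K} (X : FX E)
    (w y : VV K) (b c : VV F) (h : X.Q (w + X.res b) (y + X.res c) = 0) :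
    X.cor (X.Q w y) = X.q (X.N w) c + X.q (X.N y) b := by
  have h1 : X.Q w y + (X.Q w (X.res c) + (X.Q y (X.res b) + X.rb (X.q b c))) = 0 := by
    rw [map_add, map_add, LinearMap.add_apply, LinearMap.add_apply] at h
    rw [X.rb_q, X.Q_symm y (X.res b)]
    rw [← h]
    abel
  have h2 := congrArg X.cor h1
  rw [map_add, map_add, map_add, X.cor_Q, X.cor_Q, X.cor_rb, add_zero, map_zero] at h2
  calc X.cor (X.Q w y) = X.cor (X.Q w y) + ((X.q (X.N w) c + X.q (X.N y) b) +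
        (X.q (X.N w) c + X.q (X.N y) b)) := by rw [EWH.bq_add_self, add_zero]
    _ = (X.cor (X.Q w y) + (X.q (X.N w) c + X.q (X.N y) b)) +
        (X.q (X.N w) c + X.q (X.N y) b) := (add_assoc _ _ _).symm
    _ = _ := by rw [h2, zero_add]

end BCR_

theorem bcr_proof (_hQFC : Stmt_QFC) (hBFC : Stmt_BFC) (hFXQ : Stmt_FXQ) : Stmt_BCR := by
  intro F K F' K' _ _ _ _ _ _ E E' f g hF hg hθ hσ X X'
  have hF' : Two F' := EWH.Two.map f hF
  have hK : Two K := EWH.Two.map (algebraMap F K) hF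
  obtain ⟨hq, hQ, -, -⟩ := hFXQ F K E hF X
  obtain ⟨hq', hQ', -, -⟩ := hFXQ F' K' E' hF' X'
  have h1 : ∀ v, X'.res (vmap f v) = vmap g (X.res v) := by
    intro v
    obtain ⟨a, rfl⟩ := vm_surj v
    rw [vmap_vm, X'.res_vm, X.res_vm, vmap_vm]
    congr 1
    apply Units.ext
    exact (hg a).symm
  have h2 : ∀ w, X'.N (vmap g w) = vmap f (X.N w) := by
    intro w
    obtain ⟨a, rfl⟩ := vm_surj w
    rw [vmap_vm, X'.N_vm, X.N_vm, vmap_vm]
    congr 1
    apply Units.ext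
    apply (algebraMap F' K').injective
    change algebraMap F' K' ((E'.nm (Units.map g.toMonoidHom a) : F'ˣ) : F') =
      algebraMap F' K' (f (E.nm a))
    rw [E'.nmσ, ← hg, E.nmσ, map_mul, hσ]
    rfl
  have h3 : ∀ w, X'.σ (vmap g w) = vmap g (X.σ w) := by
    intro w
    obtain ⟨a, rfl⟩ := vm_surj w
    rw [vmap_vm, X'.σ_vm, X.σ_vm, vmap_vm]
    congr 1
    apply Units.ext
    exact (hσ a).symm
  have h4 : ∀ a b, X'.q (vmap f a) (vmap f b) = bf f (X.q a b) := by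
    intro a b
    rw [hq, hq']
    exact (hBFC F F' f hF a b).symm
  have h5 : ∀ a b, X'.Q (vmap g a) (vmap g b) = bf g (X.Q a b) := by
    intro a b
    rw [hQ, hQ']
    exact (hBFC K K' g hK a b).symm
  refine ⟨h1, h2, h3, h4, ?_⟩
  intro w y
  obtain ⟨b, c, h⟩ := X.F5 w y
  have h6 : X'.Q (vmap g w + X'.res (vmap f b)) (vmap g y + X'.res (vmap f c)) = 0 := by
    rw [h1, h1, ← map_add, ← map_add, h5, h, map_zero]
  rw [BCR_.cor_eq X' _ _ _ _ h6, BCR_.cor_eq X _ _ _ _ h, h2, h2, h4, h4, map_add]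

end Pool.Agent.EV3
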