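import Pool.Agent.EV3.GStmts
import Pool.Agent.EWH.All

set_option autoImplicit false

namespace Pool.Agent.EV3

open scoped BigOperators
open Pool.Agent.EWG (VV vm iu QD vm_surj vm_mul vm_one vm_eq_zero vm_eq_iff Good)
open Pool.Agent.EWH (Two BQ FX pf sy)
open Pool.Agent.ETG (EqQ LZ ZDec ZLoc ZFan Fac ND Indec Rig Zf Zh vmap vmap_vm)

theorem bfc_proof (hQFC : Stmt_QFC) : Stmt_BFC := by
  intro F L _ _ f h2
  have h2L : Two L := Two.map f h2
  obtain ⟨gr, hgr, -⟩ := EWH.q_map F L f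
  have hle : Ideal.map gr (EWH.I F) ≤ EWH.I L := by
    rw [Ideal.map_le_iff_le_comap]
    apply Ideal.span_le.2
    rintro _ ⟨a, rfl⟩
    show gr (EWH.pf1 a) ∈ EWH.I L
    have : gr (EWH.pf1 a) = EWH.pf1 (Units.map f.toMonoidHom a) := by
      unfold EWH.pf1
      rw [map_sub, map_one, hgr a]
    rw [this]
    exact EWH.pf1_mem _
  have hpow : ∀ n : ℕ, ∀ c ∈ (EWH.I F) ^ n, gr c ∈ (EWH.I L) ^ n := by
    intro n c hc
    have h1 : gr c ∈ Ideal.map gr ((EWH.I F) ^ n) := Ideal.mem_map_of_mem gr hc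
    rw [Ideal.map_pow] at h1
    exact Ideal.pow_right_mono hle n h1
  obtain ⟨β, hβ⟩ := EWH.FX_.linBQ (gr : EWH.W F →+ EWH.W L) (hpow 2) (hpow 3)
  have hex : ∃ β : BQ F →ₗ[ZMod 2] BQ L, ∀ a b : Fˣ, β (sy a b) =
      sy (Units.map f.toMonoidHom a) (Units.map f.toMonoidHom b) := by
    refine ⟨β, fun a b => ?_⟩
    unfold EWH.sy
    rw [hβ]
    congr 1
    apply Subtype.ext
    exact EWH.FX_.map_pf f gr hgr a b
  have hbf : ∀ a b : Fˣ, bf f (sy a b) =
      sy (Units.map f.toMonoidHom a) (Units.map f.toMonoidHom b) := by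
    unfold bf
    rw [dif_pos hex]
    exact Classical.choose_spec hex
  intro v w
  obtain ⟨a, rfl⟩ := vm_surj v
  obtain ⟨b, rfl⟩ := vm_surj w
  rw [(hQFC F h2).1, hbf, vmap_vm, vmap_vm, (hQFC L h2L).1]

end Pool.Agent.EV3
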