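import Pool.Agent.EV3.GStmts
import Pool.Agent.EWH.QXE

/-!
BIQ: biquadratic extensions `K(√v)`, `K = F(√-1)`, `v` in `F`.
-/

set_option autoImplicit false

namespace Pool.Agent.EV3

open scoped BigOperators
open Pool.Agent.EWG (VV vm iu QD vm_surj vm_mul vm_one vm_eq_zero vm_eq_iff Good)
open Pool.Agent.EWH (Two BQ FX pf sy)
open Pool.Agent.ETG (EqQ LZ ZDec ZLoc ZFan Fac ND Indec Rig Zf Zh vmap vmap_vm)

namespace BIQ_

/-- multiplication in coordinates -/
theorem mul_coords {F K : Type} [Field F] [Field K] [Algebra F K] (E : QD F K) (y z : K) :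
    E.t (y * z) = E.t y * E.t z + (E.x : F) * (E.s y * E.s z) ∧
    E.s (y * z) = E.t y * E.s z + E.s y * E.t z := by
  have h : y * z = algebraMap F K (E.t y * E.t z + (E.x : F) * (E.s y * E.s z)) +
      algebraMap F K (E.t y * E.s z + E.s y * E.t z) * E.θ := by
    conv_lhs => rw [E.dec y, E.dec z]
    simp only [map_add, map_mul]
    linear_combination (algebraMap F K (E.s y) * algebraMap F K (E.s z)) * E.sq
  constructor
  · rw [h, map_add E.t, E.t1, E.tθ, add_zero]
  · rw [h, map_add E.s, E.s1, E.sθ, zero_add]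

theorem one_coords {F K : Type} [Field F] [Field K] [Algebra F K] (E : QD F K) :
    E.t (1 : K) = 1 ∧ E.s (1 : K) = 0 := by
  have h1 := E.t1 1
  have h2 := E.s1 1
  rw [map_one] at h1 h2
  exact ⟨h1, h2⟩

/-- the dimension -/
theorem frk {F K : Type} [Field F] [Field K] [Algebra F K] (E : QD F K) :
    Module.finrank F K = 2 := by
  let e : K ≃ₗ[F] F × F :=
    { toFun := fun w => (E.t w, E.s w)
      map_add' := fun a b => by simp
      map_smul' := fun r a => by simp
      invFun := fun p => algebraMap F K p.1 + algebraMap F K p.2 * E.θ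
      left_inv := fun w => (E.dec w).symm
      right_inv := fun p => by
        show (E.t (algebraMap F K p.1 + algebraMap F K p.2 * E.θ),
          E.s (algebraMap F K p.1 + algebraMap F K p.2 * E.θ)) = p
        rw [map_add E.t, map_add E.s, E.t1, E.tθ, E.s1, E.sθ, add_zero, zero_add] }
  rw [LinearEquiv.finrank_eq e, Module.finrank_prod, Module.finrank_self]

/-- squares in `F(√x)` which are in `F` -/
theorem sq_cases {F K : Type} [Field F] [Field K] [Algebra F K] (E : QD F K) (h2 : Two F)
    (y : K) (a : F) (h : y ^ 2 = algebraMap F K a) :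
    (∃ t : F, t ^ 2 = a) ∨ ∃ s : F, (E.x : F) * s ^ 2 = a := by
  obtain ⟨m1, m2⟩ := mul_coords E y y
  rw [← pow_two, h, E.t1] at m1
  rw [← pow_two, h, E.s1] at m2
  have h3 : (2 : F) * (E.t y * E.s y) = 0 := by linear_combination -m2
  rcases mul_eq_zero.1 h3 with h4 | h4
  · exact absurd h4 h2
  · rcases mul_eq_zero.1 h4 with h5 | h5
    · right
      exact ⟨E.s y, by rw [h5] at m1; linear_combination -m1⟩
    · left
      exact ⟨E.t y, by rw [h5] at m1; linear_combination -m1⟩

/-- the homomorphism `F(√x) → L` given by a square root of `x` in `L` -/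
def hom {F K L : Type} [Field F] [Field K] [Field L] [Algebra F K] [Algebra F L] (E : QD F K)
    (θ : L) (hθ : θ ^ 2 = algebraMap F L (E.x : F)) : K →+* L where
  toFun := fun w => algebraMap F L (E.t w) + algebraMap F L (E.s w) * θ
  map_one' := by
    rw [(one_coords E).1, (one_coords E).2, map_one, map_zero, zero_mul, add_zero]
  map_mul' := fun y z => by
    rw [(mul_coords E y z).1, (mul_coords E y z).2]
    simp only [map_add, map_mul]
    linear_combination (-(algebraMap F L (E.s y) * algebraMap F L (E.s z))) * hθ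
  map_zero' := by simp
  map_add' := fun y z => by simp only [map_add]; ring

theorem hom_algebraMap {F K L : Type} [Field F] [Field K] [Field L] [Algebra F K] [Algebra F L]
    (E : QD F K) (θ : L) (hθ : θ ^ 2 = algebraMap F L (E.x : F)) (a : F) :
    hom E θ hθ (algebraMap F K a) = algebraMap F L a := by
  show algebraMap F L (E.t (algebraMap F K a)) + algebraMap F L (E.s (algebraMap F K a)) * θ = _
  rw [E.t1, E.s1, map_zero, zero_mul, add_zero]

end BIQ_

open BIQ_ in
theorem biq_proof : Stmt_BIQ := by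
  intro F K _ _ _ E h2 hx v hv0 hv1
  obtain ⟨a, rfl⟩ := vm_surj v
  have ha : ¬ IsSquare a := fun h => hv0 ((vm_eq_zero a).2 h)
  have ham : ¬ IsSquare (a * (-1 : Fˣ)) := fun h => hv1 ((vm_eq_iff a (-1)).2 h)
  have ha1 : ∀ t : F, t ^ 2 ≠ (a : F) := by
    intro t ht
    have ht0 : t ≠ 0 := by
      intro h0
      rw [h0, zero_pow two_ne_zero] at ht
      exact a.ne_zero ht.symm
    exact ha ⟨Units.mk0 t ht0, Units.ext (by rw [Units.val_mul, Units.val_mk0, ← ht, pow_two])⟩
  have ha2 : ∀ t : F, t ^ 2 ≠ -(a : F) := by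
    intro t ht
    have ht0 : t ≠ 0 := by
      intro h0
      rw [h0, zero_pow two_ne_zero] at ht
      exact a.ne_zero (neg_eq_zero.1 ht.symm)
    apply ham
    refine ⟨Units.mk0 t ht0, Units.ext ?_⟩
    rw [Units.val_mul, Units.val_mul, Units.val_mk0, ← pow_two, ht, Units.val_neg, Units.val_one]
    ring
  have hm1 : ∀ t : F, t ^ 2 ≠ -1 := by
    intro t ht
    have ht0 : t ≠ 0 := by
      intro h0
      rw [h0, zero_pow two_ne_zero] at ht
      exact one_ne_zero (neg_eq_zero.1 ht.symm)
    apply E.ns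
    rw [hx]
    refine ⟨Units.mk0 t ht0, Units.ext ?_⟩
    rw [Units.val_mul, Units.val_mk0, ← pow_two, ht, Units.val_neg, Units.val_one]
  obtain ⟨F2, i1, i2, E1, hE1⟩ := EWH.qxe_proof F h2 a ha
  have h22 : Two F2 := EWH.Two.map (algebraMap F F2) h2
  have hm2 : ¬ IsSquare (-1 : F2ˣ) := by
    rintro ⟨y, hy⟩
    have hy' : ((y : F2)) ^ 2 = algebraMap F F2 (-1) := by
      rw [map_neg, map_one, pow_two, ← Units.val_mul, ← hy, Units.val_neg, Units.val_one]
    rcases sq_cases E1 h2 (y : F2) (-1) hy' with ⟨t, ht⟩ | ⟨s, hs⟩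
    · exact hm1 t ht
    · rw [hE1] at hs
      exact ha2 ((a : F) * s) (by linear_combination (a : F) * hs)
  obtain ⟨K2, i3, i4, E2, hE2⟩ := EWH.qxe_proof F2 h22 (-1) hm2
  letI iF2 : Algebra F K2 := ((algebraMap F2 K2).comp (algebraMap F F2)).toAlgebra
  have halg : ∀ r : F, algebraMap F K2 r = algebraMap F2 K2 (algebraMap F F2 r) := fun r => rfl
  have hθ : ((E2.θ : K2)) ^ 2 = algebraMap F K2 (E.x : F) := by
    rw [E2.sq, hE2, hx, halg]
    simp only [Units.val_neg, Units.val_one, map_neg, map_one]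
  let f : K →+* K2 := hom E (E2.θ : K2) hθ
  letI iK2 : Algebra K K2 := f.toAlgebra
  have halg2 : ∀ r : F, algebraMap F K2 r = algebraMap K K2 (algebraMap F K r) := fun r =>
    (hom_algebraMap E (E2.θ : K2) hθ r).symm
  haveI t1 : IsScalarTower F F2 K2 := IsScalarTower.of_algebraMap_eq halg
  haveI t2 : IsScalarTower F K K2 := IsScalarTower.of_algebraMap_eq halg2
  have hfr : Module.finrank K K2 = 2 := by
    have e1 := Module.finrank_mul_finrank F F2 K2
    have e2 := Module.finrank_mul_finrank F K K2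
    rw [frk E1, frk E2] at e1
    rw [frk E, ← e1] at e2
    omega
  have hsq : (algebraMap F2 K2 (E1.θ : F2)) ^ 2 = algebraMap K K2 (algebraMap F K (a : F)) := by
    rw [← halg2, halg, ← map_pow, E1.sq, hE1]
  obtain ⟨E3, hE3⟩ := EWH.QXE_.mk (EWH.Two.map (algebraMap F K) h2) hfr
    (algebraMap F K (a : F)) (fun y hy => by
      rcases sq_cases E h2 y (a : F) hy with ⟨t, ht⟩ | ⟨s, hs⟩
      · exact ha1 t ht
      · apply ha2 s
        rw [hx, Units.val_neg, Units.val_one] at hs
        linear_combination -hs) (algebraMap F2 K2 (E1.θ : F2)) hsq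
  refine ⟨F2, K2, i1, i3, i2, i4, iK2, E1, E2, E3, by rw [hE1], hE2, ?_⟩
  rw [vmap_vm]
  congr 1
  exact Units.ext hE3

end Pool.Agent.EV3
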