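import Pool.Agent.EV3.GStmts

/-!
V3, GLUE, module CNT: numbers of elements
-/

set_option autoImplicit false

namespace Pool.Agent.EV3

open scoped BigOperators
open Pool.Agent.EWG (VV vm iu QD vm_surj vm_mul vm_one vm_eq_zero vm_eq_iff Good)
open Pool.Agent.EWH (Two BQ FX pf sy)
open Pool.Agent.ETG (EqQ LZ ZDec ZLoc ZFan Fac ND Indec Rig Zf Zh vmap vmap_vm)

namespace CNT_

theorem card_mul {V W : Type} [AddCommGroup V] [Module (ZMod 2) V] [AddCommGroup W]
    [Module (ZMod 2) W] (f : V →ₗ[ZMod 2] W) :
    Nat.card V = Nat.card (LinearMap.ker f) * Nat.card (LinearMap.range f) := by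
  rw [Submodule.card_eq_card_quotient_mul_card (LinearMap.ker f),
    Nat.card_congr f.quotKerEquivRange.toEquiv]

end CNT_

theorem cnt_proof : Stmt_CNT := by
  intro F K _ _ _ E X hF
  have hx : vm E.x ≠ 0 := fun h => E.ns ((vm_eq_zero E.x).1 h)
  have h1 : Nat.card (LinearMap.ker X.res) = 2 := by
    have e : (LinearMap.ker X.res : Set (VV F)) = {0, vm E.x} := by
      ext v
      change X.res v = 0 ↔ v = 0 ∨ v = vm E.x
      exact X.ker_res v
    have e2 : Nat.card (LinearMap.ker X.res) = Nat.card ((LinearMap.ker X.res : Set (VV F))) :=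
      rfl
    rw [e2, e]
    exact Set.ncard_pair hx.symm
  have h2 := CNT_.card_mul X.res
  rw [h1] at h2
  have h3 := CNT_.card_mul X.N
  have h4 : LinearMap.ker X.N = LinearMap.range X.res := by
    ext w
    rw [LinearMap.mem_ker, LinearMap.mem_range]
    exact X.ker_N w
  rw [h4] at h3
  have h5 : Nat.card (LinearMap.range X.N) = Nat.card {v : VV F // X.q (vm E.x) v = 0} := by
    apply Nat.card_congr
    apply Equiv.subtypeEquivRight
    intro v
    rw [LinearMap.mem_range]
    exact (X.im_N v).symm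
  rw [h5] at h3
  have h6 : Nat.card {w : VV K // ∃ v, X.res v = w} = Nat.card (LinearMap.range X.res) := by
    apply Nat.card_congr
    apply Equiv.subtypeEquivRight
    intro w
    rw [LinearMap.mem_range]
  have hpos : 0 < Nat.card (VV F) := Nat.card_pos
  have hpos2 : 0 < Nat.card {v : VV F // X.q (vm E.x) v = 0} := by
    have : Nonempty {v : VV F // X.q (vm E.x) v = 0} := ⟨⟨0, map_zero _⟩⟩
    exact Nat.card_pos
  refine ⟨?_, ?_, ?_⟩
  · apply Nat.finite_of_card_ne_zero
    rw [h3]
    apply mul_ne_zero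
    · intro h
      rw [h, mul_zero] at h2
      omega
    · omega
  · rw [h3, h2]
    ring
  · rw [h6, h2]

end Pool.Agent.EV3
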