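import Pool.Agent.EV3.GStmts

/-!
EV3, module CRR: the symbol of two elements of `K` with norms in the radical has corestriction `0`.
-/

set_option autoImplicit false

namespace Pool.Agent.EV3

open scoped BigOperators
open Pool.Agent.EWG (VV vm iu QD vm_surj vm_mul vm_one vm_eq_zero vm_eq_iff Good)
open Pool.Agent.EWH (Two BQ FX pf sy)
open Pool.Agent.ETG (EqQ LZ ZDec ZLoc ZFan Fac ND Indec Rig Zf Zh vmap vmap_vm)

theorem crr_proof : Stmt_CRR := by
  intro F K _ _ _ E X w y hw hy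
  obtain ⟨b, c, h⟩ := X.F5 w y
  have h1 : X.cor (X.Q (w + X.res b) (y + X.res c)) = 0 := by rw [h, map_zero]
  simp only [map_add, LinearMap.add_apply] at h1
  have h2 : X.cor (X.Q w (X.res c)) = 0 := by rw [X.cor_Q, hw]
  have h3 : X.cor (X.Q (X.res b) y) = 0 := by rw [X.Q_symm, X.cor_Q, hy]
  have h4 : X.cor (X.Q (X.res b) (X.res c)) = 0 := by rw [← X.rb_q, X.cor_rb]
  rw [h2, h3, h4] at h1
  simpa using h1

end Pool.Agent.EV3
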