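import Pool.Agent.EV3.GStmts

set_option autoImplicit false

namespace Pool.Agent.EV3

namespace EIG_

variable {V C : Type} [AddCommGroup V] [Module (ZMod 2) V] [AddCommGroup C] [Module (ZMod 2) C]
  (P : V →ₗ[ZMod 2] (C →ₗ[ZMod 2] C))

lemma comm (hP : ∀ v c, P v (P v c) = P v c) (v w : V) (c : C) :
    P v (P w c) = P w (P v c) := by
  have h1 := hP (v + w) c
  simp only [map_add, LinearMap.add_apply] at h1
  rw [hP v c, hP w c] at h1
  have h2 : P v (P w c) + P w (P v c) = 0 := by
    have h3 : P v c + P w c + (P v (P w c) + P w (P v c)) = P v c + P w c + 0 := by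
      rw [add_zero]
      calc P v c + P w c + (P v (P w c) + P w (P v c))
          = P v c + P w (P v c) + (P v (P w c) + P w c) := by abel
        _ = P v c + P w c := h1
    exact add_left_cancel h3
  rw [add_eq_zero_iff_eq_neg, ZModModule.neg_eq_self] at h2
  exact h2

lemma exT (hP : ∀ v c, P v (P v c) = P v c) (hC : ∃ c : C, c ≠ 0) (s : Finset V) :
    ∃ T : C →ₗ[ZMod 2] C, T ≠ 0 ∧ (∀ w c, P w (T c) = T (P w c)) ∧
      ∀ v ∈ s, ∃ a : ZMod 2, ∀ c, P v (T c) = a • T c := by
  classical
  induction s using Finset.induction_on with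
  | empty =>
    refine ⟨LinearMap.id, ?_, fun w c => rfl, fun v hv => absurd hv (Finset.notMem_empty v)⟩
    obtain ⟨c, hc⟩ := hC
    intro h
    exact hc (by simpa using LinearMap.congr_fun h c)
  | insert v s _ ih =>
    obtain ⟨T, hT, hcomm, hs⟩ := ih
    by_cases h : (P v) ∘ₗ T = 0
    · refine ⟨T, hT, hcomm, fun u hu => ?_⟩
      rcases Finset.mem_insert.1 hu with rfl | hu
      · refine ⟨0, fun c => ?_⟩
        rw [zero_smul]
        exact LinearMap.congr_fun h c
      · exact hs u hu
    · refine ⟨(P v) ∘ₗ T, h, fun w c => ?_, fun u hu => ?_⟩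
      · simp only [LinearMap.comp_apply]
        rw [comm P hP w v, hcomm w c]
      · rcases Finset.mem_insert.1 hu with rfl | hu
        · refine ⟨1, fun c => ?_⟩
          simp only [LinearMap.comp_apply, one_smul]
          exact hP u (T c)
        · obtain ⟨a, ha⟩ := hs u hu
          refine ⟨a, fun c => ?_⟩
          simp only [LinearMap.comp_apply]
          rw [comm P hP u v, ha c, map_smul]

end EIG_

open EIG_ in
theorem eig_proof : Stmt_EIG := by
  intro V C _ _ _ _ _ _ P hP hC
  classical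
  haveI := Fintype.ofFinite V
  obtain ⟨T, hT, hcomm, hs⟩ := exT P hP hC Finset.univ
  have hs' : ∀ v, ∃ a : ZMod 2, ∀ c, P v (T c) = a • T c := fun v => hs v (Finset.mem_univ v)
  choose χ hχ using hs'
  obtain ⟨c0, hc0⟩ : ∃ c, T c ≠ 0 := by
    by_contra hno
    push Not at hno
    exact hT (LinearMap.ext hno)
  have huniq : ∀ a b : ZMod 2, a • T c0 = b • T c0 → a = b := fun a b hab => by
    have h1 : (a - b) • T c0 = 0 := by rw [sub_smul, hab, sub_self]
    rcases smul_eq_zero.1 h1 with h2 | h2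
    · exact sub_eq_zero.1 h2
    · exact absurd h2 hc0
  obtain ⟨ψ, hψ⟩ : ∃ ψ : Module.Dual (ZMod 2) C, ψ (T c0) ≠ 0 := by
    by_contra hno
    push Not at hno
    exact hc0 ((Module.forall_dual_apply_eq_zero_iff (ZMod 2) (T c0)).1 hno)
  refine ⟨ψ ∘ₗ T, { toFun := χ, map_add' := ?_, map_smul' := ?_ }, ?_, ?_⟩
  · intro v w
    apply huniq
    rw [← hχ (v + w) c0, map_add, LinearMap.add_apply, hχ, hχ, add_smul]
  · intro a v
    apply huniq
    rw [← hχ (a • v) c0, map_smul, LinearMap.smul_apply, hχ, RingHom.id_apply, smul_smul,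
      smul_eq_mul]
  · intro h
    exact hψ (LinearMap.congr_fun h c0)
  · intro v c
    change ψ (T (P v c)) = χ v * ψ (T c)
    rw [← hcomm, hχ, map_smul, smul_eq_mul]

end Pool.Agent.EV3
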