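import Pool.Agent.EV3.GStmts

/-!
EV3, module EQL: equality of symbols at a component.
-/

set_option autoImplicit false

namespace Pool.Agent.EV3

open scoped BigOperators
open Pool.Agent.EWG (VV vm iu QD vm_surj vm_mul vm_one vm_eq_zero vm_eq_iff Good)
open Pool.Agent.EWH (Two BQ FX pf sy)
open Pool.Agent.ETG (EqQ LZ ZDec ZLoc ZFan Fac ND Indec Rig Zf Zh vmap vmap_vm)

theorem eql_proof (hQFC : Stmt_QFC) : Stmt_EQL := by
  intro K L _ _ hK hL p γ hs hiso v w v' w' h
  obtain ⟨-, -, -, -, hg⟩ := hQFC L hL.two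
  obtain ⟨-, hz, -, hE⟩ := hg hL
  have hE1 := (hE (γ v) (γ w) (γ v') (γ w')).2 h
  obtain ⟨x, h1, h2, h3⟩ := hE1
  obtain ⟨x, rfl⟩ := hs x
  rw [← hz, ← map_add, hiso, map_add, map_add] at h1 h2
  rw [← hz, ← map_add, hiso, map_add, map_add, LinearMap.add_apply] at h3
  have e : ∀ a b : BQ K, a + b = 0 → a = b := by
    intro a b hab
    have h0 : b + b = 0 := by
      have := ZModModule.add_self b
      exact this
    calc a = a + (b + b) := by rw [h0, add_zero]
      _ = (a + b) + b := by rw [add_assoc]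
      _ = b := by rw [hab, zero_add]
  rw [e _ _ h1, e _ _ h2, e _ _ h3]

end Pool.Agent.EV3
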