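import Pool.Agent.EV3.GStmts

/-!
EV3, module FXQ (helper50): the data `FX` in terms of `qf`, `vmap`.
-/

set_option autoImplicit false

namespace Pool.Agent.EV3

open scoped BigOperators
open Pool.Agent.EWG (VV vm iu QD vm_surj vm_mul vm_one vm_eq_zero vm_eq_iff Good)
open Pool.Agent.EWH (Two BQ FX pf sy)
open Pool.Agent.ETG (EqQ LZ ZDec ZLoc ZFan Fac ND Indec Rig Zf Zh vmap vmap_vm)

theorem fxq_proof (hQFC : Stmt_QFC) : Stmt_FXQ := by
  intro F K _ _ _ E h2 X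
  have h2K : Two K := Two.map (algebraMap F K) h2
  obtain ⟨hF, -⟩ := hQFC F h2
  obtain ⟨hK, -⟩ := hQFC K h2K
  refine ⟨?_, ?_, ?_, ?_⟩
  · refine LinearMap.ext fun v => LinearMap.ext fun w => ?_
    obtain ⟨a, rfl⟩ := vm_surj v
    obtain ⟨b, rfl⟩ := vm_surj w
    rw [X.q_vm, hF]
  · refine LinearMap.ext fun v => LinearMap.ext fun w => ?_
    obtain ⟨a, rfl⟩ := vm_surj v
    obtain ⟨b, rfl⟩ := vm_surj w
    rw [X.Q_vm, hK]
  · intro v
    obtain ⟨a, rfl⟩ := vm_surj v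
    rw [X.res_vm, vmap_vm]
    rfl
  · intro v
    obtain ⟨a, rfl⟩ := vm_surj v
    rw [X.σ_vm, vmap_vm]

end Pool.Agent.EV3
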