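import Pool.Agent.EV3.ONE
import Pool.Agent.ETB.Gen

/-!
EV3: the elementary type conjecture for all fields, from `Stmt_GLUE`.
-/

set_option autoImplicit false

namespace Pool.Agent.EV3

/-- V3 from the glue -/
theorem v3_glue (hETF : ETG.Stmt_ETF) (hGLUE : Stmt_GLUE) : ETG.Stmt_V3 :=
  v3_of hETF EWH.q_cmp hGLUE one_proof qde_proof qie_proof ql1_proof zhl

/-- all fields from the glue -/
theorem all_glue (hETF : ETG.Stmt_ETF) (hGLUE : Stmt_GLUE) : ETG.Stmt_ALL :=
  ETG.all_of hETF (v3_glue hETF hGLUE) (qfh_proof zhl) EWH.q_cmp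

/-- elementary type of the fields in which `-1` is a square -/
theorem etf : ETG.Stmt_ETF := ETG.a_etf ETB.dsf ETB.tow

/-- THE ELEMENTARY TYPE CONJECTURE FOR ALL FIELDS, from the glue -/
theorem all_of_glue (hGLUE : Stmt_GLUE) : ETG.Stmt_ALL := all_glue etf hGLUE

end Pool.Agent.EV3
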