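import Pool.Agent.EV3.GStmts

/-!
V3, GLUE, module GAT: atoms.
-/

set_option autoImplicit false

namespace Pool.Agent.EV3

open scoped BigOperators
open Pool.Agent.EWG (VV vm iu QD vm_surj vm_mul vm_one vm_eq_zero vm_eq_iff Good)
open Pool.Agent.EWH (Two BQ FX pf sy)
open Pool.Agent.ETG (EqQ LZ ZDec ZLoc ZFan Fac ND Indec Rig Zf Zh vmap vmap_vm)

namespace GAT_

theorem add_self2 {M : Type} [AddCommGroup M] [Module (ZMod 2) M] (x : M) : x + x = 0 := by
  have h : (2 : ZMod 2) • x = 0 := by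
    have : (2 : ZMod 2) = 0 := by decide
    rw [this, zero_smul]
  rwa [two_smul] at h

theorem eq_of_add {M : Type} [AddCommGroup M] [Module (ZMod 2) M] {x y : M} (h : x + y = 0) :
    x = y := by
  have h1 : x + y + y = y := by rw [h, zero_add]
  rwa [add_assoc, add_self2, add_zero] at h1

section
variable {ι V B : Type} [AddCommGroup V] [Module (ZMod 2) V] [AddCommGroup B]
    [Module (ZMod 2) B] {Vo Bo : ι → Type} [∀ o, AddCommGroup (Vo o)]
    [∀ o, Module (ZMod 2) (Vo o)] [∀ o, AddCommGroup (Bo o)] [∀ o, Module (ZMod 2) (Bo o)]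
    (G : Glue ι V B Vo Bo)

/-- all components are `0` -/
def X (x : V) : Prop := ∀ o, G.ρ o x = 0

variable {G}

theorem X_add {x y : V} (hx : X G x) (hy : X G y) : X G (x + y) := fun o => by
  rw [map_add, hx o, hy o, add_zero]

theorem nrm (hR : G.R) {x y : V} (hx : X G x) (hy : X G y) (h : G.q G.e x = G.q G.e y) (v : V) :
    G.q x v = G.q y v := by
  have h1 : G.q G.e (x + y) = 0 := by rw [map_add, h, add_self2]
  have h2 := hR (x + y) (X_add hx hy) h1 v
  rw [map_add, LinearMap.add_apply] at h2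
  exact eq_of_add h2

theorem nrm' (hR : G.R) {x y : V} (hx : X G x) (hy : X G y) (h : G.q G.e x = G.q G.e y) (v : V) :
    G.q v x = G.q v y := by
  rw [G.lq.symm v x, G.lq.symm v y]
  exact nrm hR hx hy h v

/-- the operators commute -/
theorem comm (hE : G.ER) (hR : G.R) {r s v x y : V} (hr : X G r) (hs : X G s)
    (hx : X G x) (hy : X G y) (h1 : G.q r v = G.q G.e x) (h2 : G.q s v = G.q G.e y)
    (h3 : G.q r x = G.q G.e x) (h4 : G.q s y = G.q G.e y) : G.q r y = G.q s x := by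
  obtain ⟨z, hz, h5, h6⟩ := hE (r + s) (X_add hr hs) v
  have h7 : G.q G.e z = G.q G.e (x + y) := by
    rw [← h5, map_add, LinearMap.add_apply, h1, h2, map_add]
  have h8 : G.q (r + s) z = G.q (r + s) (x + y) := nrm' hR hz (X_add hx hy) h7 _
  rw [h6, h7] at h8
  simp only [map_add, LinearMap.add_apply] at h8
  rw [h3, h4] at h8
  have h9 : G.q r y + G.q s x = 0 := by
    have h10 : G.q G.e x + G.q G.e y + (G.q G.e x + G.q G.e y) = 0 := add_self2 _
    have h11 : G.q G.e x + G.q G.e y + (G.q G.e x + G.q G.e y) = G.q r y + G.q s x := by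
      nth_rewrite 2 [h8]
      have e1 := add_self2 (G.q G.e x)
      have e2 := add_self2 (G.q G.e y)
      calc G.q G.e x + G.q G.e y + (G.q G.e x + G.q s x + (G.q r y + G.q G.e y))
          = (G.q G.e x + G.q G.e x) + (G.q G.e y + G.q G.e y) + (G.q r y + G.q s x) := by abel
        _ = G.q r y + G.q s x := by rw [e1, e2, zero_add, zero_add]
    rw [← h11, h10]
  exact eq_of_add h9

/-- transitivity: `x ≤ w ≤ z` -/
theorem trans (hE : G.ER) (hR : G.R) {z w x : V} (hz : X G z) (hw : X G w)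
    (hx : X G x) (h1 : G.q z w = G.q G.e w) (h2 : G.q w x = G.q G.e x) :
    G.q z x = G.q G.e x := by
  -- `z (x w) = x (z w) = x w`
  have h3 : G.q x w = G.q G.e x := by rw [G.lq.symm, h2]
  have h4 : G.q x x = G.q G.e x := by rw [G.lq.self, G.lq.symm]
  have h5 := comm hE hR (r := z) (s := x) (v := w) (x := w) (y := x) hz hx hw hx h1 h3 h1 h4
  rw [h5, h3]

/-- the value set of `x ≤ z` -/
theorem rng (hE : G.ER) (hR : G.R) {z x : V} (hz : X G z)
    (hx : X G x) (h1 : G.q z x = G.q G.e x) : Set.range (G.q x) ⊆ Set.range (G.q z) := by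
  rintro _ ⟨v, rfl⟩
  obtain ⟨y, hy, h2, h3⟩ := hE x hx v
  refine ⟨y, ?_⟩
  rw [h2]
  exact trans hE hR hz hx hy h1 h3

/-- there is an atom below `y` -/
theorem atom [Finite V] (hE : G.ER) (hR : G.R) {y : V} (hy : X G y) (h0 : G.q G.e y ≠ 0) :
    ∃ z, X G z ∧ G.q G.e z ≠ 0 ∧ G.q y z = G.q G.e z ∧ ∀ v, G.q z v = 0 ∨ G.q z v = G.q G.e z := by
  let S : Set V := {z | X G z ∧ G.q G.e z ≠ 0 ∧ G.q y z = G.q G.e z}
  have hS : S.Nonempty := ⟨y, hy, h0, by rw [G.lq.self, G.lq.symm]⟩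
  obtain ⟨z, hz, hmin⟩ := Set.exists_min_image S (fun z => (Set.range (G.q z)).ncard)
    (Set.toFinite S) hS
  refine ⟨z, hz.1, hz.2.1, hz.2.2, fun v => ?_⟩
  obtain ⟨x, hx, h1, h2⟩ := hE z hz.1 v
  by_cases h3 : G.q G.e x = 0
  · left; rw [h1, h3]
  · right
    have hxS : x ∈ S := ⟨hx, h3, trans hE hR hy hz.1 hx hz.2.2 h2⟩
    have h4 := hmin x hxS
    have h5 : Set.range (G.q x) = Set.range (G.q z) :=
      Set.eq_of_subset_of_ncard_le (rng hE hR hz.1 hx h2) h4 (Set.toFinite _)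
    have h6 : G.q G.e z ∈ Set.range (G.q x) := by
      rw [h5]
      exact ⟨G.e, G.lq.symm _ _⟩
    obtain ⟨w, hw⟩ := h6
    obtain ⟨x', hx', h7, h8⟩ := hE x hx w
    have h9 : G.q x x' = G.q x z := nrm' hR hx' hz.1 (by rw [← h7, hw]) x
    -- `q x z = q e z`
    have h10 : G.q x z = G.q G.e z := by rw [← h9, h8, ← h7, hw]
    rw [h1, ← h2, G.lq.symm, h10]

/-- the functional of an atom -/
theorem func {z : V} (h0 : G.q G.e z ≠ 0) (h : ∀ v, G.q z v = 0 ∨ G.q z v = G.q G.e z) :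
    ∃ χ : V →ₗ[ZMod 2] ZMod 2, ∀ v, G.q z v = χ v • G.q G.e z := by
  classical
  have hadd : ∀ v w, (if G.q z (v + w) = 0 then (0 : ZMod 2) else 1) =
      (if G.q z v = 0 then 0 else 1) + (if G.q z w = 0 then 0 else 1) := by
    intro v w
    rw [map_add]
    rcases h v with h1 | h1 <;> rcases h w with h2 | h2 <;> rw [h1, h2]
    · simp
    · simp [h0]
    · simp [h0]
    · rw [add_self2]
      simp only [if_true, h0, if_false]
      decide
  let χ : V →+ ZMod 2 :=
    { toFun := fun v => if G.q z v = 0 then 0 else 1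
      map_zero' := by simp
      map_add' := hadd }
  refine ⟨AddMonoidHom.toZModLinearMap 2 χ, fun v => ?_⟩
  show G.q z v = (if G.q z v = 0 then (0 : ZMod 2) else 1) • G.q G.e z
  rcases h v with h1 | h1
  · rw [h1]; simp
  · rw [h1]; simp [h0]

/-- families of atoms -/
def Fam (G : Glue ι V B Vo Bo) (κ : ℕ) (χ : Fin κ → (V →ₗ[ZMod 2] ZMod 2)) (r : Fin κ → V) :
    Prop :=
  (∀ i o, G.ρ o (r i) = 0) ∧
  (∀ i, χ i G.e = 1) ∧ (∀ i, G.q G.e (r i) ≠ 0) ∧ (∀ i v, G.q (r i) v = χ i v • G.q G.e (r i)) ∧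
  (∀ i j, χ i (r j) = if i = j then 1 else 0)

theorem zmod2 (a : ZMod 2) : a = 0 ∨ a = 1 := by
  revert a; decide

theorem step [Finite V] (hE : G.ER) (hR : G.R) {κ : ℕ} {χ : Fin κ → (V →ₗ[ZMod 2] ZMod 2)}
    {r : Fin κ → V} (hF : Fam G κ χ r) {x : V} (hx : X G x)
    (hne : G.q G.e x ≠ ∑ i, χ i x • G.q G.e (r i)) : ∃ χ' r', Fam G (κ + 1) χ' r' := by
  obtain ⟨f1, f2, f3, f4, f5⟩ := hF
  set y : V := x + ∑ i, χ i x • r i with hy
  have hyX : X G y := by
    intro o
    rw [hy, map_add, hx o, zero_add, map_sum]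
    exact Finset.sum_eq_zero fun i _ => by rw [map_smul, f1 i o, smul_zero]
  have hχy : ∀ j, χ j y = 0 := by
    intro j
    rw [hy, map_add, map_sum]
    simp only [map_smul, f5, smul_eq_mul, mul_ite, mul_one, mul_zero]
    rw [Finset.sum_ite_eq Finset.univ j, if_pos (Finset.mem_univ j)]
    exact add_self2 _
  have hqy : G.q G.e y ≠ 0 := by
    intro h
    apply hne
    rw [hy, map_add, map_sum] at h
    simp only [map_smul] at h
    exact eq_of_add h
  obtain ⟨z, hz, hz0, hyz, hat⟩ := atom hE hR hyX hqy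
  obtain ⟨χ0, hχ0⟩ := func hz0 hat
  have hrz : ∀ j, G.q (r j) z = 0 := by
    intro j
    -- `r_j y = 0`, `z = z y`
    have h1 : G.q (r j) y = G.q G.e 0 := by rw [f4 j, hχy j, zero_smul, map_zero]
    have h2 : G.q z y = G.q G.e z := by rw [G.lq.symm, hyz]
    have h3 : G.q z z = G.q G.e z := by rw [G.lq.self, G.lq.symm]
    have h4 := comm hE hR (r := r j) (s := z) (v := y) (x := 0) (y := z) (f1 j) hz
      (fun o => map_zero _) hz h1 h2 (by rw [map_zero, map_zero]) h3
    rw [h4, map_zero]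
  have smul_ne : ∀ {a : ZMod 2} {b : B}, b ≠ 0 → a • b = 0 → a = 0 := by
    intro a b hb h
    rcases zmod2 a with h1 | h1
    · exact h1
    · rw [h1, one_smul] at h
      exact absurd h hb
  have h0e : χ0 G.e = 1 := by
    rcases zmod2 (χ0 G.e) with h1 | h1
    · exfalso
      have h2 := hχ0 G.e
      rw [h1, zero_smul, G.lq.symm] at h2
      exact hz0 h2
    · exact h1
  have h0z : χ0 z = 1 := by
    rcases zmod2 (χ0 z) with h1 | h1
    · exfalso
      have h2 := hχ0 z
      rw [h1, zero_smul, G.lq.self, G.lq.symm] at h2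
      exact hz0 h2
    · exact h1
  have h0r : ∀ j, χ0 (r j) = 0 := by
    intro j
    have h2 := hχ0 (r j)
    rw [G.lq.symm, hrz j] at h2
    exact smul_ne hz0 h2.symm
  have hjz : ∀ j, χ j z = 0 := by
    intro j
    have h2 := f4 j z
    rw [hrz j] at h2
    exact smul_ne (f3 j) h2.symm
  refine ⟨Fin.cons χ0 χ, Fin.cons z r, ?_, ?_, ?_, ?_, ?_⟩
  · intro i
    refine Fin.cases ?_ (fun i => ?_) i
    · intro o; simpa using hz o
    · intro o; simpa using f1 i o
  · intro i
    refine Fin.cases ?_ (fun i => ?_) i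
    · simpa using h0e
    · simpa using f2 i
  · intro i
    refine Fin.cases ?_ (fun i => ?_) i
    · simpa using hz0
    · simpa using f3 i
  · intro i
    refine Fin.cases ?_ (fun i => ?_) i
    · intro v; simpa using hχ0 v
    · intro v; simpa using f4 i v
  · intro i j
    refine Fin.cases ?_ (fun i => ?_) i
    · refine Fin.cases ?_ (fun j => ?_) j
      · simpa using h0z
      · have : (0 : Fin (κ + 1)) ≠ Fin.succ j := (Fin.succ_ne_zero j).symm
        simpa [this] using h0r j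
    · refine Fin.cases ?_ (fun j => ?_) j
      · simpa using hjz i
      · simpa [Fin.succ_inj] using f5 i j

end

end GAT_

theorem gat_proof (hGER : Stmt_GER) (hGRA : Stmt_GRA) : Stmt_GAT := by
  intro ι V B _ _ _ _ _ _ _ Vo Bo _ _ _ _ G
  have hE : G.ER := hGER ι V B Vo Bo G
  have hR : G.R := hGRA ι V B Vo Bo G
  by_contra hcon
  have hall : ∀ κ : ℕ, ∃ χ r, GAT_.Fam G κ χ r := by
    intro κ
    induction κ with
    | zero =>
      exact ⟨fun i => i.elim0, fun i => i.elim0, fun i => i.elim0, fun i => i.elim0,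
        fun i => i.elim0, fun i => i.elim0, fun i => i.elim0⟩
    | succ κ ih =>
      obtain ⟨χ, r, hF⟩ := ih
      have : ∃ x, (∀ o, G.ρ o x = 0) ∧ G.q G.e x ≠ ∑ i, χ i x • G.q G.e (r i) := by
        by_contra h
        push Not at h
        exact hcon ⟨κ, χ, r, hF.1, hF.2.1, hF.2.2.1, hF.2.2.2.1, hF.2.2.2.2, h⟩
      obtain ⟨x, hx, hne⟩ := this
      exact GAT_.step hE hR hF hx hne
  obtain ⟨χ, r, hF⟩ := hall (Nat.card V + 1)
  have hinj : Function.Injective r := by
    intro i j hij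
    by_contra hne
    have h1 := hF.2.2.2.2 i i
    have h2 := hF.2.2.2.2 i j
    rw [if_pos rfl] at h1
    rw [if_neg hne, ← hij, h1] at h2
    exact absurd h2 (by decide)
  have h3 := Nat.card_le_card_of_injective r hinj
  rw [Nat.card_fin] at h3
  omega

end Pool.Agent.EV3
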