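import Pool.Agent.EV3.GStmts

set_option autoImplicit false

namespace Pool.Agent.EV3

open scoped BigOperators
open Pool.Agent.EWG (VV vm iu QD vm_surj vm_mul vm_one vm_eq_zero vm_eq_iff Good)
open Pool.Agent.EWH (Two BQ FX pf sy)
open Pool.Agent.ETG (EqQ LZ ZDec ZLoc ZFan Fac ND Indec Rig Zf Zh vmap vmap_vm)

namespace GCK_

section
variable {ι V B : Type} [Fintype ι] [DecidableEq ι] [AddCommGroup V]
  [Module (ZMod 2) V] [AddCommGroup B] [Module (ZMod 2) B] {Vo Bo : ι → Type}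
  [∀ o, AddCommGroup (Vo o)] [∀ o, Module (ZMod 2) (Vo o)] [∀ o, AddCommGroup (Bo o)]
  [∀ o, Module (ZMod 2) (Bo o)] (G : Glue ι V B Vo Bo)

/-- `u`, `s` is a pair for `v` -/
def RR (v : V) (u s : ∀ o, Vo o) : Prop :=
  ∀ o, G.qo o (G.ρ o v) (u o) = G.qo o (G.ρ o G.e) (s o)

theorem two {M : Type} [AddCommGroup M] [Module (ZMod 2) M] (x : M) : x + x = 0 :=
  ZModModule.add_self x

theorem eq_of_add {M : Type} [AddCommGroup M] [Module (ZMod 2) M] {x y : M} (h : x + y = 0) :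
    x = y := by
  have h1 := congrArg (fun z => z + y) h
  simpa [add_assoc, two] using h1

theorem rangeD (d : ∀ o, Vo o) (hd : ∀ o, G.qo o (G.ρ o G.e) (d o) = 0) :
    ∃ n, ∀ o, G.ρ o n = d o := by
  choose n hn using fun o => G.P1 o (d o) (hd o)
  refine ⟨∑ o, n o, fun o => ?_⟩
  rw [map_sum, Finset.sum_eq_single o]
  · exact (hn o).2.1
  · intro b _ hb
    exact (hn b).2.2 o (Ne.symm hb)
  · intro h
    exact absurd (Finset.mem_univ o) h

theorem key {v v' : V} {u s u' s' u'' s'' : ∀ o, Vo o} (h : RR G v u s) (h' : RR G v' u' s')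
    (h'' : RR G (v + v') u'' s'') (a b : V) (ha : ∀ o, u o + u'' o = G.ρ o a)
    (hb : ∀ o, u' o + u'' o = G.ρ o b) : ∃ t, ∀ o, G.ρ o t = s o + s' o + s'' o := by
  have e1 : ∀ o, G.qo o (G.ρ o v) (G.ρ o a) + G.qo o (G.ρ o v') (G.ρ o b) =
      G.qo o (G.ρ o G.e) (s o + s' o + s'' o) := by
    intro o
    rw [← ha, ← hb, map_add, map_add, map_add, map_add, ← h o, ← h' o, ← h'' o, map_add,
      map_add, LinearMap.add_apply]
    abel
  obtain ⟨t, ht⟩ := G.P2 v a v' b fun o => ⟨_, e1 o⟩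
  obtain ⟨n, hn⟩ := rangeD G (fun o => G.ρ o t + (s o + s' o + s'' o)) (by
    intro o
    have h2 := congrArg (G.β o) ht
    rw [map_add, G.comp, G.comp, G.comp, e1 o] at h2
    rw [map_add, ← h2]
    exact two _)
  refine ⟨n + t, fun o => ?_⟩
  rw [map_add, hn o]
  have h3 : G.ρ o t + (s o + s' o + s'' o) + G.ρ o t =
      (G.ρ o t + G.ρ o t) + (s o + s' o + s'' o) := by abel
  rw [h3, two, zero_add]

/-- the map with components `ρ o` -/
def rr : V →ₗ[ZMod 2] (∀ o, Vo o) := LinearMap.pi G.ρ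

/-- the cokernel -/
abbrev CC : Type := (∀ o, Vo o) ⧸ LinearMap.range (rr G)

/-- the quotient map -/
abbrev pq : (∀ o, Vo o) →ₗ[ZMod 2] CC G := (LinearMap.range (rr G)).mkQ

theorem pq_zero (u : ∀ o, Vo o) : pq G u = 0 ↔ ∃ v, ∀ o, G.ρ o v = u o := by
  rw [Submodule.mkQ_apply, Submodule.Quotient.mk_eq_zero, LinearMap.mem_range]
  exact exists_congr fun v => ⟨fun h o => by rw [← h]; rfl, fun h => funext h⟩

theorem pq_eq {u u' : ∀ o, Vo o} (h : pq G u = pq G u') : ∃ a, ∀ o, u o + u' o = G.ρ o a := by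
  have h1 : pq G (u + u') = 0 := by rw [map_add, h, two]
  obtain ⟨a, ha⟩ := (pq_zero G _).1 h1
  exact ⟨a, fun o => (ha o).symm⟩

theorem key' {v v' : V} {u s u' s' u'' s'' : ∀ o, Vo o} (h : RR G v u s) (h' : RR G v' u' s')
    (h'' : RR G (v + v') u'' s'') (ha : pq G u = pq G u'') (hb : pq G u' = pq G u'') :
    pq G s'' = pq G s + pq G s' := by
  obtain ⟨a, ha⟩ := pq_eq G ha
  obtain ⟨b, hb⟩ := pq_eq G hb
  obtain ⟨t, ht⟩ := key G h h' h'' a b ha hb
  have h1 : pq G (s + s' + s'') = 0 := (pq_zero G _).2 ⟨t, fun o => ht o⟩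
  rw [map_add, map_add] at h1
  exact (eq_of_add h1).symm

theorem uniq {v : V} {u s u' s' : ∀ o, Vo o} (h : RR G v u s) (h' : RR G v u' s')
    (hu : pq G u = pq G u') : pq G s = pq G s' := by
  have h0 : RR G 0 u' 0 := fun o => by simp
  have h'' : RR G (v + 0) u' s' := by rw [add_zero]; exact h'
  have := key' G h h0 h'' hu rfl
  rw [map_zero, add_zero] at this
  exact this.symm

variable (h4 : G.P4)
include h4

theorem exi (v : V) (c : CC G) : ∃ c' : CC G, ∃ u s, pq G u = c ∧ pq G s = c' ∧ RR G v u s := by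
  obtain ⟨u, rfl⟩ := Submodule.mkQ_surjective _ c
  obtain ⟨f, hf⟩ := h4 u v
  choose s hs using hf
  refine ⟨pq G s, fun o => u o + G.ρ o f, s, ?_, rfl, hs⟩
  have h1 : (fun o => u o + G.ρ o f) = u + rr G f := rfl
  have h2 : pq G (rr G f) = 0 := (pq_zero G _).2 ⟨f, fun o => rfl⟩
  rw [h1, map_add, h2, add_zero]

/-- the operators -/
noncomputable def Pf (v : V) (c : CC G) : CC G := Classical.choose (exi G h4 v c)

theorem Pf_spec (v : V) (c : CC G) : ∃ u s, pq G u = c ∧ pq G s = Pf G h4 v c ∧ RR G v u s :=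
  Classical.choose_spec (exi G h4 v c)

theorem Pf_eq {v : V} {u s : ∀ o, Vo o} (h : RR G v u s) : Pf G h4 v (pq G u) = pq G s := by
  obtain ⟨u', s', h1, h2, h3⟩ := Pf_spec G h4 v (pq G u)
  rw [← h2]
  exact uniq G h3 h h1

theorem Pf_add (v : V) (c c' : CC G) : Pf G h4 v (c + c') = Pf G h4 v c + Pf G h4 v c' := by
  obtain ⟨u, s, h1, h2, h3⟩ := Pf_spec G h4 v c
  obtain ⟨u', s', h1', h2', h3'⟩ := Pf_spec G h4 v c'
  have h : RR G v (u + u') (s + s') := fun o => by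
    rw [Pi.add_apply, Pi.add_apply, map_add, map_add, h3 o, h3' o]
  rw [← h2, ← h2', ← map_add, ← Pf_eq G h4 h, map_add, h1, h1']

theorem Pf_add' (v v' : V) (c : CC G) : Pf G h4 (v + v') c = Pf G h4 v c + Pf G h4 v' c := by
  obtain ⟨u, s, h1, h2, h3⟩ := Pf_spec G h4 v c
  obtain ⟨u', s', h1', h2', h3'⟩ := Pf_spec G h4 v' c
  obtain ⟨u'', s'', h1'', h2'', h3''⟩ := Pf_spec G h4 (v + v') c
  rw [← h2, ← h2', ← h2'']
  exact key' G h3 h3' h3'' (h1.trans h1''.symm) (h1'.trans h1''.symm)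

/-- the operators, linear -/
noncomputable def PL (v : V) : CC G →ₗ[ZMod 2] CC G :=
  AddMonoidHom.toZModLinearMap 2 (AddMonoidHom.mk' (Pf G h4 v) (Pf_add G h4 v))

theorem PL_apply (v : V) (c : CC G) : PL G h4 v c = Pf G h4 v c := rfl

/-- the family of the operators, linear -/
noncomputable def PP : V →ₗ[ZMod 2] (CC G →ₗ[ZMod 2] CC G) :=
  AddMonoidHom.toZModLinearMap 2 (AddMonoidHom.mk' (PL G h4) fun v v' => by
    refine LinearMap.ext fun c => ?_
    exact Pf_add' G h4 v v' c)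

theorem PP_apply (v : V) (c : CC G) : PP G h4 v c = Pf G h4 v c := rfl

end

end GCK_

open GCK_ in
theorem gck_proof : Stmt_GCK := by
  intro ι V B _ _ _ _ _ _ Vo Bo _ _ _ _ G h4
  refine ⟨CC G, inferInstance, inferInstance, pq G, PP G h4, Submodule.mkQ_surjective _,
    pq_zero G, ?_, ?_, ?_⟩
  · intro v c
    rw [PP_apply, PP_apply]
    obtain ⟨u, s, h1, h2, h3⟩ := Pf_spec G h4 v c
    rw [← h2]
    choose x hx using fun o => (G.lqo o).link (G.ρ o v) (u o) (G.ρ o G.e) (s o) (h3 o)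
    have hr : RR G v x x := fun o => by rw [(hx o).1, (hx o).2]
    obtain ⟨n, hn⟩ := rangeD G (fun o => s o + x o) (fun o => by
      rw [map_add, ← h3 o, (hx o).2]
      exact two _)
    have hs : pq G (s + x) = 0 := (pq_zero G _).2 ⟨n, fun o => hn o⟩
    rw [map_add] at hs
    rw [eq_of_add hs]
    exact Pf_eq G h4 hr
  · intro c
    obtain ⟨u, rfl⟩ := Submodule.mkQ_surjective _ c
    exact Pf_eq G h4 (v := G.e) (u := u) (s := u) fun o => rfl
  · intro v u s h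
    exact Pf_eq G h4 h

end Pool.Agent.EV3
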