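import Pool.Agent.EV3.GStmts
import Pool.Agent.ETG.All
import Pool.Agent.EWH.All

set_option autoImplicit false

namespace Pool.Agent.EV3

open scoped BigOperators
open Pool.Agent.EWG (VV vm iu QD vm_surj vm_mul vm_one vm_eq_zero vm_eq_iff Good)
open Pool.Agent.EWH (Two BQ FX pf sy)
open Pool.Agent.ETG (EqQ LZ ZDec ZLoc ZFan Fac ND Indec Rig Zf Zh vmap vmap_vm)

theorem gdx_proof (hOSX : Stmt_OSX) (hLOC : Stmt_LOC) (hLRX : Stmt_LRX) (hTAU : Stmt_TAU)
    (hORB : Stmt_ORB) : Stmt_GDX := by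
  intro F K _ _ _ E h2 hE hfin
  obtain ⟨X⟩ := EWH.q_fx F K h2 E
  have h2K : Two K := Two.map (algebraMap F K) h2
  have gK : Good K := ⟨h2K, (E.θ : K), by
    rw [E.sq, hE, Units.val_neg, Units.val_one, map_neg, map_one]⟩
  haveI := hfin
  have hfK : Finite (VV K) := EWH.q_fin F h2 hfin K E
  obtain ⟨k, C, hC⟩ := hOSX K gK hfK
  have hσ : ∀ w, X.σ w = vmap (E.σ : K →+* K) w := by
    intro w
    obtain ⟨a, rfl⟩ := vm_surj w
    rw [X.σ_vm, vmap_vm]
  obtain ⟨τ, ττ, hτ⟩ := hTAU (VV K) (Zf K) (ETG.a_zfl K gK).1 k C hC X.σ X.σ_σ (by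
    intro v w h
    rw [hσ, hσ]
    exact ETG.a_zmp K K (E.σ : K →+* K) gK v w h)
  obtain ⟨ι, fι, dι, jj, jinj, jsur⟩ := hORB k τ ττ
  have key : ∀ o : ι, ∃ (L : Type) (_ : Field L) (r : F →+* L),
      (τ (jj o) = jj o ∧ FixAt E (C.p (jj o)) r) ∨
      (τ (jj o) ≠ jj o ∧ FreeAt E (C.p (jj o)) r) := by
    intro o
    by_cases h : τ (jj o) = jj o
    · obtain ⟨F', iF', f, hf⟩ := hLOC F K E h2 hE hfin k C hC (jj o) (by
        intro v hv
        rw [← hσ]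
        have := (hτ (jj o) v).1 hv
        rwa [h] at this)
      exact ⟨F', iF', f, Or.inl ⟨h, hf⟩⟩
    · obtain ⟨L, iL, g, h1, h3, h4, h5⟩ := hLRX K gK hfK k C hC (jj o)
      refine ⟨L, iL, g.comp (algebraMap F K), Or.inr ⟨h, h1, ?_, g, fun a => rfl, h3, h4, h5⟩⟩
      exact Finite.of_surjective (vmap g) h3
  choose Fo iFo r typ using key
  exact ⟨{ two := h2, ex := hE, fin := hfin, X := X, k := k, C := C, OS := hC, τ := τ,
           ττ := ττ, hτ := hτ, ι := ι, fι := fι, dι := dι, jj := jj, jinj := jinj,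
           jsur := jsur, Fo := Fo, iFo := iFo, r := r, typ := typ }⟩

end Pool.Agent.EV3
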