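import Pool.Agent.EV3.GStmts

/-!
V3, GLUE, module GIS.
-/

set_option autoImplicit false

namespace Pool.Agent.EV3

open scoped BigOperators

theorem gis_proof : Stmt_GIS := by
  intro ι V B _ _ _ _ _ _ Vo Bo _ _ _ _ G h8 y v b hy hyv hvb
  have hcV : ∀ w : V, w + w = 0 := fun w => by
    rw [← two_smul (ZMod 2) w]
    have h2 : (2 : ZMod 2) = 0 := by decide
    rw [h2, zero_smul]
  have hcB : ∀ w : B, w + w = 0 := fun w => by
    rw [← two_smul (ZMod 2) w]
    have h2 : (2 : ZMod 2) = 0 := by decide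
    rw [h2, zero_smul]
  obtain ⟨x, hx1, hx2⟩ := G.lq.link v b G.e y hvb
  have hn : G.q G.e (x + y) = 0 := by
    rw [map_add, hx2, hvb, hcB]
  have hvn : G.q v (x + y) = G.q G.e y := by
    rw [map_add, hx1, hvb, G.lq.symm v y, hyv, add_zero]
  have hnv : G.q (x + y) v = G.q G.e y := by rw [G.lq.symm, hvn]
  obtain ⟨x', hx1', hx2'⟩ := G.lq.link (x + y) v G.e y hnv
  have hn' : G.q G.e (x' + y) = 0 := by
    rw [map_add, hx2', hnv, hcB]
  have hnn : G.q (x + y) (x' + y) = G.q G.e y := by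
    rw [map_add, hx1', hnv, G.lq.symm (x + y) y, G.P0 y (x + y) hy hn, add_zero]
  have h0 : G.q (x + y) (x' + y) = 0 := by
    refine h8 _ _ hn hn' fun o => ?_
    rw [← G.comp, hnn, G.comp, hy o, map_zero]
  rw [← hnn, h0]

end Pool.Agent.EV3
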