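import Pool.Agent.EV3.GStmts

set_option autoImplicit false

namespace Pool.Agent.EV3

open scoped BigOperators
open Pool.Agent.EWG (VV vm iu QD vm_surj vm_mul vm_one vm_eq_zero vm_eq_iff Good)
open Pool.Agent.EWH (Two BQ FX pf sy)
open Pool.Agent.ETG (EqQ LZ ZDec ZLoc ZFan Fac ND Indec Rig Zf Zh vmap vmap_vm)

namespace GLUE_

/-- reindexing -/
theorem reindex (V : Type) [AddCommGroup V] [Module (ZMod 2) V] (Z0 : V → V → Prop) (e0 : V)
    (J : Type) [Fintype J] (W : J → Type) [∀ j, AddCommGroup (W j)]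
    [∀ j, Module (ZMod 2) (W j)] (Z : ∀ j, W j → W j → Prop) (e : ∀ j, W j)
    (π : ∀ j, V →ₗ[ZMod 2] W j) (h1 : ∀ w : ∀ j, W j, ∃ v, ∀ j, π j v = w j)
    (h2 : ∀ v w, Z0 v w ↔ ∀ j, Z j (π j v) (π j w)) (h3 : ∀ j, π j e0 = e j)
    (h4 : ∀ j, TFree (Z j) (e j) ∨ TOrd (Z j) (e j) ∨ TFix (Z j) (e j)) :
    ∃ (k : ℕ) (W : Fin k → Type) (_ : ∀ j, AddCommGroup (W j))
    (_ : ∀ j, Module (ZMod 2) (W j)) (Z : ∀ j, W j → W j → Prop) (e : ∀ j, W j)
    (π : ∀ j, V →ₗ[ZMod 2] W j),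
    (∀ w : ∀ j, W j, ∃ v, ∀ j, π j v = w j) ∧
    (∀ v w, Z0 v w ↔ ∀ j, Z j (π j v) (π j w)) ∧
    (∀ j, π j e0 = e j) ∧
    ∀ j, TFree (Z j) (e j) ∨ TOrd (Z j) (e j) ∨ TFix (Z j) (e j) := by
  let f : Fin (Fintype.card J) ≃ J := (Fintype.equivFin J).symm
  refine ⟨Fintype.card J, fun j => W (f j), fun j => inferInstance, fun j => inferInstance,
    fun j => Z (f j), fun j => e (f j), fun j => π (f j), ?_, ?_, fun j => h3 (f j),
    fun j => h4 (f j)⟩
  · intro w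
    obtain ⟨v, hv⟩ := h1 (Equiv.piCongrLeft W f w)
    refine ⟨v, fun j => ?_⟩
    rw [hv (f j)]
    exact Equiv.piCongrLeft_apply_apply W f w j
  · intro v w
    rw [h2]
    constructor
    · intro h j
      exact h (f j)
    · intro h j
      obtain ⟨i, rfl⟩ := f.surjective j
      exact h i

variable {ι : Type} (κ : ℕ) (Vo : ι → Type)

/-- the factors -/
def WW : Fin κ ⊕ ι → Type
  | Sum.inl _ => ZMod 2
  | Sum.inr o => Vo o

instance instA [h : ∀ o, AddCommGroup (Vo o)] : ∀ j, AddCommGroup (WW κ Vo j)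
  | Sum.inl _ => inferInstanceAs (AddCommGroup (ZMod 2))
  | Sum.inr o => h o

instance instM [h : ∀ o, AddCommGroup (Vo o)] [h' : ∀ o, Module (ZMod 2) (Vo o)] :
    ∀ j, Module (ZMod 2) (WW κ Vo j)
  | Sum.inl _ => inferInstanceAs (Module (ZMod 2) (ZMod 2))
  | Sum.inr o => h' o

end GLUE_

open GLUE_ in
theorem glue_proof (hQFC : Stmt_QFC) (hGDX : Stmt_GDX) (hONC : Stmt_ONC) (hGFP : Stmt_GFP) :
    Stmt_GLUE := by
  intro F _ h2 hns hfin
  have hns' : ¬ IsSquare (-1 : Fˣ) := by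
    rintro ⟨a, ha⟩
    apply hns
    refine ⟨(a : F), ?_⟩
    have := congrArg (fun u : Fˣ => (u : F)) ha
    simpa using this
  obtain ⟨K, _, _, E, hE⟩ := EWH.q_qxe F h2 (-1 : Fˣ) hns'
  obtain ⟨G⟩ := hGDX F K E h2 hE hfin
  obtain ⟨κ, χ, h1, hsur, hZ⟩ := hGFP F K E G
  have hqz := (hQFC F h2).2.2.1
  have two_o : ∀ o, Two (G.Fo o) := fun o => Two.map (G.r o) h2
  have ρ_m1 : ∀ o, G.ρ o (m1 F) = m1 (G.Fo o) := by
    intro o
    show vmap (G.r o) (vm (-1 : Fˣ)) = vm (-1)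
    rw [vmap_vm]
    congr 1
    apply Units.ext
    show (G.r o) ((-1 : Fˣ) : F) = ((-1 : (G.Fo o)ˣ) : G.Fo o)
    simp
  let Z : ∀ j, WW κ (fun o => VV (G.Fo o)) j → WW κ (fun o => VV (G.Fo o)) j → Prop := fun j =>
    match j with
    | Sum.inl _ => fun a b => (show ZMod 2 from a) * (show ZMod 2 from b) = 0
    | Sum.inr o => Zh (G.Fo o)
  let e : ∀ j, WW κ (fun o => VV (G.Fo o)) j := fun j =>
    match j with
    | Sum.inl _ => (1 : ZMod 2)
    | Sum.inr o => m1 (G.Fo o)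
  let π : ∀ j, VV F →ₗ[ZMod 2] WW κ (fun o => VV (G.Fo o)) j := fun j =>
    match j with
    | Sum.inl i => χ i
    | Sum.inr o => G.ρ o
  refine reindex (VV F) (Zh F) (vm (-1 : Fˣ)) (Fin κ ⊕ G.ι) (WW κ (fun o => VV (G.Fo o)))
    Z e π ?_ ?_ ?_ ?_
  · intro w
    obtain ⟨v, hv1, hv2⟩ := hsur (fun i => w (Sum.inl i)) (fun o => w (Sum.inr o))
    refine ⟨v, fun j => ?_⟩
    rcases j with i | o
    · exact hv1 i
    · exact hv2 o
  · intro v w
    rw [← hqz, hZ]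
    constructor
    · rintro ⟨ha, hb⟩ j
      rcases j with i | o
      · exact ha i
      · exact ((hQFC (G.Fo o) (two_o o)).2.2.1 _ _).1 (hb o)
    · intro h
      refine ⟨fun i => h (Sum.inl i), fun o => ?_⟩
      exact ((hQFC (G.Fo o) (two_o o)).2.2.1 _ _).2 (h (Sum.inr o))
  · intro j
    rcases j with i | o
    · exact h1 i
    · exact ρ_m1 o
  · intro j
    rcases j with i | o
    · right
      left
      refine ⟨?_, ?_, ?_⟩
      · intro w
        show (show ZMod 2 from w) = 0 ∨ (show ZMod 2 from w) = 1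
        have : ∀ a : ZMod 2, a = 0 ∨ a = 1 := by decide
        exact this w
      · show (1 : ZMod 2) ≠ 0
        decide
      · show ¬ ((1 : ZMod 2) * 1 = 0)
        decide
    · rcases G.typ o with ⟨hτ, _⟩ | ⟨hτ, hFr⟩
      · right
        right
        obtain ⟨a1, a2, a3, a4⟩ := hONC F K E G o hτ
        refine ⟨G.Fo o, G.iFo o, LinearEquiv.refl _ _, a1, a2, a3, a4, rfl, ?_⟩
        intro a b
        exact Iff.rfl
      · left
        obtain ⟨hG, hf, _⟩ := hFr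
        have hQ := (hQFC (G.Fo o) (two_o o))
        refine ⟨(hQ.2.2.2.2 hG).1, G.Fo o, G.iFo o, LinearEquiv.refl _ _, hG, hf, ?_⟩
        intro a b
        show Zh (G.Fo o) a b ↔ Zf (G.Fo o) a b
        rw [← hQ.2.2.1, (hQ.2.2.2.2 hG).2.1]

end Pool.Agent.EV3
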