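import Pool.Agent.EV3.GStmts

/-!
GON: `ρ` is onto.
-/

set_option autoImplicit false

namespace Pool.Agent.EV3

open scoped BigOperators
open Pool.Agent.EWG (VV vm iu QD vm_surj vm_mul vm_one vm_eq_zero vm_eq_iff Good)
open Pool.Agent.EWH (Two BQ FX pf sy)
open Pool.Agent.ETG (EqQ LZ ZDec ZLoc ZFan Fac ND Indec Rig Zf Zh vmap vmap_vm)

namespace GON_

theorem zmod2 (x : ZMod 2) (h : x ≠ 0) : x = 1 := by
  revert x; decide

end GON_

theorem gon_proof (hGCK : Stmt_GCK) (hEIG : Stmt_EIG) : Stmt_GON := by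
  intro ι V B _ _ _ _ _ _ _ Vo Bo _ _ _ _ _ G h4 h5 h6
  by_contra hcon
  push Not at hcon
  obtain ⟨u0, hu0⟩ := hcon
  obtain ⟨C, iC, mC, π, P, hπs, hπk, hP, hPe, hPu⟩ := hGCK ι V B Vo Bo G h4
  haveI : Finite C := Finite.of_surjective π hπs
  have hne : ∃ c : C, c ≠ 0 := by
    refine ⟨π u0, fun h => ?_⟩
    obtain ⟨v, hv⟩ := (hπk u0).1 h
    obtain ⟨o, ho⟩ := hu0 v
    exact ho (hv o)
  obtain ⟨φ, χ, hφ, hχ⟩ := hEIG V C P hP hne
  let φo : ∀ o, Vo o →ₗ[ZMod 2] ZMod 2 := fun o => φ ∘ₗ π ∘ₗ LinearMap.single (ZMod 2) Vo o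
  have hφo : ∀ o u, φo o u = φ (π (Pi.single o u)) := fun o u => rfl
  have key : ∀ o v u s, G.qo o (G.ρ o v) u = G.qo o (G.ρ o G.e) s → χ v * φo o u = φo o s := by
    intro o v u s h
    have h7 := hPu v (Pi.single o u) (Pi.single o s) (by
      intro o'
      by_cases ho : o' = o
      · subst ho
        rw [Pi.single_eq_same, Pi.single_eq_same]
        exact h
      · rw [Pi.single_eq_of_ne ho, Pi.single_eq_of_ne ho, map_zero, map_zero])
    rw [hφo, hφo, ← hχ, h7]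
  have h1 : ∀ o v, φo o (G.ρ o v) = χ v * φo o (G.ρ o G.e) := fun o v =>
    (key o v (G.ρ o G.e) (G.ρ o v) ((G.lqo o).symm _ _)).symm
  have hord : ∀ o, φo o (G.ρ o G.e) ≠ 0 → (∀ v, φo o (G.ρ o v) = χ v) ∧
      Ordg (G.qo o) (G.ρ o G.e) (φo o) := by
    intro o ho
    have ho1 := GON_.zmod2 _ ho
    have h8 : ∀ v, φo o (G.ρ o v) = χ v := by
      intro v
      rw [h1, ho1, mul_one]
    refine ⟨h8, ho1, ?_⟩
    intro a b hab
    obtain ⟨v, rfl⟩ := h5 o a
    rw [h8, key o v b 0 (by rw [hab, map_zero]), map_zero]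
  have hsum : ∑ o, φo o (G.ρ o G.e) = 0 := by
    have h9 : φ (π (fun o => G.ρ o G.e)) = ∑ o, φo o (G.ρ o G.e) := by
      conv_lhs => rw [← Finset.univ_sum_single (fun o => G.ρ o G.e)]
      rw [map_sum, map_sum]
      exact Finset.sum_congr rfl fun o _ => (hφo o _).symm
    rw [← h9, (hπk _).2 ⟨G.e, fun o => rfl⟩, map_zero]
  have hex : ∃ o, φo o (G.ρ o G.e) ≠ 0 := by
    by_contra h
    push Not at h
    apply hφ
    apply LinearMap.ext
    intro c
    obtain ⟨u, rfl⟩ := hπs c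
    rw [← Finset.univ_sum_single u, map_sum, map_sum]
    apply Finset.sum_eq_zero
    intro o _
    obtain ⟨v, hv⟩ := h5 o (u o)
    rw [← hφo, ← hv, h1, h, mul_zero]
  obtain ⟨o, ho⟩ := hex
  have hex2 : ∃ o', o' ≠ o ∧ φo o' (G.ρ o' G.e) ≠ 0 := by
    by_contra h
    push Not at h
    rw [Finset.sum_eq_single o (fun b _ hb => h b hb)
      (fun h => absurd (Finset.mem_univ o) h)] at hsum
    exact ho hsum
  obtain ⟨o', ho', ho2⟩ := hex2
  exact h6 o o' ho'.symm (φo o) (φo o') (hord o ho).2 (hord o' ho2).2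
    (fun v => by rw [(hord o ho).1, (hord o' ho2).1])

end Pool.Agent.EV3
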