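import Pool.Agent.EV3.GStmts

/-!
V3, GLUE: module GP1 (P1).  Recipe: /team-store/MP_d26ff6_EV3.md.
-/

set_option autoImplicit false

namespace Pool.Agent.EV3

open scoped BigOperators
open Pool.Agent.EWG (VV vm iu QD vm_surj vm_mul vm_one vm_eq_zero vm_eq_iff Good)
open Pool.Agent.EWH (Two BQ FX pf sy)
open Pool.Agent.ETG (EqQ LZ ZDec ZLoc ZFan Fac ND Indec Rig Zf Zh vmap vmap_vm)

/-- P1: a norm at one orbit is a component of a norm with all other components `0` -/
theorem gp1_proof (hQFC : Stmt_QFC) (hFXQ : Stmt_FXQ) (hTYP : Stmt_TYP) (hNSC : Stmt_NSC) :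
    Stmt_GP1 := by
  intro F K _ _ _ E G o d hd
  obtain ⟨hq, -, -, -⟩ := hFXQ F K E G.two G.X
  -- norms are orthogonal to the class of minus one
  have hN : ∀ w : VV K, qf F (m1 F) (G.X.N w) = 0 := by
    intro w
    have h := (G.X.im_N (G.X.N w)).2 ⟨w, rfl⟩
    rw [hq, G.ex] at h
    exact h
  have hsup : ∀ v : VV K, ∀ o', o' ≠ o → G.ρ o' (G.X.N (G.C.p (G.jj o) v)) = 0 := by
    intro v o' ho'
    exact hNSC F K E G o _ (G.C.idem _ v) o' ho'
  have hpp : ∀ v : VV K, G.C.p (G.jj o) (v + G.C.p (G.jj o) v) = 0 := by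
    intro v
    rw [map_add, G.C.idem, ZModModule.add_self]
  rcases hTYP F K E G o with ⟨-, K', _, _, E', X', γ, hL⟩ | ⟨hne, -, γ, hL⟩
  · have htwo : Two (G.Fo o) := by
      intro h2
      apply G.two
      have h : (G.r o) (2 : F) = 0 := by rw [map_ofNat]; exact h2
      exact (map_eq_zero (G.r o)).1 h
    obtain ⟨hq', -, -, -⟩ := hFXQ (G.Fo o) K' E' htwo X'
    have h1 : X'.q (vm E'.x) d = 0 := by
      rw [hq', hL.ex]
      exact hd
    obtain ⟨z, hz⟩ := (X'.im_N d).1 h1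
    obtain ⟨v, hv⟩ := hL.surj z
    refine ⟨G.X.N (G.C.p (G.jj o) v), hN _, ?_, hsup v⟩
    have h2 : γ v + γ (G.C.p (G.jj o) v) = 0 := by
      rw [← map_add]
      exact (hL.ker _).2 (hpp v)
    have h3 : γ (G.C.p (G.jj o) v) = γ v := by
      have h4 := congrArg (fun t => γ v + t) h2
      simp only [← add_assoc, ZModModule.add_self, zero_add, add_zero] at h4
      exact h4
    rw [← hL.N, h3, hv, hz]
  · obtain ⟨v, hv⟩ := hL.surj d
    refine ⟨G.X.N (G.C.p (G.jj o) v), hN _, ?_, hsup v⟩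
    have h2 : γ v + γ (G.C.p (G.jj o) v) = 0 := by
      rw [← map_add]
      exact (hL.ker _).2 (hpp v)
    have h3 : γ (G.C.p (G.jj o) v) = γ v := by
      have h4 := congrArg (fun t => γ v + t) h2
      simp only [← add_assoc, ZModModule.add_self, zero_add, add_zero] at h4
      exact h4
    have h5 : γ (G.X.σ (G.C.p (G.jj o) v)) = 0 := by
      rw [hL.ker]
      have h6 := (G.hτ (G.τ (G.jj o)) (G.C.p (G.jj o) v)).1 (G.C.orth _ _ hne v)
      rw [G.ττ] at h6
      exact h6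
    rw [hL.res, G.X.res_N, map_add, h5, add_zero, h3, hv]

end Pool.Agent.EV3
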