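import Pool.Agent.EV3.GStmts

/-!
V3, GLUE: module GP2 (exchange).
-/

set_option autoImplicit false

namespace Pool.Agent.EV3

open scoped BigOperators
open Pool.Agent.EWG (VV vm iu QD vm_surj vm_mul vm_one vm_eq_zero vm_eq_iff Good)
open Pool.Agent.EWH (Two BQ FX pf sy)
open Pool.Agent.ETG (EqQ LZ ZDec ZLoc ZFan Fac ND Indec Rig Zf Zh vmap vmap_vm)

namespace GP2_

theorem eq_of_add {M : Type} [AddCommGroup M] [Module (ZMod 2) M] {x y : M} (h : x + y = 0) :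
    x = y := by
  have h2 : y + y = 0 := by
    have h3 : (2 : ZMod 2) • y = 0 := by
      have : (2 : ZMod 2) = 0 := by decide
      rw [this, zero_smul]
    rw [two_smul] at h3
    exact h3
  calc x = x + (y + y) := by rw [h2, add_zero]
    _ = (x + y) + y := by rw [add_assoc]
    _ = y := by rw [h, zero_add]

theorem good_of {K : Type} [Field K] (h2 : Two K) (h : m1 K = 0) : Good K := by
  obtain ⟨z, hz⟩ := (vm_eq_zero (-1 : Kˣ)).1 h
  refine ⟨h2, ⟨(z : K), ?_⟩⟩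
  have h3 := congrArg Units.val hz
  rw [pow_two]
  simpa using h3.symm

theorem good_qd {F K : Type} [Field F] [Field K] [Algebra F K] (E : QD F K) (h2 : Two F)
    (hx : E.x = -1) : Good K := by
  refine ⟨Two.map (algebraMap F K) h2, ⟨(E.θ : K), ?_⟩⟩
  rw [E.sq, hx]
  simp

theorem at_jj (hQFC : Stmt_QFC) (hFXQ : Stmt_FXQ) (hTYP : Stmt_TYP) (hKFC : Stmt_KFC)
    (hEQL : Stmt_EQL) {F K : Type} [Field F] [Field K] [Algebra F K] {E : QD F K}
    (G : GD F K E) (a b c d : VV F) (o : G.ι)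
    (h : ∃ s, qf (G.Fo o) (G.ρ o a) (G.ρ o b) + qf (G.Fo o) (G.ρ o c) (G.ρ o d) =
      qf (G.Fo o) (m1 (G.Fo o)) s) :
    G.X.Q (G.C.p (G.jj o) (G.X.res a)) (G.C.p (G.jj o) (G.X.res b)) =
      G.X.Q (G.C.p (G.jj o) (G.X.res c)) (G.C.p (G.jj o) (G.X.res d)) := by
  obtain ⟨hm1, -⟩ := hKFC F K E G
  have h2K : Two K := Two.map (algebraMap F K) G.two
  have hgK : Good K := good_of h2K hm1
  obtain ⟨-, hQ, -⟩ := hFXQ F K E G.two G.X
  have h2o : Two (G.Fo o) := Two.map (G.r o) G.two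
  obtain ⟨s, hs⟩ := h
  rw [hQ]
  rcases hTYP F K E G o with ⟨-, K', _, _, E', X', γ, L⟩ | ⟨-, hgo, γ, L⟩
  · obtain ⟨hq', hQ', -⟩ := hFXQ (G.Fo o) K' E' h2o X'
    have hgK' : Good K' := good_qd E' h2o L.ex
    have hr0 : X'.res (m1 (G.Fo o)) = 0 := (X'.ker_res _).2 (Or.inr (by rw [L.ex]))
    have h0 : X'.rb (X'.q (m1 (G.Fo o)) s) = 0 := by
      rw [X'.rb_q, hr0, map_zero, LinearMap.zero_apply]
    rw [← hq'] at hs
    have h1 : X'.rb (X'.q (G.ρ o a) (G.ρ o b) + X'.q (G.ρ o c) (G.ρ o d)) = 0 := by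
      rw [hs, h0]
    rw [map_add, X'.rb_q, X'.rb_q, L.res, L.res, L.res, L.res] at h1
    have h3 := eq_of_add h1
    rw [hQ'] at h3
    exact hEQL K K' hgK hgK' (G.C.p (G.jj o)) γ L.surj
      (fun v w => by rw [← hQ', ← hQ]; exact L.iso v w) _ _ _ _ h3
  · obtain ⟨-, -, -, -, hgood⟩ := hQFC (G.Fo o) h2o
    obtain ⟨hm, -⟩ := hgood hgo
    rw [hm, map_zero, LinearMap.zero_apply, L.res, L.res, L.res, L.res] at hs
    exact hEQL K (G.Fo o) hgK hgo (G.C.p (G.jj o)) γ L.surj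
      (fun v w => by rw [← hQ]; exact L.iso v w) _ _ _ _ (eq_of_add hs)

end GP2_

open GP2_ in
theorem gp2_proof (hQFC : Stmt_QFC) (hFXQ : Stmt_FXQ) (hTYP : Stmt_TYP) (hKFC : Stmt_KFC)
    (hEQL : Stmt_EQL) : Stmt_GP2 := by
  intro F K _ _ _ E G a b c d h
  have hjj := fun o => at_jj hQFC hFXQ hTYP hKFC hEQL G a b c d o (h o)
  obtain ⟨-, -, hQs, -, hQσ, -, -⟩ := hKFC F K E G
  obtain ⟨hq, -, -⟩ := hFXQ F K E G.two G.X
  have key : ∀ j, G.X.Q (G.C.p j (G.X.res a)) (G.C.p j (G.X.res b)) =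
      G.X.Q (G.C.p j (G.X.res c)) (G.C.p j (G.X.res d)) := by
    intro j
    obtain ⟨o, ho | ho⟩ := G.jsur j
    · rw [ho]; exact hjj o
    · have h1 := hQσ (G.jj o) (G.X.res a) (G.X.res b)
      have h2 := hQσ (G.jj o) (G.X.res c) (G.X.res d)
      rw [G.X.σ_res, G.X.σ_res] at h1 h2
      rw [ho, h1, h2, hjj o]
  have hsum : G.X.Q (G.X.res a) (G.X.res b) = G.X.Q (G.X.res c) (G.X.res d) := by
    rw [hQs (G.X.res a) (G.X.res b), hQs (G.X.res c) (G.X.res d)]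
    exact Finset.sum_congr rfl (fun j _ => key j)
  obtain ⟨z, hz⟩ := FX.ex2 G.two G.X a b c d hsum
  refine ⟨z, ?_⟩
  rw [hq, G.ex] at hz
  exact hz

end Pool.Agent.EV3
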