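import Pool.Agent.EV3.GStmts

/-!
GP4: the cokernel of the localisations is generated by elements orthogonal to `v` modulo the
values of `-1`.
-/

set_option autoImplicit false

namespace Pool.Agent.EV3

open scoped BigOperators
open Pool.Agent.EWG (VV vm iu QD vm_surj vm_mul vm_one vm_eq_zero vm_eq_iff Good)
open Pool.Agent.EWH (Two BQ FX pf sy)
open Pool.Agent.ETG (EqQ LZ ZDec ZLoc ZFan Fac ND Indec Rig Zf Zh vmap vmap_vm)

namespace GP4_

theorem add_self2 {V : Type} [AddCommGroup V] [Module (ZMod 2) V] (v : V) : v + v = 0 := by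
  have h : (1 + 1 : ZMod 2) • v = 0 := by
    have : (1 + 1 : ZMod 2) = 0 := by decide
    rw [this, zero_smul]
  rw [add_smul, one_smul] at h
  exact h

end GP4_

theorem gp4_proof (hQFC : Stmt_QFC) (hFXQ : Stmt_FXQ) (hTYP : Stmt_TYP) (hKFC : Stmt_KFC)
    (_hNSC : Stmt_NSC) (hNRD : Stmt_NRD) (hGP1 : Stmt_GP1) : Stmt_GP4 := by
  intro F K _ _ _ E G hR u v
  obtain ⟨-, -, -, -, -, -, hKZ⟩ := hKFC F K E G
  obtain ⟨hq, -, -, -⟩ := hFXQ F K E G.two G.X
  -- the element `w o`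
  have hw : ∀ o, ∃ w : VV K, G.C.p (G.jj o) w = w ∧ (∀ v', qf F (G.X.N w) v' = 0) ∧
      ((∃ (K' : Type) (_ : Field K') (_ : Algebra (G.Fo o) K')
        (E' : QD (G.Fo o) K') (X' : FX E') (γ : VV K →ₗ[ZMod 2] VV K'),
        FixL G.X (G.C.p (G.jj o)) (G.ρ o) (G.β o) X' γ ∧ γ w = X'.res (u o)) ∨
      (w = 0 ∧ Good (G.Fo o) ∧ ∃ γ : VV K →ₗ[ZMod 2] VV (G.Fo o),
        FreL G.X (G.C.p (G.jj o)) (G.ρ o) γ)) := by
    intro o
    rcases hTYP F K E G o with ⟨-, K', iK, iA, E', X', γ, h⟩ | ⟨-, hg, γ, h⟩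
    · obtain ⟨w0, hw0⟩ := h.surj (X'.res (u o))
      have hk : γ (G.C.p (G.jj o) w0) = X'.res (u o) := by
        rw [← hw0]
        have h1 : γ (G.C.p (G.jj o) w0 + w0) = 0 := by
          rw [h.ker, map_add, G.C.idem, GP4_.add_self2]
        rw [map_add] at h1
        have h2 := congrArg (· + γ w0) h1
        simp only [add_assoc, GP4_.add_self2, add_zero, zero_add] at h2
        exact h2
      refine ⟨G.C.p (G.jj o) w0, G.C.idem _ _, ?_, Or.inl ⟨K', iK, iA, E', X', γ, h, hk⟩⟩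
      exact hNRD F K E G hR o K' E' X' γ h _ (u o) (G.C.idem _ _) hk
    · refine ⟨0, map_zero _, ?_, Or.inr ⟨rfl, hg, γ, h⟩⟩
      intro v'
      rw [map_zero, map_zero, LinearMap.zero_apply]
  choose w hw1 hw2 hw3 using hw
  -- the element `n o`
  have hn : ∀ o, ∃ n : VV F, (∀ o', o' ≠ o → G.ρ o' n = 0) ∧
      ((∃ (K' : Type) (_ : Field K') (_ : Algebra (G.Fo o) K')
        (E' : QD (G.Fo o) K') (X' : FX E') (γ : VV K →ₗ[ZMod 2] VV K'),
        FixL G.X (G.C.p (G.jj o)) (G.ρ o) (G.β o) X' γ ∧ γ (w o) = X'.res (u o)) ∧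
        G.ρ o n = 0 ∨
      (w o = 0 ∧ Good (G.Fo o) ∧ ∃ γ : VV K →ₗ[ZMod 2] VV (G.Fo o),
        FreL G.X (G.C.p (G.jj o)) (G.ρ o) γ) ∧ G.ρ o n = u o) := by
    intro o
    rcases hw3 o with h | h
    · exact ⟨0, fun o' _ => map_zero _, Or.inl ⟨h, map_zero _⟩⟩
    · have h2 : Two (G.Fo o) := Two.map (G.r o) G.two
      obtain ⟨-, -, -, -, h3⟩ := hQFC (G.Fo o) h2
      obtain ⟨hm, -⟩ := h3 h.2.1
      obtain ⟨n, -, hn1, hn2⟩ := hGP1 F K E G o (u o) (by
        rw [hm, map_zero, LinearMap.zero_apply])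
      exact ⟨n, hn2, Or.inr ⟨h, hn1⟩⟩
  choose n hn1 hn2 using hn
  have hW : ∀ v', qf F (G.X.N (∑ o, w o)) v' = 0 := by
    intro v'
    rw [map_sum, map_sum, LinearMap.sum_apply]
    exact Finset.sum_eq_zero fun o _ => hw2 o v'
  obtain ⟨f0, hf0⟩ := G.X.F4 v (∑ o, w o) (by rw [G.X.q_symm, hq]; exact hW v)
  refine ⟨f0 + ∑ o, n o, ?_⟩
  intro o
  have hc := (hKZ _ _).1 hf0 (G.jj o)
  -- components of the sums
  have hpw : G.C.p (G.jj o) (∑ o, w o) = w o := by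
    rw [map_sum, Finset.sum_eq_single o]
    · exact hw1 o
    · intro o' _ ho
      rw [← hw1 o']
      apply G.C.orth
      intro h
      exact ho (G.jinj o o' (Or.inl h)).symm
    · intro h
      exact absurd (Finset.mem_univ o) h
  have hpn : G.ρ o (∑ o, n o) = G.ρ o (n o) := by
    rw [map_sum, Finset.sum_eq_single o]
    · intro o' _ ho
      exact hn1 o' o (Ne.symm ho)
    · intro h
      exact absurd (Finset.mem_univ o) h
  rcases hn2 o with ⟨⟨K', iK, iA, E', X', γ, h, hk⟩, h0⟩ | ⟨⟨hw0, hg, γ, h⟩, h0⟩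
  · -- fixed
    have h2 : Two (G.Fo o) := Two.map (G.r o) G.two
    obtain ⟨hq', -, -, -⟩ := hFXQ (G.Fo o) K' E' h2 X'
    have hiso := (h.iso _ _).2 hc
    have hγw : γ (∑ o, w o) = X'.res (u o) := by
      rw [← hk]
      have h1 : γ ((∑ o, w o) + w o) = 0 := by
        rw [h.ker, map_add, hpw, hw1 o, GP4_.add_self2]
      rw [map_add] at h1
      have h2 := congrArg (· + γ (w o)) h1
      simp only [add_assoc, GP4_.add_self2, add_zero, zero_add] at h2
      exact h2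
    rw [map_add, hγw, ← h.res, ← h.res, ← map_add, X'.F3] at hiso
    obtain ⟨z, hz⟩ := hiso
    refine ⟨z, ?_⟩
    have e1 : G.ρ o (f0 + ∑ o, n o) = G.ρ o f0 := by rw [map_add, hpn, h0, add_zero]
    rw [e1, ← hq', hz, h.ex]
  · -- free
    refine ⟨0, ?_⟩
    have e1 : u o + G.ρ o (f0 + ∑ o, n o) = G.ρ o f0 := by
      rw [map_add, hpn, h0, add_comm (G.ρ o f0), ← add_assoc, GP4_.add_self2, zero_add]
    rw [e1, map_zero]
    have hiso := (h.iso _ _).2 hc
    have hγw : γ (∑ o, w o) = 0 := by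
      rw [h.ker, hpw, hw0]
    rw [map_add, hγw, zero_add, ← h.res, ← h.res] at hiso
    exact hiso

end Pool.Agent.EV3
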