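import Pool.Agent.EV3.GStmts

/-!
V3, GLUE: every localisation `ρ o` is onto (module GP5).
-/

set_option autoImplicit false

namespace Pool.Agent.EV3

open scoped BigOperators
open Pool.Agent.EWG (VV vm iu QD vm_surj vm_mul vm_one vm_eq_zero vm_eq_iff Good)
open Pool.Agent.EWH (Two BQ FX pf sy)
open Pool.Agent.ETG (EqQ LZ ZDec ZLoc ZFan Fac ND Indec Rig Zf Zh vmap vmap_vm)

namespace GP5_

theorem add_self (K : Type) [Field K] (v : VV K) : v + v = 0 := EWG.vm_add_self v

theorem iu_neg {F K : Type} [Field F] [Field K] [Algebra F K] : (iu F (-1 : Fˣ) : Kˣ) = -1 := by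
  apply Units.ext
  simp

theorem vmap_m1 {F K : Type} [Field F] [Field K] (f : F →+* K) : vmap f (m1 F) = m1 K := by
  show vmap f (vm (-1 : Fˣ)) = vm (-1 : Kˣ)
  rw [vmap_vm]
  congr 1
  apply Units.ext
  simp

/-- `-1` is a square in `K' = F'(√-1)` -/
theorem good {F K : Type} [Field F] [Field K] [Algebra F K] (h2 : Two F) (E : QD F K)
    (hx : E.x = -1) : Good K where
  two := Two.map (algebraMap F K) h2
  neg := by
    refine ⟨E.θ, ?_⟩
    rw [E.sq, hx]
    simp

end GP5_

open GP5_ in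
/-- P5 -/
theorem gp5_proof (hQFC : Stmt_QFC) (hFXQ : Stmt_FXQ) (hTYP : Stmt_TYP) (hKFC : Stmt_KFC)
    (hONA : Stmt_ONA) (hONB : Stmt_ONB) (hLCR : Stmt_LCR) (_hNSC : Stmt_NSC)
    (hNRD : Stmt_NRD) (hCRR : Stmt_CRR) (hGP1 : Stmt_GP1) : Stmt_GP5 := by
  intro F K _ _ _ E G hRF o u
  have h2o : Two (G.Fo o) := Two.map (G.r o) G.two
  rcases hTYP F K E G o with ⟨hfix, K', _, _, E', X', γ, hL⟩ | ⟨_, hgood, _⟩
  · obtain ⟨hm1, hQZ, hsum, hpw, _, _, hcomp⟩ := hKFC F K E G
    obtain ⟨hXq, hXQ, hXres, hXσ⟩ := hFXQ F K E G.two G.X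
    obtain ⟨hXq', hXQ', hXres', hXσ'⟩ := hFXQ (G.Fo o) K' E' h2o X'
    have hgK' : Good K' := good h2o E' hL.ex
    have h2K' : Two K' := hgK'.two
    obtain ⟨_, hLQ', _, _, hG'⟩ := hQFC K' h2K'
    obtain ⟨hm1', hZ', hLZ', _⟩ := hG' hgK'
    have hfinFo : Finite (VV (G.Fo o)) := by
      rcases G.typ o with ⟨_, hA⟩ | ⟨hne, _⟩
      · exact hA.1
      · exact absurd hfix hne
    have hfinK' : Finite (VV K') := EWH.q_fin (G.Fo o) h2o hfinFo K' E'
    -- the symbol of `K'`
    have hLQ : LQ X'.Q 0 := by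
      rw [hXQ', ← hm1']
      exact hLQ'
    have hZQ : ∀ v w, X'.Q v w = 0 ↔ Zf K' v w := by
      intro v w
      rw [hXQ']
      exact hZ' v w
    -- lifts supported at the component
    have hidem : ∀ v, G.C.p (G.jj o) (G.C.p (G.jj o) v) = G.C.p (G.jj o) v := G.C.idem (G.jj o)
    have hγp : ∀ v, γ (G.C.p (G.jj o) v) = γ v := by
      intro v
      have h1 : γ (G.C.p (G.jj o) v + v) = 0 := by
        rw [hL.ker, map_add, hidem, GP5_.add_self]
      rw [map_add] at h1
      have h3 := GP5_.add_self K' (γ v)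
      calc γ (G.C.p (G.jj o) v) = γ (G.C.p (G.jj o) v) + (γ v + γ v) := by rw [h3, add_zero]
        _ = (γ (G.C.p (G.jj o) v) + γ v) + γ v := by rw [add_assoc]
        _ = γ v := by rw [h1, zero_add]
    have hlift : ∀ a : VV K', ∃ w, G.C.p (G.jj o) w = w ∧ γ w = a := by
      intro a
      obtain ⟨w, rfl⟩ := hL.surj a
      exact ⟨G.C.p (G.jj o) w, hidem w, hγp w⟩
    -- symbols at the component
    have hdown : ∀ v w, G.X.Q v w = 0 → X'.Q (γ v) (γ w) = 0 := by
      intro v w h
      exact (hL.iso v w).2 ((hcomp v w).1 h (G.jj o))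
    have hsupp : ∀ v w, G.C.p (G.jj o) v = v → (X'.Q (γ v) (γ w) = 0 ↔ G.X.Q v w = 0) := by
      intro v w hv
      rw [hL.iso, ← hpw, hv]
    have hND : ∀ v, (∀ w, X'.Q v w = 0) → v = 0 := by
      intro v hv
      obtain ⟨v, rfl⟩ := hL.surj v
      rw [hL.ker]
      apply G.C.nd
      intro w
      rw [← hQZ, ← hL.iso]
      exact hv _
    have hne : ∃ w : VV K', w ≠ 0 := by
      obtain ⟨v, hv⟩ := G.C.ne (G.jj o)
      exact ⟨γ v, fun h => hv ((hL.ker v).1 h)⟩
    -- the two subspaces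
    let A : Submodule (ZMod 2) (VV K') := LinearMap.range X'.res
    let A' : Submodule (ZMod 2) (VV K') := LinearMap.range (γ ∘ₗ G.X.res)
    have hA'A : A' ≤ A := by
      rintro _ ⟨v, rfl⟩
      exact ⟨G.ρ o v, hL.res v⟩
    have hNR : ∀ w : VV K, G.C.p (G.jj o) w = w → (∃ a, γ w = X'.res a) →
        ∀ v, G.X.q (G.X.N w) v = 0 := by
      rintro w hw ⟨a, ha⟩ v
      rw [hXq]
      exact hNRD F K E G hRF o K' E' X' γ hL w a hw ha v
    have hAA' : A ≤ A' := by
      by_cases hrig : ∃ t, t ≠ 0 ∧ ∀ v, X'.Q t v = 0 → v = 0 ∨ v = t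
      · refine hONA (VV K') (BQ K') X'.Q hLQ hND hrig A A' hA'A ?_ ?_
        · rintro _ ⟨a, rfl⟩ _ ⟨v, rfl⟩
          obtain ⟨w, hw, hwa⟩ := hlift (X'.res a)
          have h1 := hNR w hw ⟨a, hwa⟩ v
          rw [G.X.q_symm] at h1
          obtain ⟨f, hf⟩ := G.X.F4 v w h1
          refine ⟨γ (G.X.res f), ⟨f, rfl⟩, ?_⟩
          have h3 := hdown _ _ hf
          rw [map_add, hwa] at h3
          exact h3
        · intro x y
          obtain ⟨x, rfl⟩ := hL.surj x
          obtain ⟨y, rfl⟩ := hL.surj y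
          obtain ⟨b, c, hbc⟩ := G.X.F5 x y
          refine ⟨γ (G.X.res b), ⟨b, rfl⟩, γ (G.X.res c), ⟨c, rfl⟩, ?_⟩
          rw [← map_add, ← map_add]
          exact hdown _ _ hbc
      · -- local type
        have hloc : ZLoc (Zf K) (G.C.p (G.jj o)) := by
          rcases G.OS (G.jj o) with h | ⟨t, ht, ht0, hrt⟩
          · exact h
          · exfalso
            apply hrig
            refine ⟨γ t, fun h => ht0 ?_, ?_⟩
            · rw [← ht]
              exact (hL.ker t).1 h
            · intro v hv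
              obtain ⟨v, rfl⟩ := hL.surj v
              have h1 : Zf K t (G.C.p (G.jj o) v) := by
                rw [← hQZ]
                have := (hL.iso t v).1 hv
                rwa [ht] at this
              rcases hrt v h1 with h | h
              · left
                exact (hL.ker v).2 h
              · right
                rw [← hγp v, h]
        have hloc' : ∀ v w w', X'.Q v w = 0 ∨ X'.Q v w' = 0 ∨ X'.Q v (w + w') = 0 := by
          intro v w w'
          obtain ⟨v, hv, rfl⟩ := hlift v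
          obtain ⟨w, rfl⟩ := hL.surj w
          obtain ⟨w', rfl⟩ := hL.surj w'
          rw [← map_add, hsupp v _ hv, hsupp v _ hv, hsupp v _ hv, hQZ, hQZ, hQZ]
          have := hloc v w w'
          rwa [hv] at this
        have hNDf : ND (Zf K') := by
          intro w hw
          apply hND
          intro v
          rw [hZQ]
          exact hw v
        have hlocf : ZLoc (Zf K') LinearMap.id := by
          intro v w w'
          rw [← hZQ, ← hZQ, ← hZQ]
          exact hloc' _ _ _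
        have hnorig : ¬ ∃ t, Rig (Zf K') t := by
          rintro ⟨t, ht, hr⟩
          exact hrig ⟨t, ht, fun v hv => hr v ((hZQ _ _).1 hv)⟩
        obtain ⟨w0, y0, hw0⟩ := hLCR (G.Fo o) K' E' h2o hL.ex hfinFo hNDf hlocf hne hnorig X'
        obtain ⟨hone, _, hONB3⟩ := hONB (VV K') (BQ K') X'.Q hLQ hND hloc'
        have hcor : ∀ w y, X'.cor (X'.Q w y) = 0 → X'.Q w y = 0 := by
          intro w y h
          by_contra hne'
          have h0 : X'.Q w0 y0 ≠ 0 := fun h0 => hw0 (by rw [h0, map_zero])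
          apply hw0
          rw [hone w0 y0 w y h0 hne']
          exact h
        refine hONB3 A A' ?_ ?_
        · rintro _ ⟨a, rfl⟩ _ ⟨v, rfl⟩
          obtain ⟨w, hw, hwa⟩ := hlift (X'.res a)
          have h1 := hNR w hw ⟨a, hwa⟩ v
          rw [← hwa]
          apply hcor
          show X'.cor (X'.Q (γ w) (γ (G.X.res v))) = 0
          rw [hL.cor, G.X.cor_Q, h1, map_zero]
        · intro m m' hm hm'
          obtain ⟨w, hw, rfl⟩ := hlift m
          obtain ⟨w', hw', rfl⟩ := hlift m'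
          have h1 : ∀ w, G.C.p (G.jj o) w = w → (∀ b ∈ A', X'.Q (γ w) b = 0) →
              ∀ v, G.X.q (G.X.N w) v = 0 := by
            intro w hw hm v
            rw [← G.X.cor_Q, (hsupp w _ hw).1 (hm _ ⟨v, rfl⟩), map_zero]
          apply hcor
          rw [hL.cor, hCRR F K E G.X w w' (h1 w hw hm) (h1 w' hw' hm'), map_zero]
    -- conclusion
    obtain ⟨v, hv⟩ : X'.res u ∈ A' := hAA' ⟨u, rfl⟩
    have hv' : X'.res u = X'.res (G.ρ o v) := by
      rw [hL.res]
      exact hv.symm
    have h0 : X'.res (u + G.ρ o v) = 0 := by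
      rw [map_add, hv', GP5_.add_self]
    have hsh : ∀ c, u + G.ρ o v = c → u = G.ρ o v + c := by
      intro c hc
      rw [← hc, add_comm u, ← add_assoc, GP5_.add_self, zero_add]
    rcases (X'.ker_res _).1 h0 with h | h
    · refine ⟨v, ?_⟩
      have := hsh _ h
      rw [add_zero] at this
      exact this.symm
    · refine ⟨v + m1 F, ?_⟩
      rw [hL.ex] at h
      rw [map_add, hsh _ h]
      congr 1
      exact vmap_m1 (G.r o)
  · have hm : m1 (G.Fo o) = 0 := ((hQFC (G.Fo o) h2o).2.2.2.2 hgood).1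
    obtain ⟨n, _, hn, _⟩ := hGP1 F K E G o u (by rw [hm, map_zero]; rfl)
    exact ⟨n, hn⟩

end Pool.Agent.EV3
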