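import Pool.Agent.EV3.GStmts

set_option autoImplicit false

namespace Pool.Agent.EV3

open scoped BigOperators
open Pool.Agent.EWG (VV vm iu QD vm_surj vm_mul vm_one vm_eq_zero vm_eq_iff Good)
open Pool.Agent.EWH (Two BQ FX pf sy)
open Pool.Agent.ETG (EqQ LZ ZDec ZLoc ZFan Fac ND Indec Rig Zf Zh vmap vmap_vm)

theorem gp6_proof (hQFC : Stmt_QFC) (_hTYP : Stmt_TYP) (hNSO : Stmt_NSO) : Stmt_GP6 := by
  intro F K _ _ _ E G h5 o o' ho φ φ' hφ hφ' hc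
  have two_o : ∀ o, Two (G.Fo o) := fun o => Two.map (G.r o) G.two
  have key : ∀ (o : G.ι) (φ : VV (G.Fo o) →ₗ[ZMod 2] ZMod 2),
      Ordg (qf (G.Fo o)) (m1 (G.Fo o)) φ →
      FixAt E (G.C.p (G.jj o)) (G.r o) ∧ Ordf (G.Fo o) φ := by
    intro o φ hφ
    refine ⟨?_, ⟨hφ.neg, ?_⟩⟩
    · rcases G.typ o with h | h
      · exact h.2
      · exfalso
        have h1 := ((hQFC (G.Fo o) (two_o o)).2.2.2.2 h.2.1).1
        have h2 := hφ.neg
        rw [h1, map_zero] at h2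
        exact zero_ne_one h2
    · intro a b hab
      apply hφ.mul
      rw [(hQFC (G.Fo o) (two_o o)).1]
      unfold EWH.sy
      rw [EWH.cl_eq_zero]
      show pf a b ∈ _
      rw [hab]
      exact Ideal.zero_mem _
  obtain ⟨f1, o1⟩ := key o φ hφ
  obtain ⟨f2, o2⟩ := key o' φ' hφ'
  refine hNSO F K E G.two G.ex G.fin G.k G.C G.OS (G.jj o) (G.jj o') ?_ (G.Fo o) (G.Fo o')
    (G.r o) (G.r o') f1 f2 (h5 o) (h5 o') φ φ' o1 o2 hc
  intro h
  exact ho (G.jinj o o' (Or.inl h))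

end Pool.Agent.EV3
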