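import Pool.Agent.EV3.GStmts

/-!
# EV3 / GP8: the symbol of two norms is determined by its components
-/

set_option autoImplicit false

namespace Pool.Agent.EV3

open scoped BigOperators
open Pool.Agent.EWG (VV vm iu QD vm_surj vm_mul vm_one vm_eq_zero vm_eq_iff Good)
open Pool.Agent.EWH (Two BQ FX pf sy)
open Pool.Agent.ETG (EqQ LZ ZDec ZLoc ZFan Fac ND Indec Rig Zf Zh vmap vmap_vm)

namespace GP8_

theorem add_self {M : Type} [AddCommGroup M] [Module (ZMod 2) M] (m : M) : m + m = 0 := by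
  have h : ((1 : ZMod 2) + 1) • m = 0 := by
    have : (1 : ZMod 2) + 1 = 0 := by decide
    rw [this, zero_smul]
  rwa [add_smul, one_smul] at h

/-- `K = F(√-1)` contains a square root of `-1` -/
theorem good {F K : Type} [Field F] [Field K] [Algebra F K] (E : QD F K) (h2 : Two F)
    (hx : E.x = -1) : Good K := by
  refine ⟨Two.map (algebraMap F K) h2, (E.θ : K), ?_⟩
  rw [E.sq, hx]
  simp

section
variable {F K : Type} [Field F] [Field K] [Algebra F K] {E : QD F K}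

/-- an element supported at the component `j` with given image -/
theorem supp {L : Type} [Field L] {j : VV K →ₗ[ZMod 2] VV K} (hid : ∀ v, j (j v) = j v)
    (γ : VV K →ₗ[ZMod 2] VV L) (surj : ∀ w, ∃ v, γ v = w) (ker : ∀ v, γ v = 0 ↔ j v = 0)
    (u : VV L) : ∃ w, j w = w ∧ γ w = u := by
  obtain ⟨v, rfl⟩ := surj u
  refine ⟨j v, hid v, ?_⟩
  have h : γ (v + j v) = 0 := by
    rw [ker, map_add, hid]
    exact add_self _
  rw [map_add] at h
  calc γ (j v) = γ v + γ v + γ (j v) := by rw [add_self, zero_add]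
    _ = γ v := by rw [add_assoc, h, add_zero]

/-- the term of a fixed component -/
theorem fixed (_hQFC : Stmt_QFC) (hFXQ : Stmt_FXQ) (hEQL : Stmt_EQL) (hNRD : Stmt_NRD)
    (hCRR : Stmt_CRR) (G : GD F K E) (hRF : RF G) (w : VV K) (n' : VV F) (o : G.ι)
    (h : qf (G.Fo o) (G.ρ o (G.X.N w)) (G.ρ o n') = 0)
    (K' : Type) [Field K'] [Algebra (G.Fo o) K'] (E' : QD (G.Fo o) K') (X' : FX E')
    (γ : VV K →ₗ[ZMod 2] VV K')
    (hL : FixL G.X (G.C.p (G.jj o)) (G.ρ o) (G.β o) X' γ) :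
    G.X.cor (G.X.Q (G.C.p (G.jj o) w) (G.C.p (G.jj o) (G.X.res n'))) = 0 := by
  have h2o : Two (G.Fo o) := Two.map (G.r o) G.two
  obtain ⟨hq', hQ', -, -⟩ := hFXQ (G.Fo o) K' E' h2o X'
  obtain ⟨hq, hQ, -, -⟩ := hFXQ F K E G.two G.X
  have h1 : X'.cor (X'.Q (γ w) (X'.res (G.ρ o n'))) = 0 := by
    rw [X'.cor_Q, hL.N, hq']
    exact h
  obtain ⟨f, g, hfg⟩ := X'.alb _ _ h1
  have hid := G.C.idem (G.jj o)
  obtain ⟨w1, hw1, hg1⟩ := supp hid γ hL.surj hL.ker (X'.res f)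
  obtain ⟨w2, hw2, hg2⟩ := supp hid γ hL.surj hL.ker (X'.res g)
  have hGK : Good K := good E G.two G.ex
  have hGK' : Good K' := good E' h2o hL.ex
  have hiso : ∀ v w, qf K' (γ v) (γ w) = 0 ↔
      qf K (G.C.p (G.jj o) v) (G.C.p (G.jj o) w) = 0 := by
    intro v w
    have := hL.iso v w
    rwa [hQ', hQ] at this
  have he : qf K' (γ w) (γ (G.X.res n')) = qf K' (γ w1) (γ w2) := by
    rw [hL.res, hg1, hg2] at *
    rw [← hQ']
    exact hfg
  have hz := hEQL K K' hGK hGK' (G.C.p (G.jj o)) γ hL.surj hiso w (G.X.res n') w1 w2 he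
  rw [hQ, hz, hw1, hw2, ← hQ]
  refine hCRR F K E G.X w1 w2 ?_ ?_
  · intro v
    rw [hq]
    exact hNRD F K E G hRF o K' E' X' γ hL w1 f hw1 hg1 v
  · intro v
    rw [hq]
    exact hNRD F K E G hRF o K' E' X' γ hL w2 g hw2 hg2 v

/-- the two terms of a free orbit -/
theorem free (hKFC : Stmt_KFC) (G : GD F K E) (w : VV K) (n' : VV F) (o : G.ι)
    (h : qf (G.Fo o) (G.ρ o (G.X.N w)) (G.ρ o n') = 0)
    (γ : VV K →ₗ[ZMod 2] VV (G.Fo o))
    (hL : FreL G.X (G.C.p (G.jj o)) (G.ρ o) γ) :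
    G.X.cor (G.X.Q (G.C.p (G.jj o) w) (G.C.p (G.jj o) (G.X.res n'))) +
    G.X.cor (G.X.Q (G.C.p (G.τ (G.jj o)) w) (G.C.p (G.τ (G.jj o)) (G.X.res n'))) = 0 := by
  obtain ⟨-, -, -, -, hs, -, -⟩ := hKFC F K E G
  have h1 := hs (G.jj o) (G.X.σ w) (G.X.res n')
  rw [G.X.σ_σ, G.X.σ_res] at h1
  have h2 : G.X.Q (G.C.p (G.jj o) (G.X.res (G.X.N w)))
      (G.C.p (G.jj o) (G.X.res n')) = 0 := by
    rw [← hL.iso, ← hL.res, ← hL.res]
    exact h
  rw [h1, G.X.cor_sC, ← map_add, ← LinearMap.add_apply, ← map_add, ← map_add, ← G.X.res_N, h2,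
    map_zero]

end

end GP8_

open GP8_ in
theorem gp8_proof (hQFC : Stmt_QFC) (hFXQ : Stmt_FXQ) (hTYP : Stmt_TYP) (hKFC : Stmt_KFC)
    (hEQL : Stmt_EQL) (_hNSC : Stmt_NSC) (hNRD : Stmt_NRD) (hCRR : Stmt_CRR) : Stmt_GP8 := by
  intro F K _ _ _ E G hRF n n' hn hn' h
  obtain ⟨hq, hQ, -, -⟩ := hFXQ F K E G.two G.X
  have hx : (vm E.x : VV F) = m1 F := by rw [G.ex]
  obtain ⟨w, rfl⟩ := (G.X.im_N n).1 (by rw [hq, hx]; exact hn)
  have hsum := (hKFC F K E G).2.2.1 w (G.X.res n')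
  have hc := G.X.cor_Q w n'
  rw [hsum, map_sum] at hc
  rw [← hq, ← hc]
  -- the orbits
  have hfix : ∀ j, G.τ j = j →
      G.X.cor (G.X.Q (G.C.p j w) (G.C.p j (G.X.res n'))) = 0 := by
    intro j hj
    obtain ⟨o, ho⟩ := G.jsur j
    have hjo : j = G.jj o := by
      rcases ho with ho | ho
      · exact ho
      · rw [ho, G.ττ] at hj
        rw [ho, ← hj]
    subst hjo
    rcases hTYP F K E G o with ⟨-, K', _, _, E', X', γ, hL⟩ | ⟨hne, -⟩
    · exact fixed hQFC hFXQ hEQL hNRD hCRR G hRF w n' o (h o) K' E' X' γ hL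
    · exact absurd hj hne
  have hfree : ∀ o, G.τ (G.jj o) ≠ G.jj o →
      G.X.cor (G.X.Q (G.C.p (G.jj o) w) (G.C.p (G.jj o) (G.X.res n'))) +
      G.X.cor (G.X.Q (G.C.p (G.τ (G.jj o)) w) (G.C.p (G.τ (G.jj o)) (G.X.res n'))) = 0 := by
    intro o ho
    rcases hTYP F K E G o with ⟨he, -⟩ | ⟨-, -, γ, hL⟩
    · exact absurd he ho
    · exact free hKFC G w n' o (h o) γ hL
  refine Finset.sum_involution (fun j _ => G.τ j) ?_ ?_ ?_ ?_
  · intro j _
    by_cases hj : G.τ j = j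
    · show _ + G.X.cor (G.X.Q (G.C.p (G.τ j) w) (G.C.p (G.τ j) (G.X.res n'))) = 0
      rw [hj, hfix j hj, add_zero]
    · obtain ⟨o, ho⟩ := G.jsur j
      rcases ho with ho | ho
      · subst ho
        exact hfree o hj
      · have hj' : G.τ j = G.jj o := by rw [ho, G.ττ]
        show G.X.cor (G.X.Q (G.C.p j w) (G.C.p j (G.X.res n'))) +
          G.X.cor (G.X.Q (G.C.p (G.τ j) w) (G.C.p (G.τ j) (G.X.res n'))) = 0
        rw [hj', ho, add_comm]
        exact hfree o (fun he => hj (by rw [hj', ho, he]))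
  · intro j _ hne hj
    exact hne (hfix j hj)
  · intro j _
    exact Finset.mem_univ _
  · intro j _
    exact G.ττ j

end Pool.Agent.EV3
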