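import Pool.Agent.EV3.GStmts

/-!
Module GPD of squad EV3: the product statement, if the localisation is onto.
-/

set_option autoImplicit false

namespace Pool.Agent.EV3

open scoped BigOperators
open Pool.Agent.EWG (VV vm iu QD vm_surj vm_mul vm_one vm_eq_zero vm_eq_iff Good)
open Pool.Agent.EWH (Two BQ FX pf sy)
open Pool.Agent.ETG (EqQ LZ ZDec ZLoc ZFan Fac ND Indec Rig Zf Zh vmap vmap_vm)

namespace GPD_

lemma add_self {M : Type} [AddCommGroup M] [Module (ZMod 2) M] (x : M) : x + x = 0 := by
  have h : (2 : ZMod 2) • x = x + x := two_smul (ZMod 2) x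
  have h2 : (2 : ZMod 2) = 0 := by decide
  rw [← h, h2, zero_smul]

lemma zmod2 (a : ZMod 2) : a = 0 ∨ a = 1 := by
  fin_cases a
  · exact Or.inl rfl
  · exact Or.inr rfl

end GPD_

open GPD_ in
theorem gpd_proof (hGIS : Stmt_GIS) (hGAT : Stmt_GAT) : Stmt_GPD := by
  intro ι V B _ _ _ _ _ _ _ Vo Bo _ _ _ _ G hP8 hsurj
  obtain ⟨κ, χ, r, hr0, hχe, hre, hrv, hχr, hx0⟩ := hGAT ι V B Vo Bo G
  have hX0 : ∀ (c : Fin κ → ZMod 2) o, G.ρ o (∑ i, c i • r i) = 0 := by
    intro c o
    rw [map_sum]
    refine Finset.sum_eq_zero fun i _ => ?_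
    rw [map_smul, hr0, smul_zero]
  have hχs : ∀ (c : Fin κ → ZMod 2) i, χ i (∑ j, c j • r j) = c i := by
    intro c i
    rw [map_sum]
    rw [Finset.sum_eq_single i]
    · rw [map_smul, hχr, if_pos rfl, smul_eq_mul, mul_one]
    · intro j _ hj
      rw [map_smul, hχr, if_neg (Ne.symm hj), smul_zero]
    · intro h
      exact absurd (Finset.mem_univ i) h
  have hqr : ∀ (c : Fin κ → ZMod 2) v, G.q (∑ i, c i • r i) v = ∑ i, (c i * χ i v) • G.q G.e (r i) := by
    intro c v
    rw [map_sum, LinearMap.sum_apply]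
    refine Finset.sum_congr rfl fun i _ => ?_
    rw [map_smul, LinearMap.smul_apply, hrv, smul_smul]
  have hadd : ∀ x y z w, G.q (x + y) (z + w) = G.q x z + G.q y z + (G.q x w + G.q y w) := by
    intro x y z w
    have h1 : G.q (x + y) = G.q x + G.q y := map_add _ _ _
    rw [h1, map_add, LinearMap.add_apply, LinearMap.add_apply]
  refine ⟨κ, χ, hχe, ?_, ?_⟩
  · intro c u
    obtain ⟨v0, hv0⟩ := hsurj u
    refine ⟨v0 + ∑ i, (c i + χ i v0) • r i, ?_, ?_⟩
    · intro i
      rw [map_add, hχs, add_comm (c i), ← add_assoc, add_self, zero_add]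
    · intro o
      rw [map_add, hX0, add_zero, hv0]
  · intro a b
    constructor
    · intro hab
      constructor
      · intro i
        rcases zmod2 (χ i a) with ha | ha
        · rw [ha, zero_mul]
        rcases zmod2 (χ i b) with hb | hb
        · rw [hb, mul_zero]
        exfalso
        refine hre i (hGIS ι V B Vo Bo G hP8 (r i) (a + r i) (b + r i) (hr0 i) ?_ ?_)
        · rw [hrv, map_add, ha, hχr, if_pos rfl, add_self, zero_smul]
        · have h1 : G.q a (r i) = G.q G.e (r i) := by
            rw [G.lq.symm a (r i), hrv, ha, one_smul]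
          have h2 : G.q (r i) b = G.q G.e (r i) := by
            rw [hrv, hb, one_smul]
          have h3 : G.q (r i) (r i) = G.q G.e (r i) := by
            rw [hrv, hχr, if_pos rfl, one_smul]
          rw [hadd, hab, h1, h2, h3, zero_add, add_self, add_zero]
      · intro o
        rw [← G.comp, hab, map_zero]
    · rintro ⟨hχab, hq⟩
      -- `q a b = q e s` with `s` in `X0`
      obtain ⟨s, hs⟩ := G.P2 a b 0 0 (fun o => ⟨0, by rw [hq o, map_zero, map_zero, map_zero, add_zero]⟩)
      rw [map_zero, add_zero] at hs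
      have h1 : ∀ o, G.qo o (G.ρ o G.e) (G.ρ o s) = 0 := by
        intro o
        rw [← G.comp, ← hs, G.comp, hq]
      choose n hn1 hn2 hn3 using fun o => G.P1 o (G.ρ o s) (h1 o)
      have hs0 : ∀ o, G.ρ o (s + ∑ o', n o') = 0 := by
        intro o
        rw [map_add, map_sum, Finset.sum_eq_single o]
        · rw [hn2, add_self]
        · intro o' _ ho'
          exact hn3 o' o (Ne.symm ho')
        · intro h
          exact absurd (Finset.mem_univ o) h
      have hs1 : G.q a b = G.q G.e (s + ∑ o', n o') := by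
        rw [hs, map_add, map_sum, Finset.sum_eq_zero fun o _ => hn1 o, add_zero]
      generalize s + ∑ o', n o' = s' at hs0 hs1
      have hs2 : G.q a b = G.q G.e (∑ i, χ i s' • r i) := by
        rw [hs1, hx0 s' hs0, map_sum]
        refine Finset.sum_congr rfl fun i _ => ?_
        rw [map_smul]
      have key := hGIS ι V B Vo Bo G hP8 (∑ i, χ i s' • r i) (a + ∑ i, χ i a • r i)
        (b + ∑ i, χ i b • r i) (hX0 _) ?_ ?_
      · rw [hs2, key]
      · rw [hqr]
        refine Finset.sum_eq_zero fun i _ => ?_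
        rw [map_add, hχs, add_self, mul_zero, zero_smul]
      · rw [← hs2, hadd]
        have h2 : G.q a (∑ i, χ i b • r i) = 0 := by
          rw [G.lq.symm, hqr]
          refine Finset.sum_eq_zero fun i _ => ?_
          rw [mul_comm, hχab, zero_smul]
        have h3 : G.q (∑ i, χ i a • r i) b = 0 := by
          rw [hqr]
          refine Finset.sum_eq_zero fun i _ => ?_
          rw [hχab, zero_smul]
        have h4 : G.q (∑ i, χ i a • r i) (∑ i, χ i b • r i) = 0 := by
          rw [hqr]
          refine Finset.sum_eq_zero fun i _ => ?_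
          rw [hχs, hχab, zero_smul]
        rw [h2, h3, h4, add_zero, add_zero, add_zero]

end Pool.Agent.EV3
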