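import Pool.Agent.EV3.GStmts

/-!
# EV3, module GRA: norms with all components zero are in the radical
-/

set_option autoImplicit false

namespace Pool.Agent.EV3

open scoped BigOperators
open Pool.Agent.EWG (VV vm iu QD vm_surj vm_mul vm_one vm_eq_zero vm_eq_iff Good)
open Pool.Agent.EWH (Two BQ FX pf sy)
open Pool.Agent.ETG (EqQ LZ ZDec ZLoc ZFan Fac ND Indec Rig Zf Zh vmap vmap_vm)

theorem gra_proof (hGER : Stmt_GER) : Stmt_GRA := by
  intro ι V B _ _ _ _ _ _ Vo Bo _ _ _ _ G r hr hN v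
  have hG := hGER ι V B Vo Bo G
  obtain ⟨x, hx, h1, h2⟩ := hG r hr v
  have hrx : ∀ o, G.ρ o (r + x) = 0 := fun o => by rw [map_add, hr, hx, add_zero]
  obtain ⟨y, hy, h3, h4⟩ := hG (r + x) hrx G.e
  have h5 : G.q G.e y = G.q G.e x := by
    rw [← h3, G.lq.symm, map_add, hN, zero_add]
  have h6 : G.q G.e (x + y) = 0 := by
    rw [map_add, h5]
    exact ZModModule.add_self _
  have h7 : G.q (r + x) (x + y) = 0 := G.P0 _ _ hrx h6
  have h8 : G.q (r + x) x = 0 := by
    rw [map_add, LinearMap.add_apply, h2, G.lq.self x, G.lq.symm x G.e]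
    exact ZModModule.add_self _
  rw [map_add, h8, zero_add, h4, h5] at h7
  rw [h1, h7]

end Pool.Agent.EV3
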