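import Pool.Agent.EV3.GStmts

set_option autoImplicit false

namespace Pool.Agent.EV3

open scoped BigOperators
open Pool.Agent.EWG (VV vm iu QD vm_surj vm_mul vm_one vm_eq_zero vm_eq_iff Good)
open Pool.Agent.EWH (Two BQ FX pf sy)
open Pool.Agent.ETG (EqQ LZ ZDec ZLoc ZFan Fac ND Indec Rig Zf Zh vmap vmap_vm)

theorem kfc_proof (hQFC : Stmt_QFC) (hFXQ : Stmt_FXQ) : Stmt_KFC := by
  intro F K _ _ _ E G
  have h2K : Two K := Two.map (algebraMap F K) G.two
  have gK : Good K := ⟨h2K, (E.θ : K), by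
    rw [E.sq, G.ex, Units.val_neg, Units.val_one, map_neg, map_one]⟩
  obtain ⟨-, hQ, -, -⟩ := hFXQ F K E G.two G.X
  obtain ⟨hm, hz, -, -⟩ := (hQFC K h2K).2.2.2.2 gK
  have add_self : ∀ {M : Type} [AddCommGroup M] [Module (ZMod 2) M] (v : M), v + v = 0 := by
    intro M _ _ v
    rw [← two_smul (ZMod 2) v, show (2 : ZMod 2) = 0 from rfl, zero_smul]
  have eq_of : ∀ {M : Type} [AddCommGroup M] [Module (ZMod 2) M] {v w : M}, v + w = 0 →
      v = w := by
    intro M _ _ v w h
    calc v = v + (w + w) := by rw [add_self w, add_zero]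
      _ = (v + w) + w := by rw [add_assoc]
      _ = w := by rw [h, zero_add]
  have hZ : ∀ v w, G.X.Q v w = 0 ↔ Zf K v w := by
    intro v w
    rw [hQ, hz]
  have hrad : ∀ v, (∀ j, G.C.p j v = 0) → ∀ w, G.X.Q v w = 0 := by
    intro v hv w
    rw [hZ]
    have h1 := G.C.rad v w
    rwa [Finset.sum_eq_zero (fun j _ => hv j), add_zero] at h1
  have hp2 : ∀ j v w, G.X.Q (G.C.p j v) w = G.X.Q (G.C.p j v) (G.C.p j w) := by
    intro j v w
    apply eq_of
    rw [← map_add, hZ]
    exact G.C.perp j v w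
  have horth : ∀ i j, i ≠ j → ∀ v w, G.X.Q (G.C.p i v) (G.C.p j w) = 0 := by
    intro i j hij v w
    rw [hp2, G.C.orth i j hij, map_zero]
  have hsum : ∀ v w, G.X.Q v w = ∑ j, G.X.Q (G.C.p j v) (G.C.p j w) := by
    intro v w
    have e1 : G.X.Q v w = G.X.Q (∑ j, G.C.p j v) w := by
      apply eq_of
      rw [← LinearMap.add_apply, ← map_add, hZ]
      exact G.C.rad v w
    rw [e1, map_sum, LinearMap.sum_apply]
    exact Finset.sum_congr rfl fun j _ => hp2 j v w
  have hσ : ∀ j v, ∀ w, G.X.Q (G.X.σ (G.C.p j v)) w = G.X.Q (G.C.p (G.τ j) (G.X.σ v)) w := by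
    intro j v w
    apply eq_of
    rw [← LinearMap.add_apply, ← map_add]
    apply hrad
    intro i
    rw [map_add]
    by_cases hi : i = G.τ j
    · subst hi
      rw [G.C.idem]
      rw [← map_add, ← map_add]
      apply (G.hτ j _).1
      rw [map_add, G.C.idem, add_self]
    · rw [G.C.orth i _ hi, add_zero]
      have h3 : G.C.p (G.τ i) (G.C.p j v) = 0 := by
        apply G.C.orth
        intro h
        exact hi (by rw [← h, G.ττ])
      have h4 := (G.hτ (G.τ i) _).1 h3
      rwa [G.ττ] at h4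
  refine ⟨hm, hZ, hsum, hp2, ?_, hrad, ?_⟩
  · intro j v w
    rw [G.X.sC_Q, hσ, G.X.Q_symm _ (G.X.σ (G.C.p j w)), hσ, G.X.Q_symm]
  · intro v w
    constructor
    · intro h j
      rw [hZ] at h ⊢
      exact G.C.ind v w h j
    · intro h
      rw [hsum]
      exact Finset.sum_eq_zero fun j _ => h j

end Pool.Agent.EV3
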