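import Pool.Agent.EV3.GStmts
import Pool.Agent.EVL.All

/-!
EV3 / LOC: `Stmt_LOC` from `EVL.loc_proof`.
-/

set_option autoImplicit false

namespace Pool.Agent.EV3

open Pool.Agent.EWG (VV vm iu QD)
open Pool.Agent.ETG (ZDec Zf vmap)

theorem loc_proof (hDSF : ETG.Stmt_DSF) (hTOW : ETG.Stmt_TOW) : Stmt_LOC := by
  intro F K _ _ _ E h2 hx hfin k C hC j hj
  obtain ⟨F', K', iF, iK, iA, E', f, g, h1, h3, h4, h5, h6, h7, h8, h9⟩ :=
    EVL.loc_proof hDSF hTOW F K E h2 hx hfin k C hC j hj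
  exact ⟨F', iF, f, h3, K', iK, iA, E', g, h1, h4, h5, h6, h7, h8, h9⟩

end Pool.Agent.EV3
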