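import Pool.Agent.EV3.GStmts

/-!
V3, GLUE, module NRD: an element of `K` supported at a fixed component whose component comes from
`Fo o` has its norm in the radical.
-/

set_option autoImplicit false

namespace Pool.Agent.EV3

open scoped BigOperators
open Pool.Agent.EWG (VV vm iu QD vm_surj vm_mul vm_one vm_eq_zero vm_eq_iff Good)
open Pool.Agent.EWH (Two BQ FX pf sy)
open Pool.Agent.ETG (EqQ LZ ZDec ZLoc ZFan Fac ND Indec Rig Zf Zh vmap vmap_vm)

theorem nrd_proof (hFXQ : Stmt_FXQ) (hNSC : Stmt_NSC) : Stmt_NRD := by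
  intro F K _ _ _ E G hR o K' _ _ E' X' γ hL w a hw ha v
  refine hR (G.X.N w) ?_ ?_ v
  · intro o'
    by_cases h : o' = o
    · subst h
      rw [← hL.N, ha]
      exact X'.N_res a
    · exact hNSC F K E G o w hw o' h
  · obtain ⟨hq, _, _, _⟩ := hFXQ F K E G.two G.X
    have hx : (vm E.x : VV F) = m1 F := by rw [G.ex]
    rw [← hx, ← hq]
    exact (G.X.im_N (G.X.N w)).2 ⟨w, rfl⟩

end Pool.Agent.EV3
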