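import Pool.Agent.EV3.GStmts

set_option autoImplicit false

namespace Pool.Agent.EV3

open scoped BigOperators
open Pool.Agent.EWG (VV vm iu QD vm_surj vm_mul vm_one vm_eq_zero vm_eq_iff Good)
open Pool.Agent.EWH (Two BQ FX pf sy)
open Pool.Agent.ETG (EqQ LZ ZDec ZLoc ZFan Fac ND Indec Rig Zf Zh vmap vmap_vm)

theorem nsc_proof (_hQFC : Stmt_QFC) (_hFXQ : Stmt_FXQ) (hTYP : Stmt_TYP)
    (_hKFC : Stmt_KFC) : Stmt_NSC := by
  intro F K _ _ _ E G o w hw o' ho'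
  have h1 : G.jj o' ≠ G.jj o := fun h => ho' (G.jinj o' o (Or.inl h))
  have h2 : G.τ (G.jj o') ≠ G.jj o := fun h => ho' (by
    have := G.jinj o o' (Or.inr h.symm)
    exact this.symm)
  have hp : ∀ i, i ≠ G.jj o → G.C.p i w = 0 := by
    intro i hi
    rw [← hw]
    exact G.C.orth i (G.jj o) hi w
  rcases hTYP F K E G o' with ⟨_, K', _, _, E', X', γ, L⟩ | ⟨_, _, γ, L⟩
  · rw [← L.N, (L.ker w).2 (hp _ h1), map_zero]
  · rw [L.res, G.X.res_N, map_add, (L.ker w).2 (hp _ h1), zero_add]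
    apply (L.ker _).2
    have h3 := (G.hτ (G.τ (G.jj o')) w).1 (hp _ h2)
    rwa [G.ττ] at h3

end Pool.Agent.EV3
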