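import Pool.Agent.EV3.GStmts
import Pool.Agent.ETG.RIG

/-! EV3, module ONA: a structure with a rigid element (abstract part of `ρ o` onto). -/

set_option autoImplicit false

namespace Pool.Agent.EV3

open scoped BigOperators
open Pool.Agent.EWG (VV vm iu QD vm_surj vm_mul vm_one vm_eq_zero vm_eq_iff Good)
open Pool.Agent.EWH (Two BQ FX pf sy)
open Pool.Agent.ETG (EqQ LZ ZDec ZLoc ZFan Fac ND Indec Rig Zf Zh vmap vmap_vm)

namespace ONA_

variable {L B : Type} [AddCommGroup L] [Module (ZMod 2) L] [AddCommGroup B] [Module (ZMod 2) B]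

theorem dd {M : Type} [AddCommGroup M] [Module (ZMod 2) M] (x : M) : x + x = 0 :=
  ZModModule.add_self x

theorem eq_of_add {M : Type} [AddCommGroup M] [Module (ZMod 2) M] {x y : M} (h : x + y = 0) :
    x = y := by
  linear_combination (norm := module) h - dd y

/-- `EqQ` of the relation of a linked symbol -/
theorem eqQ_iff {Q : L →ₗ[ZMod 2] L →ₗ[ZMod 2] B} {e : L} (h : LQ Q e) (a b c d : L) :
    EqQ (fun v w => Q v w = 0) a b c d ↔ Q a b = Q c d := by
  constructor
  · rintro ⟨x, h1, h2, h3⟩
    rw [map_add] at h1 h2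
    rw [map_add, LinearMap.add_apply] at h3
    rw [eq_of_add h1, eq_of_add h2, eq_of_add h3]
  · intro h1
    obtain ⟨y, h2, h3⟩ := h.link a b c d h1
    refine ⟨y, ?_, ?_, ?_⟩
    · show Q a (b + y) = 0
      rw [map_add, h2]
      exact dd _
    · show Q c (d + y) = 0
      rw [map_add, h3, ← h1]
      exact dd _
    · show Q (a + c) y = 0
      rw [map_add, LinearMap.add_apply, h2, h3]
      exact dd _

/-- the relation of a linked symbol with distinguished element `0` -/
theorem lz {Q : L →ₗ[ZMod 2] L →ₗ[ZMod 2] B} (h : LQ Q 0) : LZ (fun v w => Q v w = 0) where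
  symm a b hab := by rw [h.symm]; exact hab
  zero a := map_zero _
  add a b c h1 h2 := by rw [map_add, h1, h2, add_zero]
  alt a := by rw [h.self, map_zero]
  trans a b c d a' b' h1 h2 := by
    rw [eqQ_iff h] at h1 h2 ⊢
    rw [h1, h2]

open ETG.RIG_ in
/-- the elements which are not rigid form a subspace -/
theorem nonrig {Z : L → L → Prop} (h : LZ Z) : ∃ N : Submodule (ZMod 2) L,
    ∀ v, v ∈ N ↔ ¬ Rig Z v := by
  classical
  refine ⟨{ carrier := {v | ¬ Rig Z v}
            add_mem' := ?_
            zero_mem' := fun h0 => h0.1 rfl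
            smul_mem' := ?_ }, fun v => Iff.rfl⟩
  · intro v v' hv hv' hr
    have hv0 : v ≠ 0 := by
      intro h0
      apply hv'
      rwa [h0, zero_add] at hr
    have hvr : v ≠ v + v' := by
      intro h0
      have h1 : v' = 0 := by
        have := h0
        rwa [left_eq_add] at this
      apply hv
      rwa [h1, add_zero] at hr
    rcases stepc h hr hv0 hvr with h1 | h1
    · exact hv h1
    · apply hv'
      have h2 : v + (v + v') = v' := by linear_combination (norm := module) ONA_.dd v
      rwa [h2] at h1
  · intro c v hv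
    fin_cases c
    · intro h0
      apply h0.1
      exact zero_smul (ZMod 2) v
    · intro h0
      apply hv
      have h1 : (1 : ZMod 2) • v = v := one_smul _ v
      exact h1 ▸ h0

end ONA_

open ONA_ in
theorem ona_proof : Stmt_ONA := by
  intro L B _ _ _ _ _ Q hQ hND ht A A' hA'A h1 h2
  classical
  obtain ⟨t, ht0, ht⟩ := ht
  have hZ := lz hQ
  obtain ⟨N, hN⟩ := nonrig hZ
  have htR : Rig (fun v w => Q v w = 0) t := ⟨ht0, ht⟩
  have htN : t ∉ N := fun h => (hN t).1 h htR
  have hrig : ∀ v, v ∉ N → ∀ w, Q v w = 0 → w = 0 ∨ w = v := by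
    intro v hv w hw
    have h3 : Rig (fun v w => Q v w = 0) v := by
      by_contra h4
      exact hv ((hN v).2 h4)
    exact h3.2 w hw
  intro a ha
  by_cases hc : A' ≤ N
  · have hNA : ∀ y, y ∈ A' ∨ y + t ∈ A' := by
      intro y
      obtain ⟨a', ha', a'', ha'', h3⟩ := h2 t y
      have h4 : t + a' ∉ N := by
        intro h5
        apply htN
        have h6 := N.sub_mem h5 (hc ha')
        rwa [add_sub_cancel_right] at h6
      rcases hrig _ h4 _ h3 with h5 | h5
      · left
        rw [eq_of_add h5]
        exact ha''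
      · right
        have h6 : y + t = a' + a'' := by
          linear_combination (norm := module) h5 - dd a'' + dd t
        rw [h6]
        exact A'.add_mem ha' ha''
    have hNle : ∀ y ∈ N, y ∈ A' := by
      intro y hy
      rcases hNA y with h3 | h3
      · exact h3
      · exfalso
        apply htN
        have h6 := N.sub_mem (hc h3) hy
        rwa [add_sub_cancel_left] at h6
    by_contra haA
    have haN : a ∉ N := fun h => haA (hNle a h)
    by_cases hN0 : ∃ b ∈ N, b ≠ 0
    · obtain ⟨b, hb, hb0⟩ := hN0
      obtain ⟨a', ha', h3⟩ := h1 a ha b (hNle b hb)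
      have h4 : a + a' ∉ N := by
        intro h5
        apply haN
        have h6 := N.sub_mem h5 (hc ha')
        rwa [add_sub_cancel_right] at h6
      rw [hQ.symm] at h3
      rcases hrig _ h4 _ h3 with h5 | h5
      · exact hb0 h5
      · rw [h5] at hb
        exact h4 hb
    · push Not at hN0
      apply ht0
      apply hND
      intro w
      rcases hNA w with h3 | h3
      · rw [hN0 w (hc h3), map_zero]
      · have h4 := eq_of_add (hN0 _ (hc h3))
        rw [h4, hQ.self, map_zero]
  · obtain ⟨b, hb, hbN⟩ := Set.not_subset.1 hc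
    obtain ⟨a', ha', h3⟩ := h1 a ha b hb
    rcases hrig b hbN _ h3 with h4 | h4
    · rw [eq_of_add h4]
      exact ha'
    · have h5 : a = b + a' := by linear_combination (norm := module) h4 - dd a'
      rw [h5]
      exact A'.add_mem hb ha'

end Pool.Agent.EV3
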