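import Pool.Agent.EV3.GStmts

set_option autoImplicit false

namespace Pool.Agent.EV3

open scoped BigOperators
open Pool.Agent.EWG (VV vm iu QD vm_surj vm_mul vm_one vm_eq_zero vm_eq_iff Good)
open Pool.Agent.EWH (Two BQ FX pf sy)
open Pool.Agent.ETG (EqQ LZ ZDec ZLoc ZFan Fac ND Indec Rig Zf Zh vmap vmap_vm)

namespace ONB_

section
variable {L B : Type} [AddCommGroup L] [Module (ZMod 2) L] [AddCommGroup B] [Module (ZMod 2) B]

theorem add_self2 {M : Type} [AddCommGroup M] [Module (ZMod 2) M] (x : M) : x + x = 0 := by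
  have h : (2 : ZMod 2) • x = 0 := by
    have : (2 : ZMod 2) = 0 := by decide
    rw [this, zero_smul]
  rwa [two_smul] at h

theorem eq_of_add {M : Type} [AddCommGroup M] [Module (ZMod 2) M] {x y : M} (h : x + y = 0) :
    x = y := by
  have h1 : x + y + y = y := by rw [h, zero_add]
  rwa [add_assoc, add_self2, add_zero] at h1

theorem zmod2 (a : ZMod 2) : a = 0 ∨ a = 1 := by
  revert a; decide

variable (Q : L →ₗ[ZMod 2] L →ₗ[ZMod 2] B)
  (h3 : ∀ v w w', Q v w = 0 ∨ Q v w' = 0 ∨ Q v (w + w') = 0)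

include h3 in
theorem one_val {v w w' : L} (h : Q v w ≠ 0) (h' : Q v w' ≠ 0) : Q v w = Q v w' := by
  rcases h3 v w w' with h1 | h1 | h1
  · exact absurd h1 h
  · exact absurd h1 h'
  · rw [map_add] at h1
    exact eq_of_add h1

include h3 in
theorem val (hs : ∀ v w, Q v w = Q w v) {v w v' w' : L} (h : Q v w ≠ 0) (h' : Q v' w' ≠ 0) :
    Q v w = Q v' w' := by
  have hu : ∃ u, Q v u ≠ 0 ∧ Q v' u ≠ 0 := by
    by_cases h1 : Q v w' = 0
    · by_cases h2 : Q v' w = 0
      · refine ⟨w + w', ?_, ?_⟩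
        · rw [map_add, h1, add_zero]; exact h
        · rw [map_add, h2, zero_add]; exact h'
      · exact ⟨w, h, h2⟩
    · exact ⟨w', h1, h'⟩
  obtain ⟨u, u1, u2⟩ := hu
  rw [one_val Q h3 h u1, one_val Q h3 h' u2, hs v u, hs v' u]
  refine one_val Q h3 ?_ ?_
  · rw [hs]; exact u1
  · rw [hs]; exact u2

end

theorem onb_proof : Stmt_ONB := by
  intro L B _ _ _ _ _ Q lq nd h3
  have hv := fun v w v' w' => val Q h3 lq.symm (v := v) (w := w) (v' := v') (w' := w')
  have hdo : ∀ A' : Submodule (ZMod 2) L, ∀ x, (∀ m, (∀ a ∈ A', Q a m = 0) → Q x m = 0) →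
      x ∈ A' := by
    intro A' x hx
    by_contra hxA
    have hx0 : x ≠ 0 := fun h => hxA (h ▸ A'.zero_mem)
    obtain ⟨w0, hw0⟩ : ∃ w, Q x w ≠ 0 := by
      by_contra hne
      push Not at hne
      exact hx0 (nd x hne)
    obtain ⟨φ, hφ⟩ := Module.Projective.exists_dual_ne_zero (ZMod 2) hw0
    let f : L →ₗ[ZMod 2] Module.Dual (ZMod 2) L := Q.compr₂ φ
    have hf : ∀ v w, f v w = φ (Q v w) := fun v w => rfl
    have hf0 : ∀ v w, f v w = 0 → Q v w = 0 := by
      intro v w h
      by_contra hne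
      rw [hf, hv v w x w0 hne hw0] at h
      exact hφ h
    have hinj : Function.Injective f := by
      rw [← LinearMap.ker_eq_bot, LinearMap.ker_eq_bot']
      intro m hm
      refine nd m fun w => hf0 m w ?_
      rw [hm]; rfl
    haveI : Module.Finite (ZMod 2) L := Module.Finite.of_finite
    have hsurj : Function.Surjective f :=
      (LinearMap.injective_iff_surjective_of_finrank_eq_finrank
        (Subspace.dual_finrank_eq (K := ZMod 2) (V := L)).symm).1 hinj
    obtain ⟨g, hg, hgA⟩ := Submodule.exists_dual_map_eq_bot_of_notMem hxA inferInstance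
    obtain ⟨m, hm⟩ := hsurj g
    have h1 : Q x m = 0 := by
      refine hx m fun a ha => ?_
      rw [lq.symm]
      refine hf0 m a ?_
      rw [hm]
      have : g a ∈ Submodule.map g A' := Submodule.mem_map_of_mem ha
      rw [hgA] at this
      exact (Submodule.mem_bot _).1 this
    apply hg
    rw [← hm, hf, lq.symm, h1, map_zero]
  refine ⟨hv, hdo, ?_⟩
  intro A A' hA hA' a ha
  refine hdo A' a fun m hm => ?_
  exact hA' a m (fun b hb => hA a ha b hb) (fun b hb => by rw [lq.symm]; exact hm b hb)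

end ONB_

theorem onb_proof : Stmt_ONB := ONB_.onb_proof

end Pool.Agent.EV3
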