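import Pool.Agent.EV3.GStmts

/-!
ONC: fixed localisations have only one component.
-/

set_option autoImplicit false

namespace Pool.Agent.EV3

open scoped BigOperators
open Pool.Agent.EWG (VV vm iu QD vm_surj vm_mul vm_one vm_eq_zero vm_eq_iff Good)
open Pool.Agent.EWH (Two BQ FX pf sy)
open Pool.Agent.ETG (EqQ LZ ZDec ZLoc ZFan Fac ND Indec Rig Zf Zh vmap vmap_vm)

namespace ONC_

theorem two_of {F L : Type} [Field F] [Field L] (f : F →+* L) (h : Two F) : Two L := by
  intro h2
  apply h
  apply f.injective
  rw [map_ofNat, map_zero]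
  exact h2

end ONC_

theorem onc_proof : Stmt_ONC := by
  intro F K _ _ _ E G o hτ
  rcases G.typ o with ⟨-, hfin, K', iK', aK', E', g, hE', -, -, -, hsurj, hker, hiso⟩ | ⟨h, -⟩
  swap
  · exact absurd hτ h
  have hfK : Finite (VV K) := EWH.q_fin F G.two G.fin K E
  refine ⟨ONC_.two_of (G.r o) G.two, ?_, hfin, K', iK', aK', E', hE', ?_, ?_, ?_⟩
  · intro h
    apply E'.ns
    rw [hE']
    obtain ⟨i, hi⟩ := h
    have hi0 : i ≠ 0 := by
      rintro rfl
      rw [mul_zero, neg_eq_zero] at hi
      exact one_ne_zero hi
    exact ⟨Units.mk0 i hi0, Units.ext (by simpa using hi)⟩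
  · exact Finite.of_surjective _ hsurj
  · intro w hw
    obtain ⟨v, rfl⟩ := hsurj w
    rw [hker]
    exact G.C.nd _ _ fun w' => (hiso v w').1 (hw _)
  · rcases G.OS (G.jj o) with h | ⟨t, ht, ht0, h⟩
    · left
      intro v w w'
      obtain ⟨v, rfl⟩ := hsurj v
      obtain ⟨w, rfl⟩ := hsurj w
      obtain ⟨w', rfl⟩ := hsurj w'
      rw [LinearMap.id_apply, hiso, hiso, ← map_add, hiso, map_add]
      exact h v _ _
    · right
      refine ⟨vmap g t, ?_, fun v hv => ?_⟩
      · rw [Ne, hker, ht]
        exact ht0
      · obtain ⟨v, rfl⟩ := hsurj v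
        rw [hiso, ht] at hv
        rcases h v hv with h1 | h1
        · left
          rw [hker]
          exact h1
        · right
          have h2 : vmap g (v + t) = 0 := by
            rw [hker, map_add, h1, ht]
            exact ZModModule.add_self t
          rw [map_add] at h2
          have h3 : vmap g v = vmap g v + vmap g t + vmap g t := by
            rw [add_assoc, ZModModule.add_self, add_zero]
          rw [h3, h2, zero_add]

end Pool.Agent.EV3
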