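import Pool.Agent.EV3.RGI
import Pool.Agent.DQX.ZLC

/-!
EV3: ONE COMPONENT.  If the structure of `F(√-1)` is nondegenerate and local or has a rigid
element, then the structure of `F` is of elementary type.
-/

set_option autoImplicit false

namespace Pool.Agent.EV3

open Pool.Agent.EWG (VV vm iu QD vm_surj vm_mul vm_one vm_eq_zero vm_eq_iff vm_add_self iu_coe)
open Pool.Agent.EWH (Two pf)
open Pool.Agent.ETG (EqQ InQ LZe LZ ND Rig ZLoc ETE Zh Zf vmap vmap_vm vmap_id vmap_comp rv)
open RGE_

namespace ONE_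

section
variable {F K : Type} [Field F] [Field K] [Algebra F K]

theorem bdbl {F : Type} [Field F] (b : EWH.BQ F) : b + b = 0 := EWH.bq_add_self b

theorem beq {F : Type} [Field F] {b c : EWH.BQ F} (h : b + c = 0) : b = c := by
  calc b = b + (c + c) := by rw [bdbl, add_zero]
    _ = (b + c) + c := (add_assoc _ _ _).symm
    _ = c := by rw [h, zero_add]

theorem eqq_iff (hF : Two F) {E : QD F K} (X : EWH.FX E) (a b c d : VV F) :
    EqQ (Zh F) a b c d ↔ X.q a b = X.q c d := by
  constructor
  · rintro ⟨y, h1, h2, h3⟩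
    rw [← q_iff hF X, map_add] at h1 h2
    rw [← q_iff hF X, map_add, LinearMap.add_apply] at h3
    rw [beq h1, beq h2, beq h3]
  · intro h1
    obtain ⟨y, hy1, hy2⟩ := X.q_link a b c d h1
    refine ⟨y, ?_, ?_, ?_⟩
    · rw [← q_iff hF X, map_add, hy1, bdbl]
    · rw [← q_iff hF X, map_add, hy2, h1, bdbl]
    · rw [← q_iff hF X, map_add, LinearMap.add_apply, hy1, hy2, bdbl]

theorem eqQ_iff (hF : Two F) {E : QD F K} (X : EWH.FX E) (a b c d : VV K) :
    EqQ (Zh K) a b c d ↔ X.Q a b = X.Q c d := by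
  constructor
  · rintro ⟨y, h1, h2, h3⟩
    rw [← Q_iff hF X, map_add] at h1 h2
    rw [← Q_iff hF X, map_add, LinearMap.add_apply] at h3
    rw [beq h1, beq h2, beq h3]
  · intro h1
    obtain ⟨y, hy1, hy2⟩ := X.Q_link a b c d h1
    refine ⟨y, ?_, ?_, ?_⟩
    · rw [← Q_iff hF X, map_add, hy1, bdbl]
    · rw [← Q_iff hF X, map_add, hy2, h1, bdbl]
    · rw [← Q_iff hF X, map_add, LinearMap.add_apply, hy1, hy2, bdbl]

/-- few sums of two squares -/
theorem few_of {V : Type} [AddCommGroup V] [Module (ZMod 2) V] [Finite V] {Z : V → V → Prop}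
    {e : V} (a : V) (h : ∀ v, Z e v → v = 0 ∨ v = a) : ETE Z e := by
  classical
  apply few
  have h1 : Nat.card {v // Z e v} ≤ Nat.card (({0, a} : Finset V) : Set V) := by
    apply Nat.card_le_card_of_injective
      (fun v : {v // Z e v} => (⟨v.1, by
        rcases h v.1 v.2 with h1 | h1
        · simp [h1]
        · simp [h1]⟩ : (({0, a} : Finset V) : Set V)))
    intro v w hvw
    exact Subtype.ext (congrArg (fun z : (({0, a} : Finset V) : Set V) => (z : V)) hvw)
  refine h1.trans ?_
  rw [Nat.card_coe_set_eq, Set.ncard_coe_finset]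
  exact Finset.card_le_two

/-- elements of a one-dimensional space -/
theorem one_dim {B : Type} [AddCommGroup B] [Module (ZMod 2) B] (h : Module.finrank (ZMod 2) B = 1)
    (a b : B) (ha : a ≠ 0) (hb : b ≠ 0) : a = b := by
  obtain ⟨v, -, hv⟩ := finrank_eq_one_iff'.1 h
  have hz2 : ∀ e : ZMod 2, e = 0 ∨ e = 1 := by decide
  obtain ⟨c, rfl⟩ := hv a
  obtain ⟨d, rfl⟩ := hv b
  rcases hz2 c with rfl | rfl
  · exact absurd (zero_smul _ _) ha
  · rcases hz2 d with rfl | rfl
    · exact absurd (zero_smul _ _) hb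
    · rfl

/-- the situation: `K = F(√-1)`, `K` nondegenerate -/
structure Sit (F K : Type) [Field F] [Field K] [Algebra F K] (E : QD F K) (X : EWH.FX E) :
    Prop where
  two : Two F
  ex : vm E.x = neg1 F
  e0 : neg1 F ≠ 0
  fin : Finite (VV F)
  finK : Finite (VV K)
  nd : ∀ w, (∀ y, X.Q w y = 0) → w = 0

variable {E : QD F K} {X : EWH.FX E} (S : Sit F K E X)

include S

theorem ker_res (v : VV F) : X.res v = 0 ↔ v = 0 ∨ v = neg1 F := by
  rw [X.ker_res, S.ex]

theorem res_e : X.res (neg1 F) = 0 := (ker_res S _).2 (Or.inr rfl)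

theorem Q_self (w : VV K) : X.Q w w = 0 := by
  rw [X.Q_self]
  have h := res_e S
  rw [res_neg1 X] at h
  unfold neg1 at h
  rw [h, map_zero]

omit S in
theorem q_self (v : VV F) : X.q v v = X.q v (neg1 F) := X.q_self v

theorem im_N (v : VV F) : X.q (neg1 F) v = 0 ↔ ∃ w, X.N w = v := by
  rw [← S.ex]; exact X.im_N v

theorem F3 (v u : VV F) : X.Q (X.res v) (X.res u) = 0 ↔ ∃ z, X.q v u = X.q (neg1 F) z := by
  rw [← S.ex]; exact X.F3 v u

/-- the radical of `F` -/
theorem rad (r : VV F) (h : ∀ v, X.q r v = 0) : X.res r = 0 := by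
  apply S.nd
  intro z
  obtain ⟨f, hf⟩ := X.F4 r z (h _)
  rw [map_add, ← X.rb_q, h, map_zero, add_zero] at hf
  exact hf

theorem lnk : CommonSlot.IsLinked X.Q 0 :=
  ⟨X.Q_symm, fun w => by rw [Q_self S, map_zero], X.Q_link⟩

/-! ### local type -/

/-- `cor β = 0` -/
theorem loc0 (β : EWH.BQ K) (hβ : ∀ w y, X.Q w y = 0 ∨ X.Q w y = β) (hc : X.cor β = 0) :
    ETE (Zh F) (neg1 F) := by
  have := S.fin
  apply few_of (neg1 F)
  intro v hv
  rw [← q_iff S.two X, im_N S] at hv
  obtain ⟨w, rfl⟩ := hv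
  rw [← ker_res S]
  apply rad S
  intro v
  rw [← X.cor_Q]
  rcases hβ w (X.res v) with h | h
  · rw [h, map_zero]
  · rw [h, hc]

/-- `cor β ≠ 0` -/
theorem loc1 (β : EWH.BQ K) (hβ0 : β ≠ 0) (hβ : ∀ w y, X.Q w y = 0 ∨ X.Q w y = β)
    (hex : ∃ w y, X.Q w y = β) (hc : X.cor β ≠ 0) : ETE (Zh F) (neg1 F) := by
  have := S.fin
  have := S.finK
  have hLZ := (zhl F S.two).1
  -- `A` is isotropic
  have hA : ∀ u v, X.Q (X.res u) (X.res v) = 0 := by
    intro u v
    rcases hβ (X.res u) (X.res v) with h | h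
    · exact h
    · exfalso
      apply hc
      rw [← h, ← X.rb_q, X.cor_rb]
  have hq : ∀ u v, ∃ z, X.q u v = X.q (neg1 F) z := fun u v => (F3 S u v).1 (hA u v)
  -- `e` is not in the radical
  have he : ¬ ∀ v, X.q (neg1 F) v = 0 := by
    intro h
    have h1 : ∀ v, X.res v = 0 := by
      intro v
      apply rad S
      intro u
      obtain ⟨z, hz⟩ := hq v u
      rw [hz, h]
    obtain ⟨w, y, hwy⟩ := hex
    have h2 : ∀ w, X.N w = 0 → w = 0 := by
      intro w hw
      obtain ⟨v, rfl⟩ := (X.ker_N w).1 hw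
      exact h1 v
    have h3 : ∀ v, v = 0 ∨ v = neg1 F := fun v => (ker_res S v).1 (h1 v)
    apply hβ0
    rw [← hwy]
    rcases h3 (X.N w) with h4 | h4
    · rw [h2 w h4, map_zero, LinearMap.zero_apply]
    · rcases h3 (X.N y) with h5 | h5
      · rw [h2 y h5, map_zero]
      · have h6 : w + y = 0 := by
          apply h2
          rw [map_add, h4, h5, dbl]
        rw [eq_of h6, Q_self S]
  have hrad : ∀ r, (∀ v, X.q r v = 0) → r = 0 := by
    intro r hr
    rcases (ker_res S r).1 (rad S r hr) with h | h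
    · exact h
    · exfalso
      apply he
      rw [← h]
      exact hr
  -- the bilinear form
  obtain ⟨g, hg⟩ : ∃ g : EWH.BQ K →ₗ[ZMod 2] ZMod 2, g β ≠ 0 := by
    by_contra hcon
    push Not at hcon
    exact hβ0 ((Module.forall_dual_apply_eq_zero_iff (ZMod 2) β).1 hcon)
  let b : LinearMap.BilinForm (ZMod 2) (VV K) := X.Q.compr₂ g
  have hb : ∀ w y, b w y = g (X.Q w y) := fun w y => rfl
  have hb0 : ∀ w y, b w y = 0 ↔ X.Q w y = 0 := by
    intro w y
    rw [hb]
    constructor
    · intro h
      rcases hβ w y with h1 | h1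
      · exact h1
      · rw [h1] at h
        exact absurd h hg
    · intro h
      rw [h, map_zero]
  have hfd : FiniteDimensional (ZMod 2) (VV K) := Module.Finite.of_finite
  have hfd' : FiniteDimensional (ZMod 2) (VV F) := Module.Finite.of_finite
  have hrefl : b.IsRefl := by
    intro w y h
    rw [hb0] at h ⊢
    rw [X.Q_symm]
    exact h
  have hnd : b.Nondegenerate := by
    constructor
    · intro w hw
      apply S.nd
      intro y
      exact (hb0 w y).1 (hw y)
    · intro w hw
      apply S.nd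
      intro y
      rw [X.Q_symm]
      exact (hb0 y w).1 (hw y)
  let A : Submodule (ZMod 2) (VV K) := LinearMap.range X.res
  have horth : b.orthogonal A = A := by
    ext w
    rw [LinearMap.BilinForm.mem_orthogonal_iff]
    constructor
    · intro h
      have h1 : X.N w = 0 := by
        apply hrad
        intro v
        rw [← X.cor_Q, X.Q_symm]
        have h2 := h (X.res v) ⟨v, rfl⟩
        have h3 : X.Q (X.res v) w = 0 := (hb0 _ _).1 h2
        rw [h3, map_zero]
      obtain ⟨v, hv⟩ := (X.ker_N w).1 h1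
      exact ⟨v, hv⟩
    · rintro ⟨v, rfl⟩ _ ⟨u, rfl⟩
      exact (hb0 _ _).2 (hA u v)
  have hdim1 := LinearMap.BilinForm.finrank_orthogonal hnd A
  rw [horth] at hdim1
  have hAle : Module.finrank (ZMod 2) A ≤ Module.finrank (ZMod 2) (VV K) :=
    Submodule.finrank_le A
  -- the kernel of `res`
  have hk : Module.finrank (ZMod 2) (LinearMap.ker X.res) = 1 := by
    rw [finrank_eq_one_iff']
    refine ⟨⟨neg1 F, res_e S⟩, ?_, ?_⟩
    · intro h
      exact S.e0 (congrArg Subtype.val h)
    · rintro ⟨v, hv⟩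
      rcases (ker_res S v).1 hv with rfl | rfl
      · exact ⟨0, Subtype.ext (zero_smul _ _)⟩
      · exact ⟨1, Subtype.ext (one_smul _ _)⟩
  have h1 := LinearMap.finrank_range_add_finrank_ker X.res
  have h2 := LinearMap.finrank_range_add_finrank_ker X.N
  have h3 := LinearMap.finrank_range_add_finrank_ker (X.q (neg1 F))
  have h4 : LinearMap.ker X.N = A := by
    ext w
    rw [LinearMap.mem_ker, X.ker_N]
    exact Iff.rfl
  have h5 : LinearMap.ker (X.q (neg1 F)) = LinearMap.range X.N := by
    ext v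
    rw [LinearMap.mem_ker, im_N S]
    exact Iff.rfl
  rw [h4] at h2
  rw [h5] at h3
  have h6 : Module.finrank (ZMod 2) (LinearMap.range (X.q (neg1 F))) = 1 := by
    change Module.finrank (ZMod 2) A + _ = _ at h1
    omega
  have h7 : ∀ z z', X.q (neg1 F) z ≠ 0 → X.q (neg1 F) z' ≠ 0 →
      X.q (neg1 F) z = X.q (neg1 F) z' := by
    intro z z' hz hz'
    have h8 := one_dim h6 ⟨X.q (neg1 F) z, z, rfl⟩ ⟨X.q (neg1 F) z', z', rfl⟩
      (fun h => hz (congrArg Subtype.val h)) (fun h => hz' (congrArg Subtype.val h))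
    exact congrArg Subtype.val h8
  refine qle hLZ ?_ S.e0 ?_
  · intro w hw
    apply hrad
    intro v
    rw [q_iff S.two X]
    exact hw v
  · intro a b c d hab hcd
    rw [← q_iff S.two X] at hab hcd
    rw [eqq_iff S.two X]
    obtain ⟨z, hz⟩ := hq a b
    obtain ⟨z', hz'⟩ := hq c d
    rw [hz] at hab
    rw [hz'] at hcd
    rw [hz, hz']
    exact h7 z z' hab hcd

/-- local type -/
theorem loc (h : ∀ v w w', X.Q v w = 0 ∨ X.Q v w' = 0 ∨ X.Q v (w + w') = 0) :
    ETE (Zh F) (neg1 F) := by
  have := S.fin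
  by_cases hL : ∃ w : VV K, w ≠ 0
  · obtain ⟨β, hβ0, hex, hβ⟩ := DQX.zlc_proof (VV K) (EWH.BQ K) X.Q (lnk S) S.nd LinearMap.id
      ⟨fun _ => rfl, fun _ _ => rfl, fun _ _ h => h⟩ hL h
    by_cases hc : X.cor β = 0
    · exact loc0 S β hβ hc
    · exact loc1 S β hβ0 hβ hex hc
  · push Not at hL
    apply few_of (neg1 F)
    intro v _
    exact (ker_res S v).1 (hL _)

/-! ### rigid elements -/

/-- no element of `res V` is rigid -/
theorem norig (t : VV K) (ht : ∀ b, ∀ a, (a = t ∨ ∃ v, a = t + X.res v) → X.Q a b = 0 →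
    b = 0 ∨ b = a) : ETE (Zh F) (neg1 F) := by
  have := S.fin
  apply few_of (X.N t)
  intro v hv
  rw [← q_iff S.two X, im_N S] at hv
  obtain ⟨w, rfl⟩ := hv
  obtain ⟨b, c, hbc⟩ := X.F5 t w
  rcases ht _ _ (Or.inr ⟨b, rfl⟩) hbc with h | h
  · left
    rw [eq_of h, X.N_res]
  · right
    have h1 : w = t + X.res b + X.res c := by
      rw [← h, add_assoc, dbl, add_zero]
    rw [h1, map_add, map_add, X.N_res, X.N_res, add_zero, add_zero]

section
variable {y : VV F} {τ : VV K →ₗ[ZMod 2] ZMod 2} (hy : τ (X.res y) = 1)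
  (hr : ∀ a, τ a = 1 → ∀ b, X.Q a b = 0 → b = 0 ∨ b = a)
  (hD : ∀ v w, τ v = 0 → τ w = 0 → (∃ a, X.Q v w = X.Q (X.res y) a) → X.Q v w = 0)

include hr in
/-- rigid elements are not sums of two squares -/
theorem r0 (u : VV F) (hu : τ (X.res u) = 1) : X.q (neg1 F) u ≠ 0 := by
  intro h
  obtain ⟨w, hw⟩ := (im_N S u).1 h
  have h1 : X.q u (X.N w) = 0 := by
    rw [hw, q_self, X.q_symm, h]
  obtain ⟨f, hf⟩ := X.F4 u w h1
  have h2 : u = 0 := by
    rcases hr _ hu _ hf with h3 | h3
    · rw [← hw, eq_of h3, X.N_res]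
    · have h4 : w = X.res u + X.res f := by
        rw [← h3, add_assoc, dbl, add_zero]
      rw [← hw, h4, map_add, X.N_res, X.N_res, add_zero]
  rw [h2, map_zero, map_zero] at hu
  exact absurd hu (by decide)

include hr in
/-- orthogonal elements of a rigid element -/
theorem vy (u v : VV F) (hu : τ (X.res u) = 1) (h : X.q u v = 0) :
    v = 0 ∨ v = u + neg1 F := by
  have h0 := r0 S hr u hu
  have h1 : X.Q (X.res u) (X.res v) = 0 := by rw [← X.rb_q, h, map_zero]
  rcases hr _ hu _ h1 with h2 | h2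
  · rcases (ker_res S v).1 h2 with h3 | h3
    · exact Or.inl h3
    · exfalso
      apply h0
      rw [X.q_symm, ← h3, h]
  · have h3 : X.res (v + u) = 0 := by rw [map_add, h2, dbl]
    rcases (ker_res S _).1 h3 with h4 | h4
    · exfalso
      apply h0
      rw [X.q_symm, ← q_self]
      rw [eq_of h4] at h
      exact h
    · right
      calc v = (v + u) + u := by rw [add_assoc, dbl, add_zero]
        _ = u + neg1 F := by rw [h4, add_comm]

include hy hr hD in
/-- the residue structure -/
theorem resid (u v : VV F) (hu : τ (X.res u) = 0) (hv : τ (X.res v) = 0) (s : VV F)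
    (h : X.q u v = X.q y s) : X.q u v = 0 := by
  -- replace `s` by an element without component at `y`
  obtain ⟨s, hs, h⟩ : ∃ s, τ (X.res s) = 0 ∧ X.q u v = X.q y s := by
    have hz2 : ∀ e : ZMod 2, e = 0 ∨ e = 1 := by decide
    rcases hz2 (τ (X.res s)) with h1 | h1
    · exact ⟨s, h1, h⟩
    · refine ⟨s + (y + neg1 F), ?_, ?_⟩
      · rw [map_add, map_add, map_add, res_e S, add_zero, h1, hy]
        decide
      · rw [map_add, map_add, q_self, bdbl, add_zero, h]
  have h1 : X.Q (X.res u) (X.res v) = X.Q (X.res y) (X.res s) := by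
    rw [← X.rb_q, ← X.rb_q, h]
  have h2 := hD _ _ hu hv ⟨_, h1⟩
  rw [h2] at h1
  have h3 : X.res s = 0 := by
    rcases hr _ hy _ h1.symm with h3 | h3
    · exact h3
    · exfalso
      rw [h3, hy] at hs
      exact absurd hs (by decide)
  rcases (ker_res S s).1 h3 with h4 | h4
  · rw [h, h4, map_zero]
  · exfalso
    rw [h4] at h
    obtain ⟨z, hz1, hz2⟩ := X.q_link _ _ _ _ h
    have h5 : X.q y (z + neg1 F) = 0 := by
      rw [map_add, hz2, h, bdbl]
    rcases vy S hr y _ hy h5 with h6 | h6
    · -- `z = e`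
      have h7 : z = neg1 F := eq_of h6
      rw [h7, h] at hz1
      apply r0 S hr (u + y)
      · rw [map_add, map_add, hu, hy, zero_add]
      · rw [map_add, X.q_symm, X.q_symm _ y, hz1, bdbl]
    · -- `z = y`
      have h7 : z = y := add_right_cancel h6
      rw [h7, h] at hz1
      have h8 : X.q y (u + neg1 F) = 0 := by
        rw [map_add, X.q_symm y u, hz1, bdbl]
      have h9 : u = neg1 F := by
        rcases vy S hr y _ hy h8 with h9 | h9
        · exact eq_of h9
        · have h10 : u = y := add_right_cancel h9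
          rw [h10, hy] at hu
          exact absurd hu (by decide)
      apply r0 S hr (v + y)
      · rw [map_add, map_add, hv, hy, zero_add]
      · rw [map_add, X.q_symm _ y, ← h, h9, bdbl]

include hy hr hD in
/-- the four cases -/
theorem h01 (a b : VV F) (ha : τ (X.res a) = 0) (hb : τ (X.res b) = 1) :
    X.q a b = 0 ↔ a = 0 := by
  constructor
  · intro h
    -- `b = y + c`
    have h1 : X.q a (b + y) = X.q y a := by
      rw [map_add, h, zero_add, X.q_symm]
    have h2 : τ (X.res (b + y)) = 0 := by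
      rw [map_add, map_add, hb, hy]; decide
    have h3 := resid S hy hr hD a (b + y) ha h2 a h1
    rw [h1] at h3
    rcases vy S hr y a hy h3 with h4 | h4
    · exact h4
    · exfalso
      rw [h4, map_add, map_add, res_e S, map_zero, add_zero, hy] at ha
      exact absurd ha (by decide)
  · rintro rfl
    rw [map_zero, LinearMap.zero_apply]

include hy hr hD in
theorem h11 (a b : VV F) (ha : τ (X.res a) = 1) (hb : τ (X.res b) = 1) :
    X.q a b = 0 ↔ a + b = neg1 F := by
  have h1 : X.q a b = X.q a (a + b + neg1 F) := by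
    rw [map_add, map_add, q_self, add_comm (X.q a (neg1 F)), add_assoc, bdbl, add_zero]
  have h2 : τ (X.res (a + b + neg1 F)) = 0 := by
    rw [map_add, map_add, map_add, map_add, res_e S, map_zero, add_zero, ha, hb]
    decide
  rw [h1, X.q_symm, h01 S hy hr hD _ _ h2 ha]
  constructor
  · intro h
    exact eq_of h
  · intro h
    rw [h, dbl]

end

end

/-! ### the field `F(y^{1/2^∞})` -/

/-- the field inside its algebraic closure -/
theorem embed (F : Type) [Field F] (hF : Two F) (hf : Finite (VV F)) (t : VV F)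
    (ht : Big (Zh F) (neg1 F) t) : ∃ (F' : Type) (_ : Field F') (ρ : VV F →ₗ[ZMod 2] VV F'),
    Two F' ∧ Function.Surjective ρ ∧ (∀ v, ρ v = 0 ↔ v = 0 ∨ v = t) ∧
    ρ (neg1 F) = neg1 F' ∧ ∀ v w, Zh F' (ρ v) (ρ w) ↔ InQ (Zh F) t v w := by
  let Ω := AlgebraicClosure F
  let K : Subfield Ω := (algebraMap F Ω).fieldRange
  have hb : Function.Bijective (algebraMap F Ω).rangeRestrictField :=
    ⟨fun a b h => (algebraMap F Ω).injective (by simpa using congrArg Subtype.val h),
      (algebraMap F Ω).rangeRestrictField_bijective.2⟩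
  let e : F ≃+* K := RingEquiv.ofBijective (algebraMap F Ω).rangeRestrictField hb
  have hK : Two K := Two.map (e : F →+* K) hF
  have hz : ∀ a b, Zh K (ETG.FIN_.veq e a) (ETG.FIN_.veq e b) ↔ Zh F a b := by
    intro a b
    constructor
    · intro h
      have h1 := zmp (e.symm : K →+* F) hK _ _ h
      rw [← ETG.FIN_.veq_symm_apply, ← ETG.FIN_.veq_symm_apply, LinearEquiv.symm_apply_apply,
        LinearEquiv.symm_apply_apply] at h1
      exact h1
    · intro h
      exact zmp (e : F →+* K) hF _ _ h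
  have hn : ETG.FIN_.veq e (neg1 F) = neg1 K := by
    rw [ETG.FIN_.veq_apply]
    exact vmap_neg1 _
  have hbig : Big (Zh K) (neg1 K) (ETG.FIN_.veq e t) := by
    refine ⟨?_, ?_, ?_, ?_⟩
    · intro h
      exact ht.t0 ((ETG.FIN_.veq e).map_eq_zero_iff.1 h)
    · intro h
      rw [← hn] at h
      exact ht.te ((ETG.FIN_.veq e).injective h)
    · intro v hv
      obtain ⟨v, rfl⟩ := (ETG.FIN_.veq e).surjective v
      rw [hz] at hv
      rcases ht.z1 v hv with h | h
      · left; rw [h, map_zero]
      · right; rw [h, map_add, hn]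
    · intro v hv
      obtain ⟨v, rfl⟩ := (ETG.FIN_.veq e).surjective v
      rw [← hn, ← map_add, hz] at hv
      rcases ht.z2 v hv with h | h
      · left; rw [h, map_zero]
      · right; rw [h]
  obtain ⟨E, hE, h2, h3, h4, h5⟩ := rge Ω K hK (Finite.of_equiv _ (ETG.FIN_.veq e).toEquiv)
    _ hbig
  refine ⟨E, inferInstance, vmap (Subfield.inclusion hE) ∘ₗ (ETG.FIN_.veq e).toLinearMap, h2,
    ?_, ?_, ?_, ?_⟩
  · intro w
    obtain ⟨v, hv⟩ := h3 w
    obtain ⟨u, rfl⟩ := (ETG.FIN_.veq e).surjective v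
    exact ⟨u, hv⟩
  · intro v
    show vmap (Subfield.inclusion hE) (ETG.FIN_.veq e v) = 0 ↔ _
    rw [h4, LinearEquiv.map_eq_zero_iff, (ETG.FIN_.veq e).injective.eq_iff]
  · show vmap (Subfield.inclusion hE) (ETG.FIN_.veq e (neg1 F)) = _
    rw [hn]
    exact vmap_neg1 _
  · intro v w
    show Zh E (vmap (Subfield.inclusion hE) (ETG.FIN_.veq e v))
      (vmap (Subfield.inclusion hE) (ETG.FIN_.veq e w)) ↔ _
    rw [h5]
    exact ETG.FIN_.inq_iff (ETG.FIN_.veq e) hz t v w

end ONE_

open ONE_

theorem one_proof : Stmt_ONE := by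
  intro F _ hF hi hfin hO ih
  obtain ⟨K, iK, iA, E, hEx, hfK, hND, hcase⟩ := hO
  obtain ⟨X⟩ := EWH.q_fx F K hF E
  have hG : EWG.Good K := by
    refine ⟨Two.map (algebraMap F K) hF, (E.θ : K), ?_⟩
    rw [E.sq, hEx, Units.val_neg, Units.val_one, map_neg, map_one]
  have hfun : Zf K = Zh K := by
    funext v w
    exact propext (zh_iff EWH.q_cmp K hG v w).symm
  have hLZf : LZ (Zf K) := (ETG.a_zfl K hG).1
  have hND' := hND
  rw [hfun] at hND'
  have S : Sit F K E X := by
    refine ⟨hF, by rw [hEx]; rfl, ?_, hfin, hfK, ?_⟩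
    · intro h
      unfold neg1 at h
      rw [vm_eq_zero] at h
      obtain ⟨i, hi'⟩ := h
      exact hi ⟨i, by rw [← Units.val_mul, ← hi', Units.val_neg, Units.val_one]⟩
    · intro w hw
      exact hND' w (fun y => (Q_iff hF X _ _).1 (hw y))
  rcases hcase with hl | ⟨t, ht⟩
  · -- local type
    apply loc S
    intro v w w'
    rw [hfun] at hl
    have h := hl v w w'
    rw [Q_iff hF X, Q_iff hF X, Q_iff hF X]
    exact h
  · -- rigid elements: structure of `K`
    have hstr : ∀ t, Rig (Zf K) t → ∃ τ : VV K →ₗ[ZMod 2] ZMod 2, τ t = 1 ∧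
        (∀ a, τ a = 1 → ∀ b, X.Q a b = 0 → b = 0 ∨ b = a) ∧
        ∀ v w, τ v = 0 → τ w = 0 → (∃ a, X.Q v w = X.Q t a) → X.Q v w = 0 := by
      intro t ht
      obtain ⟨τ, h1, h2⟩ := ETG.rig_proof (VV K) (Zf K) hLZf hND t ht
      have hz2 : ∀ e : ZMod 2, e = 0 ∨ e = 1 := by decide
      refine ⟨τ, h1, ?_, ?_⟩
      · intro a ha b hab
        rw [Q_iff hF X, ← hfun] at hab
        rcases hz2 (τ b) with hb | hb
        · left
          exact ETG.QXT_.c10 hLZf ht h1 h2 ha hb hab
        · right
          exact (ETG.QXT_.c11 hLZf ht h1 h2 ha hb hab).symm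
      · rintro v w hv hw ⟨a, ha⟩
        rw [Q_iff hF X, ← hfun]
        refine h2 v w hv hw ⟨a, ?_⟩
        rw [hfun, eqQ_iff hF X]
        exact ha
    by_cases hy : ∃ y, Rig (Zf K) (X.res y)
    · -- an element of `F` is rigid in `K`
      obtain ⟨y, hy⟩ := hy
      obtain ⟨τ, hτ, hr, hD⟩ := hstr _ hy
      have hbig : Big (Zh F) (neg1 F) y := by
        refine ⟨?_, ?_, ?_, ?_⟩
        · rintro rfl
          rw [map_zero, map_zero] at hτ
          exact absurd hτ (by decide)
        · rintro rfl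
          rw [res_e S, map_zero] at hτ
          exact absurd hτ (by decide)
        · intro v hv
          exact vy S hr y v hτ ((q_iff hF X _ _).2 hv)
        · intro v hv
          have h1 : τ (X.res (y + neg1 F)) = 1 := by
            rw [map_add, res_e S, add_zero, hτ]
          rcases vy S hr _ v h1 ((q_iff hF X _ _).2 hv) with h2 | h2
          · exact Or.inl h2
          · right
            rw [h2, add_assoc, dbl, add_zero]
      obtain ⟨F', iF', ρ, g2, gs, gk, gn, gz⟩ := embed F hF hfin y hbig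
      have hfin' : Finite (VV F') := Finite.of_surjective _ gs
      have hcard : Nat.card (VV F') < Nat.card (VV F) := by
        have hle := Nat.card_le_card_of_surjective ρ gs
        rcases Nat.lt_or_ge (Nat.card (VV F')) (Nat.card (VV F)) with h | h
        · exact h
        · exfalso
          have hinj := (Nat.bijective_iff_surjective_and_card ρ).2 ⟨gs, le_antisymm h hle⟩
          apply hbig.t0
          apply hinj.1
          rw [map_zero]
          exact (gk y).2 (Or.inr rfl)
      have hE := ih F' g2 hfin' hcard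
      have hLZ := (zhl F hF).1
      refine qxe (t := y) ρ (τ ∘ₗ X.res) (zhl F' g2).1 gs gk hτ ?_ gn ?_ ?_ ?_ ?_ hE
      · show τ (X.res (neg1 F)) = 0
        rw [res_e S, map_zero]
      · intro a b ha hb
        rw [gz]
        constructor
        · intro h
          exact inQ_of hLZ h
        · rintro ⟨s, hs⟩
          rw [eqq_iff hF X] at hs
          rw [← q_iff hF X]
          exact resid S hτ hr hD a b ha hb s hs
      · intro a b ha hb
        rw [← q_iff hF X]
        exact h01 S hτ hr hD a b ha hb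
      · intro a b ha hb
        rw [← q_iff hF X, X.q_symm]
        exact h01 S hτ hr hD b a hb ha
      · intro a b ha hb
        rw [← q_iff hF X]
        exact h11 S hτ hr hD a b ha hb
    · -- no element of `F` is rigid in `K`
      obtain ⟨τ, hτ, hr, hD⟩ := hstr t ht
      have h1 : ∀ v, τ (X.res v) = 0 := by
        intro v
        have hz2 : ∀ e : ZMod 2, e = 0 ∨ e = 1 := by decide
        rcases hz2 (τ (X.res v)) with h | h
        · exact h
        · exfalso
          apply hy
          refine ⟨v, ?_, ?_⟩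
          · intro h0
            rw [h0, map_zero] at h
            exact absurd h (by decide)
          · intro b hb
            rw [hfun, ← Q_iff hF X] at hb
            exact hr _ h b hb
      apply norig S t
      rintro b a ha hab
      refine hr a ?_ b hab
      rcases ha with rfl | ⟨v, rfl⟩
      · exact hτ
      · rw [map_add, h1, add_zero, hτ]

end Pool.Agent.EV3
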