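import Pool.Agent.EV3.GStmts

/-!
V3, module ORB: orbits of an involution on a finite set.
-/

set_option autoImplicit false

namespace Pool.Agent.EV3

open scoped BigOperators
open Pool.Agent.EWG (VV vm iu QD vm_surj vm_mul vm_one vm_eq_zero vm_eq_iff Good)
open Pool.Agent.EWH (Two BQ FX pf sy)
open Pool.Agent.ETG (EqQ LZ ZDec ZLoc ZFan Fac ND Indec Rig Zf Zh vmap vmap_vm)

theorem orb_proof : Stmt_ORB := by
  intro k τ hτ
  refine ⟨{j : Fin k // j ≤ τ j}, inferInstance, inferInstance, fun o => o.1, ?_, ?_⟩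
  · rintro ⟨a, ha⟩ ⟨b, hb⟩ h
    apply Subtype.ext
    rcases h with h | h
    · exact h
    · have h : a = τ b := h
      have h2 : τ a = b := by rw [h, hτ]
      rw [h2] at ha
      rw [← h] at hb
      exact le_antisymm ha hb
  · intro j
    rcases le_total j (τ j) with h | h
    · exact ⟨⟨j, h⟩, Or.inl rfl⟩
    · exact ⟨⟨τ j, by rw [hτ]; exact h⟩, Or.inr (hτ j).symm⟩

end Pool.Agent.EV3
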