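import Pool.Agent.EV3.GStmts
import Pool.Agent.ETB.Gen

set_option autoImplicit false

namespace Pool.Agent.EV3

open Pool.Agent.EWG (VV QD Good)
open Pool.Agent.ETG (ZDec Zf)

theorem osx : Stmt_OSX := by
  intro K _ hK hf
  refine ETB.tow (fun K => ∃ (k : ℕ) (C : ZDec (Zf K) k), C.OS) ?_ ?_ K hK hf
  · intro F K _ _ _ hF hfF E hK
    obtain ⟨k', C', hC'⟩ := hK
    obtain ⟨k, C, hC, _⟩ := ETB.dsf F K hF hfF E k' C' hC'
    exact ⟨k, C, hC⟩
  · intro K _ _ _ h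
    exact h

end Pool.Agent.EV3
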