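import Pool.Agent.EV3.GStmts

set_option autoImplicit false

namespace Pool.Agent.EV3

open scoped BigOperators
open Pool.Agent.EWG (VV vm iu QD vm_surj vm_mul vm_one vm_eq_zero vm_eq_iff Good)
open Pool.Agent.EWH (Two BQ FX pf sy)
open Pool.Agent.ETG (EqQ LZ ZDec ZLoc ZFan Fac ND Indec Rig Zf Zh vmap vmap_vm)

namespace QFC_

theorem add_self {B : Type} [AddCommGroup B] [Module (ZMod 2) B] (x : B) : x + x = 0 := by
  have h : (1 + 1 : ZMod 2) • x = 0 := by
    rw [show (1 + 1 : ZMod 2) = 0 by decide, zero_smul]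
  rwa [add_smul, one_smul] at h

theorem eq_of_add {B : Type} [AddCommGroup B] [Module (ZMod 2) B] {x y : B} (h : x + y = 0) :
    x = y := by
  have h2 := add_self y
  rw [← h2] at h
  exact add_right_cancel h

theorem eqq {V B : Type} [AddCommGroup V] [Module (ZMod 2) V] [AddCommGroup B]
    [Module (ZMod 2) B] (q : V →ₗ[ZMod 2] V →ₗ[ZMod 2] B) (Z : V → V → Prop)
    (hZ : ∀ v w, q v w = 0 ↔ Z v w)
    (hl : ∀ a b c d, q a b = q c d → ∃ x, q a x = q a b ∧ q c x = q a b) (a b c d : V) :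
    EqQ Z a b c d ↔ q a b = q c d := by
  constructor
  · rintro ⟨x, h1, h2, h3⟩
    rw [← hZ, map_add] at h1 h2
    rw [← hZ, map_add, LinearMap.add_apply] at h3
    rw [eq_of_add h1, eq_of_add h2, eq_of_add h3]
  · intro h
    obtain ⟨x, h1, h2⟩ := hl a b c d h
    refine ⟨x, ?_, ?_, ?_⟩
    · rw [← hZ, map_add, h1, add_self]
    · rw [← hZ, map_add, h2, ← h, add_self]
    · rw [← hZ, map_add, LinearMap.add_apply, h1, h2, add_self]

end QFC_

open QFC_ in
theorem qfc_proof : Stmt_QFC := by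
  intro F _ h2
  have hqf : qf F = Classical.choose (EWH.q_qbl F h2) := dif_pos h2
  obtain ⟨h1, hs, hself, hpf, h0, hl, hsp⟩ := Classical.choose_spec (EWH.q_qbl F h2)
  rw [← hqf] at h1 hs hself hpf h0 hl hsp
  refine ⟨h1, ⟨hs, hself, hl⟩, ?_, hsp, ?_⟩
  · intro v w
    constructor
    · rintro h a b rfl rfl
      exact (h0 a b).1 h
    · intro h
      obtain ⟨a, rfl⟩ := vm_surj v
      obtain ⟨b, rfl⟩ := vm_surj w
      exact (h0 a b).2 (h a b rfl rfl)
  · intro hG
    have hm : m1 F = 0 := by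
      show vm (-1 : Fˣ) = 0
      rw [vm_eq_zero]
      obtain ⟨i, hi⟩ := hG.neg
      have hi0 : i ≠ 0 := by
        rintro rfl
        simp at hi
      refine ⟨Units.mk0 i hi0, ?_⟩
      ext
      simp only [Units.val_neg, Units.val_one, Units.val_mul, Units.val_mk0]
      rw [← hi, pow_two]
    have hZ : ∀ v w, qf F v w = 0 ↔ Zf F v w := by
      intro v w
      constructor
      · rintro h a b rfl rfl
        exact (EWH.q_cmp F hG a b a b).2.2 ((h0 a b).1 h)
      · intro h
        obtain ⟨a, rfl⟩ := vm_surj v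
        obtain ⟨b, rfl⟩ := vm_surj w
        exact (h0 a b).2 ((EWH.q_cmp F hG a b a b).2.1 (h a b rfl rfl))
    have hE := eqq (qf F) (Zf F) hZ hl
    refine ⟨hm, hZ, ⟨?_, ?_, ?_, ?_, ?_⟩, hE⟩
    · intro a b h
      rw [← hZ, hs]
      exact (hZ a b).2 h
    · intro a
      rw [← hZ, map_zero]
    · intro a b c hb hc
      rw [← hZ, map_add, (hZ a b).2 hb, (hZ a c).2 hc, add_zero]
    · intro a
      rw [← hZ, hself]
      show qf F a (m1 F) = 0
      rw [hm, map_zero]
    · intro a b c d a' b' h h'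
      rw [hE] at h h' ⊢
      rw [h, h']

end Pool.Agent.EV3
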