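import Pool.Agent.EV3.GStmts

/-!
EV3, module RZC (helper50): components of the restriction.
-/

set_option autoImplicit false

namespace Pool.Agent.EV3

open scoped BigOperators
open Pool.Agent.EWG (VV vm iu QD vm_surj vm_mul vm_one vm_eq_zero vm_eq_iff Good)
open Pool.Agent.EWH (Two BQ FX pf sy)
open Pool.Agent.ETG (EqQ LZ ZDec ZLoc ZFan Fac ND Indec Rig Zf Zh vmap vmap_vm)

theorem rzc_proof (_hQFC : Stmt_QFC) (_hFXQ : Stmt_FXQ) (hTYP : Stmt_TYP) (hKFC : Stmt_KFC) :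
    Stmt_RZC := by
  intro F K _ _ _ E G
  have main : ∀ r, (∀ o, G.ρ o r = 0) → ∀ j, G.C.p j (G.X.res r) = 0 := by
    intro r hr j
    have hj : ∀ o, G.C.p (G.jj o) (G.X.res r) = 0 := by
      intro o
      rcases hTYP F K E G o with ⟨-, K', iK, aK, E', X', γ, h⟩ | ⟨-, -, γ, h⟩
      · rw [← h.ker, ← h.res, hr o, map_zero]
      · rw [← h.ker, ← h.res, hr o]
    obtain ⟨o, rfl | rfl⟩ := G.jsur j
    · exact hj o
    · have := (G.hτ (G.jj o) (G.X.res r)).1 (hj o)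
      rwa [G.X.σ_res] at this
  refine ⟨main, fun r hr w => ?_⟩
  obtain ⟨-, -, -, -, -, h6, -⟩ := hKFC F K E G
  exact h6 _ (main r hr) w

end Pool.Agent.EV3
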