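import Pool.Agent.EV3.GStmts
import Pool.Agent.ETG.IDC
import Pool.Agent.ETG.LZR
import Pool.Agent.ETG.UNQ

/-!
# EV3, TAU: action of an automorphism on the components
-/

set_option autoImplicit false

namespace Pool.Agent.EV3

open scoped BigOperators
open Pool.Agent.EWG (VV vm iu QD vm_surj vm_mul vm_one vm_eq_zero vm_eq_iff Good)
open Pool.Agent.EWH (Two BQ FX pf sy)
open Pool.Agent.ETG (EqQ LZ ZDec ZLoc ZFan Fac ND Indec Rig Zf Zh vmap vmap_vm)

namespace TAU_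

variable {V : Type} [AddCommGroup V] [Module (ZMod 2) V] {Z : V → V → Prop}

/-- one component -/
theorem one (hZ : LZ Z) {k : ℕ} (C : ZDec Z k) (hOS : C.OS) (σ : V →ₗ[ZMod 2] V)
    (h2 : ∀ v, σ (σ v) = v) (hσ : ∀ v w, Z v w → Z (σ v) (σ w)) (j : Fin k) :
    ∃ j', ∀ v, C.p j (σ v) = 0 ↔ C.p j' v = 0 := by
  obtain ⟨a1, a2, a3, a4, s, b1, b2, b3, b4⟩ :=
    ETG.lzr_proof ETG.idc_proof V Z hZ k C hOS j
  have hF : Fac Z (ETG.ZR Z (LinearMap.range (C.p j))) ((C.p j).rangeRestrict ∘ₗ σ) := by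
    refine ⟨σ ∘ₗ s, fun w => ?_, fun w u hu => ?_, fun v v' h => ?_, fun w w' h => ?_⟩
    · rw [LinearMap.comp_apply, LinearMap.comp_apply, h2, b1]
    · have h := hσ _ _ (b2 w (σ u) hu)
      rw [h2] at h
      exact h
    · exact b3 _ _ (hσ _ _ h)
    · exact hσ _ _ (b4 _ _ h)
  obtain ⟨j', c1, c2, -, -⟩ := ETG.unq_proof ETG.idc_proof V (LinearMap.range (C.p j)) Z _ _ hZ
    a1 hF a2 a3 a4 k C hOS
  refine ⟨j', fun v => ?_⟩
  have e : ∀ u, ((C.p j).rangeRestrict ∘ₗ σ) u = 0 ↔ C.p j (σ u) = 0 := fun u => by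
    rw [LinearMap.comp_apply, Subtype.ext_iff]
    rfl
  constructor
  · intro h
    exact c2 _ (C.idem j' v) (by rw [c1]; exact (e v).mpr h)
  · intro h
    have h1 := c1 v
    rw [h, map_zero] at h1
    exact (e v).mp h1.symm

end TAU_

theorem tau_proof : Stmt_TAU := by
  intro V _ _ Z hZ k C hOS σ h2 hσ
  choose t H using TAU_.one hZ C hOS σ h2 hσ
  have H1 : ∀ j v, C.p j v = 0 ↔ C.p (t j) (σ v) = 0 := fun j v => by
    have h := H j (σ v)
    rwa [h2] at h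
  refine ⟨t, fun j => ?_, H1⟩
  by_contra hne
  obtain ⟨v, hv⟩ := C.ne j
  apply hv
  rw [← C.idem j v, H1, H]
  exact C.orth _ _ hne v

end Pool.Agent.EV3
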