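import Pool.Agent.EV3.GStmts
import Pool.Agent.EWH.All

/-!
Module TYP of squad EV3: linear form of the localisations.
-/

set_option autoImplicit false

namespace Pool.Agent.EV3

open scoped BigOperators
open Pool.Agent.EWG (VV vm iu QD vm_surj vm_mul vm_one vm_eq_zero vm_eq_iff Good)
open Pool.Agent.EWH (Two BQ FX pf sy)
open Pool.Agent.ETG (EqQ LZ ZDec ZLoc ZFan Fac ND Indec Rig Zf Zh vmap vmap_vm)

namespace TYP_

lemma two_map {F L : Type} [Field F] [Field L] (f : F →+* L) (h : Two F) : Two L := by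
  intro h2
  apply h
  have h3 : f (2 : F) = 0 := by
    rw [map_ofNat]
    exact h2
  exact (map_eq_zero f).1 h3

lemma good_of {F K : Type} [Field F] [Field K] [Algebra F K] (E : QD F K) (h : Two F)
    (hx : E.x = -1) : Good K := by
  refine ⟨two_map (algebraMap F K) h, E.θ, ?_⟩
  rw [E.sq, hx]
  simp

lemma vmap_m1 {F L : Type} [Field F] [Field L] (f : F →+* L) : vmap f (m1 F) = m1 L := by
  rw [vmap_vm]
  have h : Units.map f.toMonoidHom (-1 : Fˣ) = -1 := by
    ext
    simp
  rw [h]

end TYP_

open TYP_ in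
theorem typ_proof (hQFC : Stmt_QFC) (hFXQ : Stmt_FXQ) (hBCR : Stmt_BCR) : Stmt_TYP := by
  intro F K _ _ _ E G o
  have hK : Good K := good_of E G.two G.ex
  obtain ⟨-, hXQ, hXres, -⟩ := hFXQ F K E G.two G.X
  have hQK := ((hQFC K hK.two).2.2.2.2 hK).2.1
  rcases G.typ o with ⟨h1, h2⟩ | ⟨h1, h2⟩
  · left
    refine ⟨h1, ?_⟩
    obtain ⟨-, K', iK', iA', E', g, hx', hcomp, hθ, hσ, hsurj, hker, hiso⟩ := h2
    have h2' : Two (G.Fo o) := two_map (G.r o) G.two
    have hK' : Good K' := good_of E' h2' hx'
    obtain ⟨X'⟩ := EWH.q_fx (G.Fo o) K' h2' E'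
    obtain ⟨-, hXQ', -, -⟩ := hFXQ (G.Fo o) K' E' h2' X'
    obtain ⟨b1, b2, b3, b4, b5⟩ := hBCR F K (G.Fo o) K' E E' (G.r o) g G.two hcomp hθ hσ G.X X'
    have hQK' := ((hQFC K' hK'.two).2.2.2.2 hK').2.1
    refine ⟨K', iK', iA', E', X', vmap g, ?_⟩
    exact
      { ex := hx'
        res := b1
        N := b2
        σ := b3
        q := b4
        cor := b5
        surj := hsurj
        ker := hker
        iso := fun v w => by
          rw [hXQ', hXQ, hQK', hQK]
          exact hiso v w }
  · right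
    refine ⟨h1, h2.1, ?_⟩
    obtain ⟨hL, -, g, hcomp, hsurj, hker, hiso⟩ := h2
    have hQL := (hQFC (G.Fo o) hL.two).2.2.2.2 hL
    refine ⟨vmap g, ?_⟩
    exact
      { res := fun v => by
          obtain ⟨a, rfl⟩ := vm_surj v
          rw [hXres]
          show vmap (G.r o) (vm a) = _
          rw [vmap_vm, vmap_vm, vmap_vm]
          have h : Units.map (G.r o).toMonoidHom a =
              Units.map g.toMonoidHom (Units.map (algebraMap F K).toMonoidHom a) := by
            ext
            exact (hcomp a).symm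
          rw [h]
        e := by
          show vmap (G.r o) (m1 F) = 0
          rw [vmap_m1]
          exact hQL.1
        surj := hsurj
        ker := hker
        iso := fun v w => by
          rw [hXQ, hQK, hQL.2.1]
          exact hiso v w }

end Pool.Agent.EV3
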