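import Pool.Agent.EV3.GDefs
import Pool.Agent.EVL.Defs

/-!
V3, GLUE: statements of the modules.  Recipes: /team-store/MP_d26ff6_EV3.md.
-/

set_option autoImplicit false

namespace Pool.Agent.EV3

open scoped BigOperators
open Pool.Agent.EWG (VV vm iu QD vm_surj vm_mul vm_one vm_eq_zero vm_eq_iff Good)
open Pool.Agent.EWH (Two BQ FX pf sy)
open Pool.Agent.ETG (EqQ LZ ZDec ZLoc ZFan Fac ND Indec Rig Zf Zh vmap vmap_vm)

/-! ### A. Abstract glue -/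

section
variable (ι V B : Type) [Fintype ι] [DecidableEq ι] [AddCommGroup V] [Module (ZMod 2) V]
  [AddCommGroup B] [Module (ZMod 2) B] (Vo Bo : ι → Type) [∀ o, AddCommGroup (Vo o)]
  [∀ o, Module (ZMod 2) (Vo o)] [∀ o, AddCommGroup (Bo o)] [∀ o, Module (ZMod 2) (Bo o)]

/-- for `r` with all components `0`, `q(r, v) = q(e, x)` with `x` fixed by `E_r` and with all
components `0` -/
def Glue.ER {ι V B Vo Bo} [AddCommGroup V] [Module (ZMod 2) V]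
  [AddCommGroup B] [Module (ZMod 2) B] [∀ o, AddCommGroup (Vo o)]
  [∀ o, Module (ZMod 2) (Vo o)] [∀ o, AddCommGroup (Bo o)] [∀ o, Module (ZMod 2) (Bo o)]
  (G : Glue ι V B Vo Bo) : Prop := ∀ r, (∀ o, G.ρ o r = 0) → ∀ v, ∃ x, (∀ o, G.ρ o x = 0) ∧
    G.q r v = G.q G.e x ∧ G.q r x = G.q G.e x
end

/-- GER -/
def Stmt_GER : Prop := ∀ (ι V B : Type) [Fintype ι] [DecidableEq ι] [AddCommGroup V]
  [Module (ZMod 2) V] [AddCommGroup B] [Module (ZMod 2) B] (Vo Bo : ι → Type)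
  [∀ o, AddCommGroup (Vo o)] [∀ o, Module (ZMod 2) (Vo o)] [∀ o, AddCommGroup (Bo o)]
  [∀ o, Module (ZMod 2) (Bo o)] (G : Glue ι V B Vo Bo), G.ER

/-- (R) -/
def Stmt_GRA : Prop := ∀ (ι V B : Type) [Fintype ι] [DecidableEq ι] [AddCommGroup V]
  [Module (ZMod 2) V] [AddCommGroup B] [Module (ZMod 2) B] (Vo Bo : ι → Type)
  [∀ o, AddCommGroup (Vo o)] [∀ o, Module (ZMod 2) (Vo o)] [∀ o, AddCommGroup (Bo o)]
  [∀ o, Module (ZMod 2) (Bo o)] (G : Glue ι V B Vo Bo), G.R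

/-- the value `q(e, y)`, `y` with all components `0`, is not a value of `v` if `q(y, v) = 0` -/
def Stmt_GIS : Prop := ∀ (ι V B : Type) [Fintype ι] [DecidableEq ι] [AddCommGroup V]
  [Module (ZMod 2) V] [AddCommGroup B] [Module (ZMod 2) B] (Vo Bo : ι → Type)
  [∀ o, AddCommGroup (Vo o)] [∀ o, Module (ZMod 2) (Vo o)] [∀ o, AddCommGroup (Bo o)]
  [∀ o, Module (ZMod 2) (Bo o)] (G : Glue ι V B Vo Bo), G.P8 →
  ∀ y v b, (∀ o, G.ρ o y = 0) → G.q y v = 0 → G.q v b = G.q G.e y → G.q G.e y = 0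

/-- atoms: the factors of orderings -/
def Stmt_GAT : Prop := ∀ (ι V B : Type) [Fintype ι] [DecidableEq ι] [AddCommGroup V]
  [Module (ZMod 2) V] [Finite V] [AddCommGroup B] [Module (ZMod 2) B] (Vo Bo : ι → Type)
  [∀ o, AddCommGroup (Vo o)] [∀ o, Module (ZMod 2) (Vo o)] [∀ o, AddCommGroup (Bo o)]
  [∀ o, Module (ZMod 2) (Bo o)] (G : Glue ι V B Vo Bo), ∃ (κ : ℕ)
  (χ : Fin κ → (V →ₗ[ZMod 2] ZMod 2)) (r : Fin κ → V), (∀ i o, G.ρ o (r i) = 0) ∧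
  (∀ i, χ i G.e = 1) ∧ (∀ i, G.q G.e (r i) ≠ 0) ∧ (∀ i v, G.q (r i) v = χ i v • G.q G.e (r i)) ∧
  (∀ i j, χ i (r j) = if i = j then 1 else 0) ∧
  ∀ x, (∀ o, G.ρ o x = 0) → G.q G.e x = ∑ i, χ i x • G.q G.e (r i)

/-- the product statement, if `ρ` is onto -/
def Stmt_GPD : Prop := ∀ (ι V B : Type) [Fintype ι] [DecidableEq ι] [AddCommGroup V]
  [Module (ZMod 2) V] [Finite V] [AddCommGroup B] [Module (ZMod 2) B] (Vo Bo : ι → Type)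
  [∀ o, AddCommGroup (Vo o)] [∀ o, Module (ZMod 2) (Vo o)] [∀ o, AddCommGroup (Bo o)]
  [∀ o, Module (ZMod 2) (Bo o)] (G : Glue ι V B Vo Bo), G.P8 →
  (∀ u : ∀ o, Vo o, ∃ v, ∀ o, G.ρ o v = u o) → G.Prod

/-- the cokernel `C` of `ρ` and the additive family of idempotents `P v` -/
def Stmt_GCK : Prop := ∀ (ι V B : Type) [Fintype ι] [DecidableEq ι] [AddCommGroup V]
  [Module (ZMod 2) V] [AddCommGroup B] [Module (ZMod 2) B] (Vo Bo : ι → Type)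
  [∀ o, AddCommGroup (Vo o)] [∀ o, Module (ZMod 2) (Vo o)] [∀ o, AddCommGroup (Bo o)]
  [∀ o, Module (ZMod 2) (Bo o)] (G : Glue ι V B Vo Bo), G.P4 →
  ∃ (C : Type) (_ : AddCommGroup C) (_ : Module (ZMod 2) C) (π : (∀ o, Vo o) →ₗ[ZMod 2] C)
  (P : V →ₗ[ZMod 2] (C →ₗ[ZMod 2] C)), (∀ c, ∃ u, π u = c) ∧
  (∀ u, π u = 0 ↔ ∃ v, ∀ o, G.ρ o v = u o) ∧ (∀ v c, P v (P v c) = P v c) ∧
  (∀ c, P G.e c = c) ∧ ∀ v u s, (∀ o, G.qo o (G.ρ o v) (u o) = G.qo o (G.ρ o G.e) (s o)) →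
  P v (π u) = π s

/-- an additive family of idempotents on `C ≠ 0` has a common eigenfunctional -/
def Stmt_EIG : Prop := ∀ (V C : Type) [AddCommGroup V] [Module (ZMod 2) V] [Finite V]
  [AddCommGroup C] [Module (ZMod 2) C] [Finite C] (P : V →ₗ[ZMod 2] (C →ₗ[ZMod 2] C)),
  (∀ v c, P v (P v c) = P v c) → (∃ c : C, c ≠ 0) →
  ∃ (φ : C →ₗ[ZMod 2] ZMod 2) (χ : V →ₗ[ZMod 2] ZMod 2), φ ≠ 0 ∧ ∀ v c, φ (P v c) = χ v * φ c

/-- `ρ` is onto -/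
def Stmt_GON : Prop := ∀ (ι V B : Type) [Fintype ι] [DecidableEq ι] [AddCommGroup V]
  [Module (ZMod 2) V] [Finite V] [AddCommGroup B] [Module (ZMod 2) B] (Vo Bo : ι → Type)
  [∀ o, AddCommGroup (Vo o)] [∀ o, Module (ZMod 2) (Vo o)] [∀ o, Finite (Vo o)]
  [∀ o, AddCommGroup (Bo o)] [∀ o, Module (ZMod 2) (Bo o)] (G : Glue ι V B Vo Bo),
  G.P4 → G.P5 → G.P6 → ∀ u : ∀ o, Vo o, ∃ v, ∀ o, G.ρ o v = u o

/-! ### B. Fields: symbols and base change -/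

/-- the symbol `qf` -/
def Stmt_QFC : Prop := ∀ (F : Type) [Field F], Two F →
  (∀ a b : Fˣ, qf F (vm a) (vm b) = sy a b) ∧ LQ (qf F) (m1 F) ∧
  (∀ v w, qf F v w = 0 ↔ Zh F v w) ∧
  (∀ b : BQ F, ∃ (n : ℕ) (v w : Fin n → VV F), b = ∑ i, qf F (v i) (w i)) ∧
  (Good F → m1 F = 0 ∧ (∀ v w, qf F v w = 0 ↔ Zf F v w) ∧ LZ (Zf F) ∧
    ∀ a b c d, EqQ (Zf F) a b c d ↔ qf F a b = qf F c d)

/-- base change of symbols -/
def Stmt_BFC : Prop := ∀ (F L : Type) [Field F] [Field L] (f : F →+* L), Two F →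
  ∀ v w, bf f (qf F v w) = qf L (vmap f v) (vmap f w)

/-- the data `FX` in terms of `qf`, `vmap` -/
def Stmt_FXQ : Prop := ∀ (F K : Type) [Field F] [Field K] [Algebra F K] (E : QD F K), Two F →
  ∀ X : FX E, X.q = qf F ∧ X.Q = qf K ∧ (∀ v, X.res v = vmap (algebraMap F K) v) ∧
    ∀ w, X.σ w = vmap (E.σ : K →+* K) w

/-- base change of quadratic extensions -/
def Stmt_BCR : Prop := ∀ (F K F' K' : Type) [Field F] [Field K] [Field F'] [Field K']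
  [Algebra F K] [Algebra F' K'] (E : QD F K) (E' : QD F' K') (f : F →+* F') (g : K →+* K'),
  Two F → (∀ a, g (algebraMap F K a) = algebraMap F' K' (f a)) → g E.θ = E'.θ →
  (∀ a, g (E.σ a) = E'.σ (g a)) → ∀ (X : FX E) (X' : FX E'),
  (∀ v, X'.res (vmap f v) = vmap g (X.res v)) ∧ (∀ w, X'.N (vmap g w) = vmap f (X.N w)) ∧
  (∀ w, X'.σ (vmap g w) = vmap g (X.σ w)) ∧
  (∀ a b, X'.q (vmap f a) (vmap f b) = bf f (X.q a b)) ∧
  ∀ w y, X'.cor (X'.Q (vmap g w) (vmap g y)) = bf f (X.cor (X.Q w y))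

/-- linear form of the localisations -/
def Stmt_TYP : Prop := ∀ (F K : Type) [Field F] [Field K] [Algebra F K] (E : QD F K)
  (G : GD F K E) (o : G.ι),
  (G.τ (G.jj o) = G.jj o ∧ ∃ (K' : Type) (_ : Field K') (_ : Algebra (G.Fo o) K')
    (E' : QD (G.Fo o) K') (X' : FX E') (γ : VV K →ₗ[ZMod 2] VV K'),
    FixL G.X (G.C.p (G.jj o)) (G.ρ o) (G.β o) X' γ) ∨
  (G.τ (G.jj o) ≠ G.jj o ∧ Good (G.Fo o) ∧ ∃ γ : VV K →ₗ[ZMod 2] VV (G.Fo o),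
    FreL G.X (G.C.p (G.jj o)) (G.ρ o) γ)

/-! ### C. Fields: components of `K` -/

/-- the symbol of `K` and the components -/
def Stmt_KFC : Prop := ∀ (F K : Type) [Field F] [Field K] [Algebra F K] (E : QD F K)
  (G : GD F K E), m1 K = 0 ∧ (∀ v w, G.X.Q v w = 0 ↔ Zf K v w) ∧
  (∀ v w, G.X.Q v w = ∑ j, G.X.Q (G.C.p j v) (G.C.p j w)) ∧
  (∀ j v w, G.X.Q (G.C.p j v) w = G.X.Q (G.C.p j v) (G.C.p j w)) ∧
  (∀ j v w, G.X.Q (G.C.p (G.τ j) (G.X.σ v)) (G.C.p (G.τ j) (G.X.σ w)) =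
    G.X.sC (G.X.Q (G.C.p j v) (G.C.p j w))) ∧
  (∀ v, (∀ j, G.C.p j v = 0) → ∀ w, G.X.Q v w = 0) ∧
  (∀ v w, G.X.Q v w = 0 ↔ ∀ j, G.X.Q (G.C.p j v) (G.C.p j w) = 0)

/-- equality of symbols at a component: `EqQ` is preserved and reflected by `γ` -/
def Stmt_EQL : Prop := ∀ (K L : Type) [Field K] [Field L], Good K → Good L →
  ∀ (p : VV K →ₗ[ZMod 2] VV K) (γ : VV K →ₗ[ZMod 2] VV L), (∀ w, ∃ v, γ v = w) →
  (∀ v w, qf L (γ v) (γ w) = 0 ↔ qf K (p v) (p w) = 0) →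
  ∀ v w v' w', qf L (γ v) (γ w) = qf L (γ v') (γ w') → qf K (p v) (p w) = qf K (p v') (p w')

/-- components of the restriction -/
def Stmt_RZC : Prop := ∀ (F K : Type) [Field F] [Field K] [Algebra F K] (E : QD F K)
  (G : GD F K E), (∀ r, (∀ o, G.ρ o r = 0) → ∀ j, G.C.p j (G.X.res r) = 0) ∧
  (∀ r, (∀ o, G.ρ o r = 0) → ∀ w, G.X.Q (G.X.res r) w = 0)

/-- norms of elements supported at a component -/
def Stmt_NSC : Prop := ∀ (F K : Type) [Field F] [Field K] [Algebra F K] (E : QD F K)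
  (G : GD F K E) (o : G.ι) (w : VV K), G.C.p (G.jj o) w = w →
  ∀ o', o' ≠ o → G.ρ o' (G.X.N w) = 0

/-- P0 -/
def Stmt_GP0 : Prop := ∀ (F K : Type) [Field F] [Field K] [Algebra F K] (E : QD F K)
  (G : GD F K E) (r n : VV F), (∀ o, G.ρ o r = 0) → qf F (m1 F) n = 0 → qf F r n = 0

/-- P1 -/
def Stmt_GP1 : Prop := ∀ (F K : Type) [Field F] [Field K] [Algebra F K] (E : QD F K)
  (G : GD F K E) (o : G.ι) (d : VV (G.Fo o)), qf (G.Fo o) (m1 (G.Fo o)) d = 0 →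
  ∃ n, qf F (m1 F) n = 0 ∧ G.ρ o n = d ∧ ∀ o', o' ≠ o → G.ρ o' n = 0

/-- P2 -/
def Stmt_GP2 : Prop := ∀ (F K : Type) [Field F] [Field K] [Algebra F K] (E : QD F K)
  (G : GD F K E) (a b c d : VV F),
  (∀ o, ∃ s, qf (G.Fo o) (G.ρ o a) (G.ρ o b) + qf (G.Fo o) (G.ρ o c) (G.ρ o d) =
    qf (G.Fo o) (m1 (G.Fo o)) s) → ∃ s, qf F a b + qf F c d = qf F (m1 F) s

/-- the hypothesis (R) for fields -/
def RF {F K : Type} [Field F] [Field K] [Algebra F K] {E : QD F K} (G : GD F K E) : Prop :=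
  ∀ r, (∀ o, G.ρ o r = 0) → qf F (m1 F) r = 0 → ∀ v, qf F r v = 0

/-- elements of `K` supported at a fixed component whose component comes from `Fo o`: the norm is
in the radical -/
def Stmt_NRD : Prop := ∀ (F K : Type) [Field F] [Field K] [Algebra F K] (E : QD F K)
  (G : GD F K E), RF G → ∀ (o : G.ι) (K' : Type) [Field K'] [Algebra (G.Fo o) K']
  (E' : QD (G.Fo o) K') (X' : FX E') (γ : VV K →ₗ[ZMod 2] VV K'),
  FixL G.X (G.C.p (G.jj o)) (G.ρ o) (G.β o) X' γ → ∀ (w : VV K) (a : VV (G.Fo o)),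
  G.C.p (G.jj o) w = w → γ w = X'.res a → ∀ v, qf F (G.X.N w) v = 0

/-- P4 -/
def Stmt_GP4 : Prop := ∀ (F K : Type) [Field F] [Field K] [Algebra F K] (E : QD F K)
  (G : GD F K E), RF G → ∀ (u : ∀ o, VV (G.Fo o)) (v : VV F), ∃ f, ∀ o, ∃ s,
  qf (G.Fo o) (G.ρ o v) (u o + G.ρ o f) = qf (G.Fo o) (m1 (G.Fo o)) s

/-- the symbol of two elements of `K` with norms in the radical has corestriction `0` -/
def Stmt_CRR : Prop := ∀ (F K : Type) [Field F] [Field K] [Algebra F K] (E : QD F K)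
  (X : FX E) (w y : VV K), (∀ v, X.q (X.N w) v = 0) → (∀ v, X.q (X.N y) v = 0) →
  X.cor (X.Q w y) = 0

/-- P8 -/
def Stmt_GP8 : Prop := ∀ (F K : Type) [Field F] [Field K] [Algebra F K] (E : QD F K)
  (G : GD F K E), RF G → ∀ n n' : VV F, qf F (m1 F) n = 0 → qf F (m1 F) n' = 0 →
  (∀ o, qf (G.Fo o) (G.ρ o n) (G.ρ o n') = 0) → qf F n n' = 0

/-! ### D. `ρ o` is onto -/

/-- abstract: a structure with a rigid element -/
def Stmt_ONA : Prop := ∀ (L B : Type) [AddCommGroup L] [Module (ZMod 2) L] [Finite L]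
  [AddCommGroup B] [Module (ZMod 2) B] (Q : L →ₗ[ZMod 2] L →ₗ[ZMod 2] B), LQ Q 0 →
  (∀ v, (∀ w, Q v w = 0) → v = 0) → (∃ t, t ≠ 0 ∧ ∀ v, Q t v = 0 → v = 0 ∨ v = t) →
  ∀ A A' : Submodule (ZMod 2) L, A' ≤ A →
  (∀ a ∈ A, ∀ b ∈ A', ∃ a' ∈ A', Q b (a + a') = 0) →
  (∀ x y, ∃ a' ∈ A', ∃ a'' ∈ A', Q (x + a') (y + a'') = 0) → A ≤ A'

/-- abstract: a local structure -/
def Stmt_ONB : Prop := ∀ (L B : Type) [AddCommGroup L] [Module (ZMod 2) L] [Finite L]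
  [AddCommGroup B] [Module (ZMod 2) B] (Q : L →ₗ[ZMod 2] L →ₗ[ZMod 2] B), LQ Q 0 →
  (∀ v, (∀ w, Q v w = 0) → v = 0) →
  (∀ v w w', Q v w = 0 ∨ Q v w' = 0 ∨ Q v (w + w') = 0) →
  (∀ v w v' w', Q v w ≠ 0 → Q v' w' ≠ 0 → Q v w = Q v' w') ∧
  (∀ A' : Submodule (ZMod 2) L, ∀ x, (∀ m, (∀ a ∈ A', Q a m = 0) → Q x m = 0) → x ∈ A') ∧
  ∀ A A' : Submodule (ZMod 2) L, (∀ a ∈ A, ∀ b ∈ A', Q a b = 0) →
  (∀ m m', (∀ b ∈ A', Q m b = 0) → (∀ b ∈ A', Q m' b = 0) → Q m m' = 0) → A ≤ A'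

/-- counting -/
def Stmt_CNT : Prop := ∀ (F K : Type) [Field F] [Field K] [Algebra F K] (E : QD F K)
  (X : FX E), Finite (VV F) → Finite (VV K) ∧
  2 * Nat.card (VV K) = Nat.card (VV F) * Nat.card {v : VV F // X.q (vm E.x) v = 0} ∧
  2 * Nat.card {w : VV K // ∃ v, X.res v = w} = Nat.card (VV F)

/-- counting, `V_x = 0` -/
def Stmt_SE0 : Prop := ∀ (F K : Type) [Field F] [Field K] [Algebra F K] (E : QD F K)
  (X : FX E), Finite (VV F) → (∀ v, X.q (vm E.x) v = 0 → v = 0) → ∀ v,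
  Nat.card {s : VV F // X.Q (X.res v) (X.res s) = 0} =
    Nat.card {s : VV F // X.q v s = 0} * Nat.card {s : VV F // X.q (v + vm E.x) s = 0}

/-- quadratic extensions of fields of local type -/
def Stmt_LQX : Prop := ∀ (F K : Type) [Field F] [Field K] [Algebra F K] (E : QD F K),
  Good F → Finite (VV F) → ND (Zf F) → ZLoc (Zf F) LinearMap.id →
  ND (Zf K) ∧ ZLoc (Zf K) LinearMap.id ∧
  2 * Nat.card {v : VV F // qf F (vm E.x) v = 0} = Nat.card (VV F)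

/-- `K = F(√-1)` nondegenerate, all corestrictions `0`: `-1` is the only symbol class... no sums
of two squares -/
def Stmt_LRD : Prop := ∀ (F K : Type) [Field F] [Field K] [Algebra F K] (E : QD F K),
  Two F → E.x = -1 → ND (Zf K) → ∀ X : FX E, (∀ w y, X.cor (X.Q w y) = 0) →
  ∀ v, X.q (m1 F) v = 0 → v = 0

/-- biquadratic extensions `K(√v)`, `K = F(√-1)`, `v` in `F` -/
def Stmt_BIQ : Prop := ∀ (F K : Type) [Field F] [Field K] [Algebra F K] (E : QD F K),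
  Two F → E.x = -1 → ∀ v : VV F, v ≠ 0 → v ≠ m1 F →
  ∃ (F2 K2 : Type) (_ : Field F2) (_ : Field K2) (_ : Algebra F F2) (_ : Algebra F2 K2)
    (_ : Algebra K K2) (E1 : QD F F2) (E2 : QD F2 K2) (E3 : QD K K2),
    vm E1.x = v ∧ E2.x = -1 ∧ (vm E3.x : VV K) = vmap (algebraMap F K) v

/-- `K = F(√-1)` of local type without rigid elements: a corestriction is not `0` -/
def Stmt_LCR : Prop := ∀ (F K : Type) [Field F] [Field K] [Algebra F K] (E : QD F K),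
  Two F → E.x = -1 → Finite (VV F) → ND (Zf K) → ZLoc (Zf K) LinearMap.id →
  (∃ w : VV K, w ≠ 0) → (¬ ∃ t, Rig (Zf K) t) → ∀ X : FX E, ∃ w y, X.cor (X.Q w y) ≠ 0

/-- P5 -/
def Stmt_GP5 : Prop := ∀ (F K : Type) [Field F] [Field K] [Algebra F K] (E : QD F K)
  (G : GD F K E), RF G → ∀ (o : G.ι) (u : VV (G.Fo o)), ∃ v, G.ρ o v = u

/-! ### E. No shared orderings (directory EVZ, helper74) -/

/-- NSO: two different stable components, localisations onto which `F` maps surjectively: no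
common ordering -/
def Stmt_NSO : Prop := ∀ (F K : Type) [Field F] [Field K] [Algebra F K] (E : QD F K),
  Two F → E.x = -1 → Finite (VV F) → ∀ (k : ℕ) (C : ZDec (Zf K) k), C.OS →
  ∀ j₁ j₂, j₁ ≠ j₂ → ∀ (F₁ F₂ : Type) [Field F₁] [Field F₂] (f₁ : F →+* F₁) (f₂ : F →+* F₂),
  FixAt E (C.p j₁) f₁ → FixAt E (C.p j₂) f₂ → (∀ u, ∃ v, vmap f₁ v = u) →
  (∀ u, ∃ v, vmap f₂ v = u) → ∀ (φ₁ : VV F₁ →ₗ[ZMod 2] ZMod 2) (φ₂ : VV F₂ →ₗ[ZMod 2] ZMod 2),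
  Ordf F₁ φ₁ → Ordf F₂ φ₂ → ¬ ∀ v : VV F, φ₁ (vmap f₁ v) = φ₂ (vmap f₂ v)

/-- P6 -/
def Stmt_GP6 : Prop := ∀ (F K : Type) [Field F] [Field K] [Algebra F K] (E : QD F K)
  (G : GD F K E), (∀ (o : G.ι) (u : VV (G.Fo o)), ∃ v, G.ρ o v = u) → ∀ o o', o ≠ o' →
  ∀ (φ : VV (G.Fo o) →ₗ[ZMod 2] ZMod 2) (φ' : VV (G.Fo o') →ₗ[ZMod 2] ZMod 2),
  Ordg (qf (G.Fo o)) (m1 (G.Fo o)) φ → Ordg (qf (G.Fo o')) (m1 (G.Fo o')) φ' →
  ¬ ∀ v, φ (G.ρ o v) = φ' (G.ρ o' v)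

/-! ### F. Existence of the data, final statement -/

/-- decomposition for the fields in which `-1` is a square -/
def Stmt_OSX : Prop := ∀ (K : Type) [Field K], Good K → Finite (VV K) →
  ∃ (k : ℕ) (C : ZDec (Zf K) k), C.OS

/-- localisation at a stable component (EVL) -/
def Stmt_LOC : Prop := ∀ (F K : Type) [Field F] [Field K] [Algebra F K] (E : QD F K),
  Two F → E.x = -1 → Finite (VV F) → ∀ (k : ℕ) (C : ZDec (Zf K) k), C.OS → ∀ j : Fin k,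
  (∀ v, C.p j v = 0 → C.p j (vmap (E.σ : K →+* K) v) = 0) →
  ∃ (F' : Type) (_ : Field F') (f : F →+* F'), FixAt E (C.p j) f

/-- localisation of a field in which `-1` is a square -/
def Stmt_LRX : Prop := ∀ (K : Type) [Field K], Good K → Finite (VV K) →
  ∀ (k : ℕ) (C : ZDec (Zf K) k), C.OS → ∀ j : Fin k,
  ∃ (L : Type) (_ : Field L) (g : K →+* L), Good L ∧ (∀ w : VV L, ∃ v, vmap g v = w) ∧
    (∀ v, vmap g v = 0 ↔ C.p j v = 0) ∧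
    ∀ v w, Zf L (vmap g v) (vmap g w) ↔ Zf K (C.p j v) (C.p j w)

/-- action of an automorphism on the components -/
def Stmt_TAU : Prop := ∀ (V : Type) [AddCommGroup V] [Module (ZMod 2) V] (Z : V → V → Prop),
  LZ Z → ∀ (k : ℕ) (C : ZDec Z k), C.OS → ∀ σ : V →ₗ[ZMod 2] V, (∀ v, σ (σ v) = v) →
  (∀ v w, Z v w → Z (σ v) (σ w)) → ∃ τ : Fin k → Fin k, (∀ j, τ (τ j) = j) ∧
  ∀ j v, C.p j v = 0 ↔ C.p (τ j) (σ v) = 0

/-- orbits of an involution on a finite set -/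
def Stmt_ORB : Prop := ∀ (k : ℕ) (τ : Fin k → Fin k), (∀ j, τ (τ j) = j) →
  ∃ (ι : Type) (_ : Fintype ι) (_ : DecidableEq ι) (jj : ι → Fin k),
  (∀ o o', (jj o = jj o' ∨ jj o = τ (jj o')) → o = o') ∧ ∀ j, ∃ o, j = jj o ∨ j = τ (jj o)

/-- the data exist -/
def Stmt_GDX : Prop := ∀ (F K : Type) [Field F] [Field K] [Algebra F K] (E : QD F K),
  Two F → E.x = -1 → Finite (VV F) → Nonempty (GD F K E)

/-- fixed localisations have only one component -/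
def Stmt_ONC : Prop := ∀ (F K : Type) [Field F] [Field K] [Algebra F K] (E : QD F K)
  (G : GD F K E) (o : G.ι), G.τ (G.jj o) = G.jj o →
  Two (G.Fo o) ∧ ¬ IsSquare (-1 : G.Fo o) ∧ Finite (VV (G.Fo o)) ∧ OneC (G.Fo o)

/-- the product statement for a field -/
def Stmt_GFP : Prop := ∀ (F K : Type) [Field F] [Field K] [Algebra F K] (E : QD F K)
  (G : GD F K E), ∃ (κ : ℕ) (χ : Fin κ → (VV F →ₗ[ZMod 2] ZMod 2)), (∀ i, χ i (m1 F) = 1) ∧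
  (∀ (c : Fin κ → ZMod 2) (u : ∀ o, VV (G.Fo o)), ∃ v, (∀ i, χ i v = c i) ∧
    ∀ o, G.ρ o v = u o) ∧
  ∀ a b, qf F a b = 0 ↔ (∀ i, χ i a * χ i b = 0) ∧ ∀ o, qf (G.Fo o) (G.ρ o a) (G.ρ o b) = 0

end Pool.Agent.EV3
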