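import Pool.Agent.EV3.GER
import Pool.Agent.EV3.GRA
import Pool.Agent.EV3.GIS
import Pool.Agent.EV3.GAT
import Pool.Agent.EV3.GPD
import Pool.Agent.EV3.GCK
import Pool.Agent.EV3.EIG
import Pool.Agent.EV3.GON
import Pool.Agent.EV3.QFC
import Pool.Agent.EV3.BFC
import Pool.Agent.EV3.FXQ
import Pool.Agent.EV3.BCR
import Pool.Agent.EV3.TYP
import Pool.Agent.EV3.KFC
import Pool.Agent.EV3.EQL
import Pool.Agent.EV3.RZC
import Pool.Agent.EV3.NSC
import Pool.Agent.EV3.GP0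
import Pool.Agent.EV3.GP1
import Pool.Agent.EV3.GP2
import Pool.Agent.EV3.NRD
import Pool.Agent.EV3.GP4
import Pool.Agent.EV3.CRR
import Pool.Agent.EV3.GP8
import Pool.Agent.EV3.ONA
import Pool.Agent.EV3.ONB
import Pool.Agent.EV3.GP5
import Pool.Agent.EV3.GP6
import Pool.Agent.EV3.ONC
import Pool.Agent.EVZ.LRX
import Pool.Agent.EV3.TAU
import Pool.Agent.EV3.ORB
import Pool.Agent.EV3.GDX
import Pool.Agent.EV3.OSX
import Pool.Agent.EV3.LOC
import Pool.Agent.EV3.GFP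
import Pool.Agent.EV3.GLUE
import Pool.Agent.EV3.ONE
import Pool.Agent.EV3.Fin
import Pool.Agent.EVZ.LCR
import Pool.Agent.EVZ.Final

/-!
EV3 / GAll: THE ELEMENTARY TYPE CONJECTURE FOR ALL FIELDS: the glue, V3 and `ETG.Stmt_ALL`.
-/

set_option autoImplicit false

namespace Pool.Agent.EV3

open Pool.Agent.EWG (VV)

theorem g_ger : Stmt_GER := ger_proof

theorem g_gra : Stmt_GRA := gra_proof g_ger

theorem g_gis : Stmt_GIS := gis_proof

theorem g_gat : Stmt_GAT := gat_proof g_ger g_gra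

theorem g_gpd : Stmt_GPD := gpd_proof g_gis g_gat

theorem g_gck : Stmt_GCK := gck_proof

theorem g_eig : Stmt_EIG := eig_proof

theorem g_gon : Stmt_GON := gon_proof g_gck g_eig

theorem g_qfc : Stmt_QFC := qfc_proof

theorem g_bfc : Stmt_BFC := bfc_proof g_qfc

theorem g_fxq : Stmt_FXQ := fxq_proof g_qfc

theorem g_bcr : Stmt_BCR := bcr_proof g_qfc g_bfc g_fxq

theorem g_typ : Stmt_TYP := typ_proof g_qfc g_fxq g_bcr

theorem g_kfc : Stmt_KFC := kfc_proof g_qfc g_fxq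

theorem g_eql : Stmt_EQL := eql_proof g_qfc

theorem g_rzc : Stmt_RZC := rzc_proof g_qfc g_fxq g_typ g_kfc

theorem g_nsc : Stmt_NSC := nsc_proof g_qfc g_fxq g_typ g_kfc

theorem g_gp0 : Stmt_GP0 := gp0_proof g_fxq g_rzc

theorem g_gp1 : Stmt_GP1 := gp1_proof g_qfc g_fxq g_typ g_nsc

theorem g_gp2 : Stmt_GP2 := gp2_proof g_qfc g_fxq g_typ g_kfc g_eql

theorem g_nrd : Stmt_NRD := nrd_proof g_fxq g_nsc

theorem g_gp4 : Stmt_GP4 := gp4_proof g_qfc g_fxq g_typ g_kfc g_nsc g_nrd g_gp1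

theorem g_crr : Stmt_CRR := crr_proof

theorem g_gp8 : Stmt_GP8 := gp8_proof g_qfc g_fxq g_typ g_kfc g_eql g_nsc g_nrd g_crr

theorem g_ona : Stmt_ONA := ona_proof

theorem g_onb : Stmt_ONB := onb_proof

theorem g_gp5 : Stmt_GP5 := gp5_proof g_qfc g_fxq g_typ g_kfc g_ona g_onb EVZ.q_lcr g_nsc g_nrd
  g_crr g_gp1

theorem g_gp6 : Stmt_GP6 := gp6_proof g_qfc g_typ EVZ.q_nso

theorem g_onc : Stmt_ONC := onc_proof

theorem g_lrx : Stmt_LRX := EVZ.q_lrx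

theorem g_tau : Stmt_TAU := tau_proof

theorem g_orb : Stmt_ORB := orb_proof

theorem g_gdx : Stmt_GDX := gdx_proof osx (loc_proof ETB.dsf ETB.tow) g_lrx g_tau g_orb

theorem g_gfp : Stmt_GFP := gfp_proof g_qfc g_bfc g_gp0 g_gp1 g_gp2 g_gra g_gp4 g_gp8 g_gp5
  g_gp6 g_gon g_gpd (by
    intro F K _ _ _ E G o
    rcases G.typ o with h | h
    · exact h.2.1
    · exact h.2.2.1)

/-- the glue -/
theorem glue : Stmt_GLUE := glue_proof g_qfc g_gdx g_onc g_gfp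

/-- THE ELEMENTARY TYPE CONJECTURE FOR ALL FIELDS -/
theorem all : ETG.Stmt_ALL := all_of_glue glue

end Pool.Agent.EV3
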