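import Pool.Agent.EV3.Top
import Pool.Agent.EWH.EX2
import Pool.Agent.ETG.Stmts

/-!
V3, GLUE: definitions.  `F` a field in which `-1` is not a square, `K = F(√-1)`; the structure of
`F` is the product of the structures of its localisations `F_o` (one for each orbit `o` of
components of `K`), of some factors of orderings, and of a part of the radical.

Abstract part: structure `Glue`.  Field part: structure `GD`.
-/

set_option autoImplicit false

namespace Pool.Agent.EV3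

open scoped BigOperators
open Pool.Agent.EWG (VV vm iu QD vm_surj vm_mul vm_one vm_eq_zero vm_eq_iff Good)
open Pool.Agent.EWH (Two BQ FX pf sy)
open Pool.Agent.ETG (EqQ LZ ZDec ZLoc ZFan Fac ND Indec Rig Zf Zh vmap vmap_vm)

/-! ### Abstract part -/

/-- `q` is a linked symbol with distinguished element `e = -1` -/
structure LQ {V B : Type} [AddCommGroup V] [Module (ZMod 2) V] [AddCommGroup B]
    [Module (ZMod 2) B] (q : V →ₗ[ZMod 2] V →ₗ[ZMod 2] B) (e : V) : Prop where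
  symm : ∀ v w, q v w = q w v
  self : ∀ v, q v v = q v e
  link : ∀ a b c d, q a b = q c d → ∃ y, q a y = q a b ∧ q c y = q a b

/-- the symbol `q` of `V` together with its localisations `ρ o : V → Vo o`, `o : ι` -/
structure Glue (ι V B : Type) [AddCommGroup V] [Module (ZMod 2) V] [AddCommGroup B]
    [Module (ZMod 2) B] (Vo Bo : ι → Type) [∀ o, AddCommGroup (Vo o)]
    [∀ o, Module (ZMod 2) (Vo o)] [∀ o, AddCommGroup (Bo o)] [∀ o, Module (ZMod 2) (Bo o)] where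
  q : V →ₗ[ZMod 2] V →ₗ[ZMod 2] B
  e : V
  qo : ∀ o, Vo o →ₗ[ZMod 2] Vo o →ₗ[ZMod 2] Bo o
  ρ : ∀ o, V →ₗ[ZMod 2] Vo o
  β : ∀ o, B →ₗ[ZMod 2] Bo o
  lq : LQ q e
  lqo : ∀ o, LQ (qo o) (ρ o e)
  comp : ∀ o a b, β o (q a b) = qo o (ρ o a) (ρ o b)
  /-- elements with all components `0` are orthogonal to the norms -/
  P0 : ∀ r n, (∀ o, ρ o r = 0) → q e n = 0 → q r n = 0
  /-- a norm at one `o` is a component of a norm with all other components `0` -/
  P1 : ∀ o d, qo o (ρ o e) d = 0 → ∃ n, q e n = 0 ∧ ρ o n = d ∧ ∀ o', o' ≠ o → ρ o' n = 0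
  /-- exchange -/
  P2 : ∀ a b c d, (∀ o, ∃ s, qo o (ρ o a) (ρ o b) + qo o (ρ o c) (ρ o d) = qo o (ρ o e) s) →
    ∃ s, q a b + q c d = q e s

section
variable {ι V B : Type} [AddCommGroup V] [Module (ZMod 2) V] [AddCommGroup B]
    [Module (ZMod 2) B] {Vo Bo : ι → Type} [∀ o, AddCommGroup (Vo o)]
    [∀ o, Module (ZMod 2) (Vo o)] [∀ o, AddCommGroup (Bo o)] [∀ o, Module (ZMod 2) (Bo o)]

/-- `φ` is an ordering of the symbol `(q, e)` -/
structure Ordg {V B : Type} [AddCommGroup V] [Module (ZMod 2) V] [AddCommGroup B]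
    [Module (ZMod 2) B] (q : V →ₗ[ZMod 2] V →ₗ[ZMod 2] B) (e : V) (φ : V →ₗ[ZMod 2] ZMod 2) :
    Prop where
  neg : φ e = 1
  mul : ∀ a b, q a b = 0 → φ a * φ b = 0

/-- P4: the cokernel of `ρ` is generated by the elements orthogonal to `v` modulo values of `e` -/
def Glue.P4 (G : Glue ι V B Vo Bo) : Prop := ∀ (u : ∀ o, Vo o) (v : V), ∃ f, ∀ o, ∃ s,
  G.qo o (G.ρ o v) (u o + G.ρ o f) = G.qo o (G.ρ o G.e) s

/-- P5: all `ρ o` are onto -/
def Glue.P5 (G : Glue ι V B Vo Bo) : Prop := ∀ o (u : Vo o), ∃ v, G.ρ o v = u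

/-- P6: no shared orderings -/
def Glue.P6 (G : Glue ι V B Vo Bo) : Prop := ∀ o o', o ≠ o' →
  ∀ (φ : Vo o →ₗ[ZMod 2] ZMod 2) (φ' : Vo o' →ₗ[ZMod 2] ZMod 2),
  Ordg (G.qo o) (G.ρ o G.e) φ → Ordg (G.qo o') (G.ρ o' G.e) φ' →
  ¬ ∀ v, φ (G.ρ o v) = φ' (G.ρ o' v)

/-- P8: the symbol of two norms is determined by its components -/
def Glue.P8 (G : Glue ι V B Vo Bo) : Prop := ∀ n n', G.q G.e n = 0 → G.q G.e n' = 0 →
  (∀ o, G.qo o (G.ρ o n) (G.ρ o n') = 0) → G.q n n' = 0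

/-- (R): a norm with all components `0` is in the radical -/
def Glue.R (G : Glue ι V B Vo Bo) : Prop := ∀ r, (∀ o, G.ρ o r = 0) → G.q G.e r = 0 →
  ∀ v, G.q r v = 0

/-- the conclusion: the symbol is, modulo a part of the radical, the product of the symbols
`qo o` and of the symbols of orderings `χ i` -/
def Glue.Prod (G : Glue ι V B Vo Bo) : Prop := ∃ (κ : ℕ) (χ : Fin κ → (V →ₗ[ZMod 2] ZMod 2)),
  (∀ i, χ i G.e = 1) ∧
  (∀ (c : Fin κ → ZMod 2) (u : ∀ o, Vo o), ∃ v, (∀ i, χ i v = c i) ∧ ∀ o, G.ρ o v = u o) ∧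
  ∀ a b, G.q a b = 0 ↔ (∀ i, χ i a * χ i b = 0) ∧ ∀ o, G.qo o (G.ρ o a) (G.ρ o b) = 0

end

/-! ### Fields: symbols and base change -/

open scoped Classical in
/-- the symbol of a field, with values in `I²/I³` -/
noncomputable def qf (F : Type) [Field F] : VV F →ₗ[ZMod 2] VV F →ₗ[ZMod 2] BQ F :=
  if h : Two F then Classical.choose (EWH.q_qbl F h) else 0

open scoped Classical in
/-- base change on `I²/I³` -/
noncomputable def bf {F L : Type} [Field F] [Field L] (f : F →+* L) : BQ F →ₗ[ZMod 2] BQ L :=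
  if h : ∃ β : BQ F →ₗ[ZMod 2] BQ L, ∀ a b : Fˣ, β (sy a b) =
    sy (Units.map f.toMonoidHom a) (Units.map f.toMonoidHom b) then Classical.choose h else 0

/-- the class of `-1` -/
noncomputable abbrev m1 (F : Type) [Field F] : VV F := vm (-1 : Fˣ)

/-- `f : F → F'` is a localisation of `F` at a component `p` of `K = F(√-1)` stable under the
conjugation -/
def FixAt {F K F' : Type} [Field F] [Field K] [Field F'] [Algebra F K] (E : QD F K)
    (p : VV K →ₗ[ZMod 2] VV K) (f : F →+* F') : Prop :=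
  Finite (VV F') ∧ ∃ (K' : Type) (_ : Field K') (_ : Algebra F' K') (E' : QD F' K')
    (g : K →+* K'), E'.x = -1 ∧ (∀ a, g (algebraMap F K a) = algebraMap F' K' (f a)) ∧
    g E.θ = E'.θ ∧ (∀ a, g (E.σ a) = E'.σ (g a)) ∧ (∀ w : VV K', ∃ v, vmap g v = w) ∧
    (∀ v, vmap g v = 0 ↔ p v = 0) ∧ ∀ v w, Zf K' (vmap g v) (vmap g w) ↔ Zf K (p v) (p w)

/-- `r : F → L` is a localisation of `F` at a component `p` of `K = F(√-1)` not stable under the
conjugation -/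
def FreeAt {F K L : Type} [Field F] [Field K] [Field L] [Algebra F K] (E : QD F K)
    (p : VV K →ₗ[ZMod 2] VV K) (r : F →+* L) : Prop :=
  Good L ∧ Finite (VV L) ∧ ∃ g : K →+* L, (∀ a, g (algebraMap F K a) = r a) ∧
    (∀ w : VV L, ∃ v, vmap g v = w) ∧ (∀ v, vmap g v = 0 ↔ p v = 0) ∧
    ∀ v w, Zf L (vmap g v) (vmap g w) ↔ Zf K (p v) (p w)

/-- linear form of `FixAt` -/
structure FixL {F K F' K' : Type} [Field F] [Field K] [Field F'] [Field K'] [Algebra F K]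
    [Algebra F' K'] {E : QD F K} {E' : QD F' K'} (X : FX E) (p : VV K →ₗ[ZMod 2] VV K)
    (ρ : VV F →ₗ[ZMod 2] VV F') (β : BQ F →ₗ[ZMod 2] BQ F') (X' : FX E')
    (γ : VV K →ₗ[ZMod 2] VV K') : Prop where
  ex : E'.x = -1
  res : ∀ v, X'.res (ρ v) = γ (X.res v)
  N : ∀ w, X'.N (γ w) = ρ (X.N w)
  σ : ∀ w, X'.σ (γ w) = γ (X.σ w)
  q : ∀ a b, X'.q (ρ a) (ρ b) = β (X.q a b)
  cor : ∀ w y, X'.cor (X'.Q (γ w) (γ y)) = β (X.cor (X.Q w y))
  surj : ∀ w, ∃ v, γ v = w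
  ker : ∀ v, γ v = 0 ↔ p v = 0
  iso : ∀ v w, X'.Q (γ v) (γ w) = 0 ↔ X.Q (p v) (p w) = 0

/-- linear form of `FreeAt` -/
structure FreL {F K L : Type} [Field F] [Field K] [Field L] [Algebra F K] {E : QD F K}
    (X : FX E) (p : VV K →ₗ[ZMod 2] VV K) (ρ : VV F →ₗ[ZMod 2] VV L)
    (γ : VV K →ₗ[ZMod 2] VV L) : Prop where
  res : ∀ v, ρ v = γ (X.res v)
  e : ρ (m1 F) = 0
  surj : ∀ w, ∃ v, γ v = w
  ker : ∀ v, γ v = 0 ↔ p v = 0
  iso : ∀ v w, qf L (γ v) (γ w) = 0 ↔ X.Q (p v) (p w) = 0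

/-- all data of the glue: `E` is `K = F(√-1)`, `C` the components of `K`, `τ` the action of the
conjugation on the components, `ι` the set of orbits, `jj o` a component in the orbit `o`,
`r o : F → Fo o` the localisation at `o` -/
structure GD (F K : Type) [Field F] [Field K] [Algebra F K] (E : QD F K) where
  two : Two F
  ex : E.x = -1
  fin : Finite (VV F)
  X : FX E
  k : ℕ
  C : ZDec (Zf K) k
  OS : C.OS
  τ : Fin k → Fin k
  ττ : ∀ j, τ (τ j) = j
  hτ : ∀ j v, C.p j v = 0 ↔ C.p (τ j) (X.σ v) = 0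
  ι : Type
  [fι : Fintype ι]
  [dι : DecidableEq ι]
  jj : ι → Fin k
  jinj : ∀ o o', (jj o = jj o' ∨ jj o = τ (jj o')) → o = o'
  jsur : ∀ j, ∃ o, j = jj o ∨ j = τ (jj o)
  Fo : ι → Type
  [iFo : ∀ o, Field (Fo o)]
  r : ∀ o, F →+* Fo o
  typ : ∀ o, (τ (jj o) = jj o ∧ FixAt E (C.p (jj o)) (r o)) ∨
    (τ (jj o) ≠ jj o ∧ FreeAt E (C.p (jj o)) (r o))

attribute [instance] GD.fι GD.dι GD.iFo

/-- base change to `Fo o` on square classes -/
noncomputable def GD.ρ {F K : Type} [Field F] [Field K] [Algebra F K] {E : QD F K}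
    (G : GD F K E) (o : G.ι) : VV F →ₗ[ZMod 2] VV (G.Fo o) := vmap (G.r o)

/-- base change to `Fo o` on `I²/I³` -/
noncomputable def GD.β {F K : Type} [Field F] [Field K] [Algebra F K] {E : QD F K}
    (G : GD F K E) (o : G.ι) : BQ F →ₗ[ZMod 2] BQ (G.Fo o) := bf (G.r o)

/-- `φ` is (the sign of) an ordering of `F` -/
structure Ordf (F : Type) [Field F] (φ : VV F →ₗ[ZMod 2] ZMod 2) : Prop where
  neg : φ (m1 F) = 1
  mul : ∀ a b : Fˣ, pf a b = 0 → φ (vm a) * φ (vm b) = 0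

end Pool.Agent.EV3
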