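import Pool.Agent.EV3.GStmts

/-!
# GER: elements with all components zero
-/

set_option autoImplicit false

namespace Pool.Agent.EV3

open scoped BigOperators
open Pool.Agent.EWG (VV vm iu QD vm_surj vm_mul vm_one vm_eq_zero vm_eq_iff Good)
open Pool.Agent.EWH (Two BQ FX pf sy)
open Pool.Agent.ETG (EqQ LZ ZDec ZLoc ZFan Fac ND Indec Rig Zf Zh vmap vmap_vm)

namespace GER_

theorem two_mul_zero {V : Type} [AddCommGroup V] [Module (ZMod 2) V] (v : V) : v + v = 0 := by
  have h : (2 : ZMod 2) • v = v + v := by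
    rw [show (2 : ZMod 2) = 1 + 1 by decide, add_smul, one_smul]
  rw [← h, show (2 : ZMod 2) = 0 by decide, zero_smul]

end GER_

open GER_ in
theorem ger_proof : Stmt_GER := by
  intro ι V B _ _ _ _ _ _ Vo Bo _ _ _ _ G r hr v
  obtain ⟨s, hs⟩ := G.P2 r v 0 0 fun o => ⟨0, by simp [hr o]⟩
  simp only [map_zero, add_zero] at hs
  obtain ⟨x, hx1, hx2⟩ := G.lq.link r v G.e s hs
  have hq : ∀ o, G.qo o (G.ρ o G.e) (G.ρ o x) = 0 := fun o => by
    rw [← G.comp, hx2, G.comp, hr o, map_zero, LinearMap.zero_apply]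
  choose n hn1 hn2 hn3 using fun o => G.P1 o (G.ρ o x) (hq o)
  refine ⟨x + ∑ o, n o, fun o => ?_, ?_, ?_⟩
  · rw [map_add, map_sum, Finset.sum_eq_single o (fun o' _ h => hn3 o' o (Ne.symm h))
      (fun h => absurd (Finset.mem_univ o) h), hn2]
    exact two_mul_zero _
  · rw [map_add, map_sum, hx2, Finset.sum_eq_zero fun o _ => hn1 o, add_zero]
  · rw [map_add, map_add, map_sum, map_sum, Finset.sum_eq_zero fun o _ => hn1 o,
      Finset.sum_eq_zero fun o _ => G.P0 r (n o) hr (hn1 o), add_zero, add_zero, hx1, hx2]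

end Pool.Agent.EV3
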