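import Pool.Agent.EV3.GStmts

set_option autoImplicit false

namespace Pool.Agent.EV3

open scoped BigOperators
open Pool.Agent.EWG (VV vm iu QD vm_surj vm_mul vm_one vm_eq_zero vm_eq_iff Good)
open Pool.Agent.EWH (Two BQ FX pf sy)
open Pool.Agent.ETG (EqQ LZ ZDec ZLoc ZFan Fac ND Indec Rig Zf Zh vmap vmap_vm)

namespace GFP_

theorem ρ_m1 {F K : Type} [Field F] [Field K] [Algebra F K] {E : QD F K} (G : GD F K E)
    (o : G.ι) : G.ρ o (m1 F) = m1 (G.Fo o) := by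
  show vmap (G.r o) (vm (-1 : Fˣ)) = vm (-1)
  rw [vmap_vm]
  congr 1
  apply Units.ext
  show (G.r o) ((-1 : Fˣ) : F) = ((-1 : (G.Fo o)ˣ) : G.Fo o)
  simp

theorem two_o {F K : Type} [Field F] [Field K] [Algebra F K] {E : QD F K} (G : GD F K E)
    (o : G.ι) : Two (G.Fo o) := Two.map (G.r o) G.two

/-- the abstract glue of a field -/
noncomputable def glue (hQFC : Stmt_QFC) (hBFC : Stmt_BFC) (h0 : Stmt_GP0) (h1 : Stmt_GP1)
    (h2 : Stmt_GP2) {F K : Type} [Field F] [Field K] [Algebra F K] {E : QD F K}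
    (G : GD F K E) :
    Glue G.ι (VV F) (BQ F) (fun o => VV (G.Fo o)) (fun o => BQ (G.Fo o)) where
  q := qf F
  e := m1 F
  qo := fun o => qf (G.Fo o)
  ρ := G.ρ
  β := G.β
  lq := (hQFC F G.two).2.1
  lqo := fun o => by
    rw [ρ_m1]
    exact (hQFC (G.Fo o) (two_o G o)).2.1
  comp := fun o a b => hBFC F (G.Fo o) (G.r o) G.two a b
  P0 := h0 F K E G
  P1 := by
    intro o d hd
    rw [ρ_m1] at hd
    exact h1 F K E G o d hd
  P2 := by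
    intro a b c d h
    refine h2 F K E G a b c d ?_
    intro o
    obtain ⟨s, hs⟩ := h o
    rw [ρ_m1] at hs
    exact ⟨s, hs⟩

end GFP_

open GFP_ in
theorem gfp_proof (hQFC : Stmt_QFC) (hBFC : Stmt_BFC) (h0 : Stmt_GP0) (h1 : Stmt_GP1)
    (h2 : Stmt_GP2) (hGRA : Stmt_GRA) (hGP4 : Stmt_GP4) (hGP8 : Stmt_GP8) (hGP5 : Stmt_GP5)
    (hGP6 : Stmt_GP6) (hGON : Stmt_GON) (hGPD : Stmt_GPD) (hfin : ∀ (F K : Type) [Field F]
      [Field K] [Algebra F K] (E : QD F K) (G : GD F K E) (o : G.ι), Finite (VV (G.Fo o))) :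
    Stmt_GFP := by
  intro F K _ _ _ E G
  haveI := G.fin
  haveI : ∀ o : G.ι, Finite (VV (G.Fo o)) := hfin F K E G
  let L := glue hQFC hBFC h0 h1 h2 G
  have hR : RF G := hGRA G.ι (VV F) (BQ F) (fun o => VV (G.Fo o)) (fun o => BQ (G.Fo o)) L
  have h5 : ∀ (o : G.ι) (u : VV (G.Fo o)), ∃ v, G.ρ o v = u := hGP5 F K E G hR
  have h4 : L.P4 := by
    intro u v
    obtain ⟨f, hf⟩ := hGP4 F K E G hR u v
    refine ⟨f, fun o => ?_⟩
    obtain ⟨s, hs⟩ := hf o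
    refine ⟨s, ?_⟩
    show qf (G.Fo o) (G.ρ o v) (u o + G.ρ o f) = qf (G.Fo o) (G.ρ o (m1 F)) s
    rw [ρ_m1]
    exact hs
  have h8 : L.P8 := hGP8 F K E G hR
  have h6 : L.P6 := by
    intro o o' ho φ φ' hφ hφ'
    have e1 : L.ρ o L.e = m1 (G.Fo o) := ρ_m1 G o
    have e2 : L.ρ o' L.e = m1 (G.Fo o') := ρ_m1 G o'
    rw [e1] at hφ
    rw [e2] at hφ'
    exact hGP6 F K E G h5 o o' ho φ φ' hφ hφ'
  exact hGPD G.ι (VV F) (BQ F) (fun o => VV (G.Fo o)) (fun o => BQ (G.Fo o)) L h8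
    (hGON G.ι (VV F) (BQ F) (fun o => VV (G.Fo o)) (fun o => BQ (G.Fo o)) L h4 h5 h6)

end Pool.Agent.EV3
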