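import Pool.Agent.EV3.GStmts

/-!
P0: elements with all components `0` are orthogonal to the norms.
-/

set_option autoImplicit false

namespace Pool.Agent.EV3

open scoped BigOperators
open Pool.Agent.EWG (VV vm iu QD vm_surj vm_mul vm_one vm_eq_zero vm_eq_iff Good)
open Pool.Agent.EWH (Two BQ FX pf sy)
open Pool.Agent.ETG (EqQ LZ ZDec ZLoc ZFan Fac ND Indec Rig Zf Zh vmap vmap_vm)

/-- GP0 -/
theorem gp0_proof (hFXQ : Stmt_FXQ) (hRZC : Stmt_RZC) : Stmt_GP0 := by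
  intro F K _ _ _ E G r n hr hn
  have hq : G.X.q = qf F := (hFXQ F K E G.two G.X).1
  rw [← hq] at hn ⊢
  have hn' : G.X.q (vm E.x) n = 0 := by
    rw [G.ex]
    exact hn
  obtain ⟨w, hw⟩ := (G.X.im_N n).1 hn'
  rw [← hw, G.X.q_symm, ← G.X.cor_Q, G.X.Q_symm, (hRZC F K E G).2 r hr w, map_zero]

end Pool.Agent.EV3
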