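import Pool.Agent.ETG.IfaceV
import Pool.Agent.EWH.EX2

/-!
V3 = the elementary type theorem for fields in which `-1` is not a square (problem MP_d26ff6_al).
Interface of the squad EV3.  Proof: /team-store/MP_d26ff6_V3_h65.md, recipes:
/team-store/MP_d26ff6_EV3.md.

All fields are subfields of an algebraically closed field `Ω`, `i ^ 2 = -1`, `Fi F i = F(i)`.
-/

set_option autoImplicit false

namespace Pool.Agent.EV3

open scoped BigOperators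
open Pool.Agent.EWG (VV vm iu QD vm_surj vm_mul vm_one vm_eq_zero vm_eq_iff)
open Pool.Agent.EWH (Two BQ FX pf sy)
open Pool.Agent.ETG (EqQ LZ LZe ZDec ZLoc ZFan Fac ND Indec Rig Zf Zh vmap vmap_vm ETE ETZ)
open CommonSlot (IsLinked)

/-! ### Subfields -/

section Sub
variable {Ω : Type} [Field Ω]

/-- `F(i)` -/
def Fi (F : Subfield Ω) (i : Ω) : Subfield Ω := F ⊔ Subfield.closure {i}

theorem le_Fi (F : Subfield Ω) (i : Ω) : F ≤ Fi F i := le_sup_left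

theorem i_mem (F : Subfield Ω) (i : Ω) : i ∈ Fi F i :=
  (le_sup_right : Subfield.closure {i} ≤ Fi F i) (Subfield.subset_closure (Set.mem_singleton i))

theorem Fi_mono {F F' : Subfield Ω} (h : F ≤ F') (i : Ω) : Fi F i ≤ Fi F' i :=
  sup_le_sup_right h _

/-- `F(i)` as an `F`-algebra -/
instance algFi (F : Subfield Ω) (i : Ω) : Algebra F (Fi F i) :=
  (Subfield.inclusion (le_Fi F i)).toAlgebra

/-- the map on square classes of an inclusion -/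
noncomputable def vi {F F' : Subfield Ω} (h : F ≤ F') : VV F →ₗ[ZMod 2] VV F' :=
  vmap (Subfield.inclusion h)

/-- the class of `-1` -/
noncomputable def em (F : Type) [Field F] : VV F := vm (-1 : Fˣ)

/-- standing hypotheses -/
structure Sit (i : Ω) (F : Subfield Ω) : Prop where
  two : (2 : Ω) ≠ 0
  sq : i ^ 2 = -1
  ni : i ∉ F
  fin : Finite (VV F)

/-- `K` is obtained from `F` by finitely many square roots -/
inductive TwoExt (F : Subfield Ω) : Subfield Ω → Prop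
  | refl : TwoExt F F
  | step (K : Subfield Ω) (θ : Ω) : TwoExt F K → θ ^ 2 ∈ K →
      TwoExt F (K ⊔ Subfield.closure {θ})

/-- `F'` is a union of extensions obtained by finitely many square roots -/
def Tw (F F' : Subfield Ω) : Prop :=
  F ≤ F' ∧ ∀ x ∈ F', ∃ K, TwoExt F K ∧ K ≤ F' ∧ x ∈ K

/-- the quadratic extension `F(i)/F` -/
structure Qi {i : Ω} {F : Subfield Ω} (E : QD F (Fi F i)) : Prop where
  x : E.x = -1
  θ : ((E.θ : Fi F i) : Ω) = i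

/-- `F'` is a localisation of `F` at the projection `π` of the square classes of `F(i)` -/
structure Lcz {i : Ω} {F F' : Subfield Ω} (h : F ≤ F') {W : Type} [AddCommGroup W]
    [Module (ZMod 2) W] (ZW : W → W → Prop) (π : VV (Fi F i) →ₗ[ZMod 2] W) : Prop where
  ni : i ∉ F'
  tw : Tw F F'
  surj : ∀ w : VV (Fi F' i), ∃ v, vi (Fi_mono h i) v = w
  ker : ∀ v, vi (Fi_mono h i) v = 0 ↔ π v = 0
  Z : ∀ v v', Zh (Fi F' i) (vi (Fi_mono h i) v) (vi (Fi_mono h i) v') ↔ ZW (π v) (π v')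

/-- `F'` is a localisation of the field `K ∋ i` at the projection `π` -/
structure Lcf {K F' : Subfield Ω} (h : K ≤ F') {W : Type} [AddCommGroup W]
    [Module (ZMod 2) W] (ZW : W → W → Prop) (π : VV K →ₗ[ZMod 2] W) : Prop where
  surj : ∀ w : VV F', ∃ v, vi h v = w
  ker : ∀ v, vi h v = 0 ↔ π v = 0
  Z : ∀ v v', Zh F' (vi h v) (vi h v') ↔ ZW (π v) (π v')

/-- stable under the conjugation of `F(i)/F` -/
def Stb {i : Ω} {F : Subfield Ω} (E : QD F (Fi F i)) {W : Type} [AddCommGroup W]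
    [Module (ZMod 2) W] (π : VV (Fi F i) →ₗ[ZMod 2] W) : Prop :=
  ∀ w : (Fi F i)ˣ, π (vm w) = 0 → π (vm (iu F (E.nm w))) = 0

end Sub

/-! ### Orderings -/

/-- `φ` is (the sign of) an ordering of `F` -/
structure Ordf (F : Type) [Field F] (φ : VV F →ₗ[ZMod 2] ZMod 2) : Prop where
  neg : φ (em F) = 1
  mul : ∀ a b : Fˣ, pf a b = 0 → φ (vm a) * φ (vm b) = 0

/-! ### Hypotheses: fields in which `-1` is a square -/

/-- hypothesis on the fields in which `-1` is a square: decomposition -/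
def Stmt_OSX : Prop := ∀ (K : Type) [Field K], EWG.Good K → Finite (VV K) →
  ∃ (k : ℕ) (C : ZDec (Zh K) k), C.OS

/-- hypothesis on the fields in which `-1` is a square: descent -/
def Stmt_DSH : Prop := ∀ (F K : Type) [Field F] [Field K] [Algebra F K], EWG.Good F →
  Finite (VV F) → ∀ (E : QD F K) (k' : ℕ) (C' : ZDec (Zh K) k'), C'.OS →
  ∃ (k : ℕ) (C : ZDec (Zh F) k), C.OS ∧ ∀ j, C.p j (vm E.x) ≠ 0 ∨
    ∃ j', ETG.ZFree (Zh F) (Zh K) (ETG.rv F K) (C.p j) (C'.p j')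

/-- hypothesis on the fields in which `-1` is a square: elementary type -/
def Stmt_ETH : Prop := ∀ (K : Type) [Field K], EWG.Good K → Finite (VV K) →
  ETE (Zh K) (em K)

/-! ### Localisation -/

/-- LOCALISATION at a component stable under conjugation -/
def Stmt_LOC : Prop := ∀ (Ω : Type) [Field Ω] [IsAlgClosed Ω] (i : Ω) (F : Subfield Ω),
  Sit i F → ∀ E : QD F (Fi F i), Qi E → ∀ (k : ℕ) (C : ZDec (Zh (Fi F i)) k), C.OS →
  ∀ j, Stb E (C.p j) → ∃ (F' : Subfield Ω) (h : F ≤ F'), Lcz h (Zh (Fi F i)) (C.p j)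

/-- localisation of a field in which `-1` is a square -/
def Stmt_LCK : Prop := ∀ (Ω : Type) [Field Ω] [IsAlgClosed Ω] (K : Subfield Ω),
  EWG.Good K → Finite (VV K) → ∀ (k : ℕ) (C : ZDec (Zh K) k), C.OS →
  ∀ j, ∃ (F' : Subfield Ω) (h : K ≤ F'), Lcf h (Zh K) (C.p j)

/-! ### Two orderings -/

/-- two localisations with orderings over the same ordering of `F`: after conjugation
`F₁(i) ∩ F₂(i) = (F₁ ∩ F₂)(i)` and the orderings agree on `F₁ ∩ F₂` -/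
def Stmt_CNJ : Prop := ∀ (Ω : Type) [Field Ω] [IsAlgClosed Ω] (i : Ω) (F F₁ F₂ : Subfield Ω)
  (h₁ : F ≤ F₁) (h₂ : F ≤ F₂), (2 : Ω) ≠ 0 → i ^ 2 = -1 → i ∉ F₁ → i ∉ F₂ → Tw F F₁ → Tw F F₂ →
  ∀ (φ₁ : VV F₁ →ₗ[ZMod 2] ZMod 2) (φ₂ : VV F₂ →ₗ[ZMod 2] ZMod 2), Ordf F₁ φ₁ → Ordf F₂ φ₂ →
  (∀ v : VV F, φ₁ (vi h₁ v) = φ₂ (vi h₂ v)) →
  ∃ γ : Ω ≃+* Ω, (∀ x ∈ F, γ x = x) ∧
    Fi F₁ i ⊓ Fi (F₂.map (γ : Ω →+* Ω)) i = Fi (F₁ ⊓ F₂.map (γ : Ω →+* Ω)) i ∧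
    ∀ (a : Ω) (ha : a ≠ 0) (ha₁ : a ∈ F₁) (b : Ω) (hb : b ≠ 0) (hb₂ : b ∈ F₂), γ b = a →
      φ₁ (vm (Units.mk0 (⟨a, ha₁⟩ : F₁) (by simpa [Subtype.ext_iff] using ha))) =
      φ₂ (vm (Units.mk0 (⟨b, hb₂⟩ : F₂) (by simpa [Subtype.ext_iff] using hb)))

/-- NO SHARED ORDERING: different stable components, localisations with orderings -/
def Stmt_NSO : Prop := ∀ (Ω : Type) [Field Ω] [IsAlgClosed Ω] (i : Ω) (F : Subfield Ω),
  Sit i F → ∀ E : QD F (Fi F i), Qi E → ∀ (k : ℕ) (C : ZDec (Zh (Fi F i)) k), C.OS →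
  ∀ j₁ j₂, j₁ ≠ j₂ → Stb E (C.p j₁) → Stb E (C.p j₂) →
  ∀ (F₁ F₂ : Subfield Ω) (h₁ : F ≤ F₁) (h₂ : F ≤ F₂), Lcz h₁ (Zh (Fi F i)) (C.p j₁) →
  Lcz h₂ (Zh (Fi F i)) (C.p j₂) → Function.Surjective (vi h₁) → Function.Surjective (vi h₂) →
  ∀ (φ₁ : VV F₁ →ₗ[ZMod 2] ZMod 2) (φ₂ : VV F₂ →ₗ[ZMod 2] ZMod 2), Ordf F₁ φ₁ → Ordf F₂ φ₂ →
  ¬ ∀ v : VV F, φ₁ (vi h₁ v) = φ₂ (vi h₂ v)

end Pool.Agent.EV3
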