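import Pool.Agent.EV3.GStmts

/-!
V3, module LRD: `K = F(√-1)` nondegenerate and all corestrictions `0`.
-/

set_option autoImplicit false

namespace Pool.Agent.EV3

open scoped BigOperators
open Pool.Agent.EWG (VV vm iu QD vm_surj vm_mul vm_one vm_eq_zero vm_eq_iff Good)
open Pool.Agent.EWH (Two BQ FX pf sy)
open Pool.Agent.ETG (EqQ LZ ZDec ZLoc ZFan Fac ND Indec Rig Zf Zh vmap vmap_vm)

namespace LRD_

theorem goodK {F K : Type} [Field F] [Field K] [Algebra F K] (E : QD F K) (h2 : Two F)
    (hx : E.x = -1) : Good K := by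
  refine ⟨?_, (E.θ : K), ?_⟩
  · intro h
    apply h2
    apply (algebraMap F K).injective
    rw [map_ofNat, map_zero]
    exact h
  · rw [E.sq, hx]
    simp

theorem add_self' {M : Type} [AddCommGroup M] [Module (ZMod 2) M] (v : M) : v + v = 0 := by
  have h : (1 + 1 : ZMod 2) • v = 0 := by
    rw [show (1 + 1 : ZMod 2) = 0 from rfl, zero_smul]
  rwa [add_smul, one_smul] at h

theorem eq_of_add {M : Type} [AddCommGroup M] [Module (ZMod 2) M] {v w : M} (h : v + w = 0) :
    v = w := by
  have h2 : v + w + w = w := by rw [h, zero_add]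
  rw [add_assoc, add_self', add_zero] at h2
  exact h2

end LRD_

open LRD_ in
theorem lrd_proof (hQFC : Stmt_QFC) (hFXQ : Stmt_FXQ) : Stmt_LRD := by
  intro F K _ _ _ E h2 hx hND X hcor v hv
  have hK : Good K := goodK E h2 hx
  obtain ⟨-, -, -, -, hG⟩ := hQFC K hK.two
  obtain ⟨hm, hz, -, -⟩ := hG hK
  obtain ⟨-, hQ, -, -⟩ := hFXQ F K E h2 X
  have hND' : ∀ w, (∀ y, X.Q w y = 0) → w = 0 := by
    intro w h
    apply hND w
    intro y
    rw [← hz, ← hQ]
    exact h y
  have he : (vm E.x : VV F) = m1 F := by rw [hx]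
  have h1 : ∀ w u, X.q (X.N w) u = 0 := by
    intro w u
    rw [← X.cor_Q]
    exact hcor _ _
  have h3 : ∀ r, (∀ u, X.q r u = 0) → r = 0 ∨ r = m1 F := by
    intro r hr
    rw [← he, ← X.ker_res]
    apply hND'
    intro w
    obtain ⟨f, hf⟩ := X.F4 r w (hr _)
    rw [map_add, ← X.rb_q, hr f, map_zero, add_zero] at hf
    exact hf
  obtain ⟨w, rfl⟩ := (X.im_N v).1 (by rw [he]; exact hv)
  rcases h3 _ (h1 w) with h | h
  · exact h
  · -- all elements are norms
    have h4 : ∀ u, u = 0 ∨ u = m1 F := by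
      intro u
      have h5 : X.q (vm E.x) u = 0 := by
        rw [he, ← h]
        exact h1 w u
      obtain ⟨y, rfl⟩ := (X.im_N u).1 h5
      exact h3 _ (h1 y)
    have h6 : ∀ u, X.res u = 0 := by
      intro u
      rw [X.ker_res, he]
      exact h4 u
    have h7 : ∀ y, X.N y = 0 → y = 0 := by
      intro y hy
      obtain ⟨u, hu⟩ := (X.ker_N y).1 hy
      rw [← hu, h6]
    have h8 : ∀ y, y = 0 ∨ y = w := by
      intro y
      rcases h4 (X.N y) with h9 | h9
      · exact Or.inl (h7 y h9)
      · right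
        apply eq_of_add
        apply h7
        rw [map_add, h9, h, add_self']
    have h10 : w = 0 := by
      apply hND'
      intro y
      rcases h8 y with rfl | rfl
      · exact map_zero _
      · rw [X.Q_self]
        have : (vm (-1 : Kˣ) : VV K) = 0 := hm
        rw [this, map_zero]
    rw [h10, map_zero]

end Pool.Agent.EV3
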