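import Pool.Agent.EV3.GStmts
import Pool.Agent.ETG.All
import Pool.Agent.ETG.IDC
import Pool.Agent.ETG.ZMP

/-!
V3, GLUE: localisation of a field in which `-1` is a square.
-/

set_option autoImplicit false

namespace Pool.Agent.EV3

open scoped BigOperators
open Pool.Agent.EWG (VV vm iu QD vm_surj vm_mul vm_one vm_eq_zero vm_eq_iff Good)
open Pool.Agent.EWH (Two BQ FX pf sy)
open Pool.Agent.ETG (EqQ LZ ZDec ZLoc ZFan Fac ND Indec Rig Zf Zh vmap vmap_vm)

theorem lrx_proof (hREA : ETG.Stmt_REA) : Stmt_LRX := by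
  intro K _ hK hfin k C hC j
  have hZFL : LZ (Zf K) := (ETG.a_zfl K hK).1
  obtain ⟨h1, h2, h3, h4, s, hs1, hs2, hs3, hs4⟩ :=
    ETG.lzr_proof ETG.idc_proof (VV K) (Zf K) hZFL k C hC j
  let Ω : Type := AlgebraicClosure K
  let K0 : Subfield Ω := (algebraMap K Ω).fieldRange
  let f : K →+* K0 := (algebraMap K Ω).rangeRestrictField
  have hfb : Function.Bijective f := ⟨f.injective, by
    rintro ⟨y, x, hx⟩
    exact ⟨x, Subtype.ext hx⟩⟩
  let e : K ≃+* K0 := RingEquiv.ofBijective f hfb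
  let g0 : K0 →+* K := (e.symm : K0 →+* K)
  have hg0f : g0.comp f = RingHom.id K := by
    ext x
    exact e.symm_apply_apply x
  have hfg0 : f.comp g0 = RingHom.id K0 := by
    refine RingHom.ext ?_
    intro x
    exact e.apply_symm_apply x
  have hv1 : ∀ v, vmap g0 (vmap f v) = v := by
    intro v
    rw [ETG.vmap_comp, hg0f, ETG.vmap_id]
  have hv2 : ∀ v, vmap f (vmap g0 v) = v := by
    intro v
    rw [ETG.vmap_comp, hfg0, ETG.vmap_id]
  have hK0 : Good K0 := hK.map f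
  have hM : ETG.Mark K0 (ETG.ZR (Zf K) (LinearMap.range (C.p j)))
      ((C.p j).rangeRestrict ∘ₗ vmap g0) := by
    refine ⟨hK0, ?_, vmap f ∘ₗ s, ?_, ?_, ?_, ?_⟩
    · exact Finite.of_surjective (fun v => vmap f v) (fun w => ⟨vmap g0 w, hv2 w⟩)
    · intro w
      rw [LinearMap.comp_apply, LinearMap.comp_apply, hv1]
      exact hs1 w
    · intro w u hu
      have h := ETG.a_zmp K K0 f hK _ _ (hs2 w (vmap g0 u) hu)
      rw [hv2] at h
      exact h
    · intro v v' h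
      exact hs3 _ _ (ETG.a_zmp K0 K g0 hK0 _ _ h)
    · intro w w' h
      exact ETG.a_zmp K K0 f hK _ _ (hs4 _ _ h)
  obtain ⟨E, hE, b1, b2, b3, b4⟩ := hREA Ω (LinearMap.range (C.p j))
    (ETG.ZR (Zf K) (LinearMap.range (C.p j))) h1 h2 h3 h4 K0 _ hM
  refine ⟨E, inferInstance, (Subfield.inclusion hE).comp f, b1, ?_, ?_, ?_⟩
  · intro w
    obtain ⟨v, hv⟩ := b2 w
    refine ⟨vmap g0 v, ?_⟩
    rw [← ETG.vmap_comp, hv2]
    exact hv
  · intro v
    rw [← ETG.vmap_comp, b3, LinearMap.comp_apply, hv1, ← Subtype.coe_inj]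
    rfl
  · intro v w
    rw [← ETG.vmap_comp, ← ETG.vmap_comp, b4, LinearMap.comp_apply, LinearMap.comp_apply, hv1, hv1]
    rfl

end Pool.Agent.EV3

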