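import Pool.Agent.EV3.Top
import Pool.Agent.ETG.QIS

/-!
EV3: quaternionic structures given by a relation `Z` and an element `e = -1`: existence,
uniqueness, products, radical, group extensions (arbitrary `e`).
-/

set_option autoImplicit false
set_option linter.unusedSectionVars false

namespace Pool.Agent.EV3

open Pool.Agent.ETG (Zf Zh ETZ ETE LZe ND ZLoc Rig QOf QOfE EqQ InQ)
open Pool.Agent.EWG (VV vm QD Good)

namespace QS_

section
variable {V : Type} [AddCommGroup V] [Module (ZMod 2) V]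

theorem dbl (v : V) : v + v = 0 := by
  have h : ((1 : ZMod 2) + 1) • v = 0 := by
    have : (1 : ZMod 2) + 1 = 0 := by decide
    rw [this, zero_smul]
  rwa [add_smul, one_smul] at h

theorem eq_of_add {a b : V} (h : a + b = 0) : a = b := by
  calc a = a + (b + b) := by rw [dbl, add_zero]
    _ = (a + b) + b := (add_assoc _ _ _).symm
    _ = b := by rw [h, zero_add]

theorem canc (a b : V) : a + (a + b) = b := by rw [← add_assoc, dbl, zero_add]

variable {Z : V → V → Prop} {e : V}

theorem zl (h : LZe Z e) (a : V) : Z 0 a := h.symm _ _ (h.zero a)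

theorem addl (hZ : LZe Z e) {a b c : V} (h1 : Z a c) (h2 : Z b c) : Z (a + b) c :=
  hZ.symm _ _ (hZ.add _ _ _ (hZ.symm _ _ h1) (hZ.symm _ _ h2))

theorem e_same (h : LZe Z e) {a b c : V} (hz : Z a (b + c)) : EqQ Z a b a c := by
  refine ⟨b, ?_, ?_, ?_⟩
  · rw [dbl]; exact h.zero a
  · rw [add_comm]; exact hz
  · rw [dbl]; exact zl h b

theorem e_same_iff (h : LZe Z e) (a b c : V) : EqQ Z a b a c ↔ Z a (b + c) := by
  refine ⟨?_, e_same h⟩
  rintro ⟨x, h1, h2, -⟩
  have h3 := h.add _ _ _ h1 h2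
  have h4 : b + x + (c + x) = b + c := by
    have h5 : b + x + (c + x) = b + c + (x + x) := by abel
    rw [h5, dbl, add_zero]
  rwa [h4] at h3

theorem e_zero_iff (h : LZe Z e) (a b : V) : EqQ Z a b 0 0 ↔ Z a b := by
  constructor
  · rintro ⟨x, h1, -, h2⟩
    rw [add_zero] at h2
    have h3 := h.add _ _ _ h1 h2
    rwa [add_assoc, dbl, add_zero] at h3
  · intro hz
    refine ⟨0, ?_, ?_, ?_⟩
    · rw [add_zero]; exact hz
    · exact zl h _
    · exact h.zero _

theorem e_refl (h : LZe Z e) (a b : V) : EqQ Z a b a b :=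
  e_same h (by rw [dbl]; exact h.zero a)

theorem e_symm {a b c d : V} (he : EqQ Z a b c d) : EqQ Z c d a b := by
  obtain ⟨x, h1, h2, h3⟩ := he
  exact ⟨x, h2, h1, by rw [add_comm]; exact h3⟩

/-- `q(a, b) = q(b, a)`: take `x = a + b + e` -/
theorem e_swap (h : LZe Z e) (a b : V) : EqQ Z a b b a := by
  refine ⟨a + b + e, ?_, ?_, h.alt _⟩
  · have h1 : b + (a + b + e) = (a + e) + (b + b) := by abel
    rw [h1, dbl, add_zero]; exact h.alt a
  · have h1 : a + (a + b + e) = (a + a) + (b + e) := by abel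
    rw [h1, dbl, zero_add]; exact h.alt b

/-- the setoid of equality of symbols -/
def std (Z : V → V → Prop) (e : V) (h : LZe Z e) : Setoid (V × V) where
  r p p' := EqQ Z p.1 p.2 p'.1 p'.2
  iseqv := ⟨fun p => e_refl h p.1 p.2, fun he => e_symm he,
    fun h1 h2 => h.trans _ _ _ _ _ _ h1 h2⟩

theorem mk_eq (h : LZe Z e) (a b c d : V) :
    (Quotient.mk (std Z e h) (a, b) = Quotient.mk (std Z e h) (c, d)) ↔ EqQ Z a b c d := by
  rw [Quotient.eq]
  exact Iff.rfl

/-- the quaternionic structure of `(V, Z, e)` -/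
def str (Z : V → V → Prop) (e : V) (h : LZe Z e) : QS.QStruct where
  G := Multiplicative V
  Q := Quotient (std Z e h)
  neg := Multiplicative.ofAdd e
  zero := Quotient.mk (std Z e h) (0, 0)
  q := fun a b => Quotient.mk (std Z e h) (Multiplicative.toAdd a, Multiplicative.toAdd b)
  exp_two := fun a => by
    apply Multiplicative.toAdd.injective
    rw [toAdd_mul, toAdd_one]
    exact dbl _
  surj := by
    intro β
    induction β using Quotient.inductionOn with
    | h p => exact ⟨Multiplicative.ofAdd p.1, Multiplicative.ofAdd p.2, rfl⟩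
  qs1 := by
    intro a
    rw [mk_eq, e_zero_iff h, toAdd_mul, toAdd_ofAdd, add_comm]
    exact h.alt _
  qs2 := by
    intro a b
    rw [mk_eq]
    exact e_swap h _ _
  qs3 := by
    intro a b c
    rw [mk_eq, mk_eq, e_same_iff h, e_zero_iff h, toAdd_mul]
  qs4 := by
    intro a b c d he
    rw [mk_eq] at he
    obtain ⟨x, h1, h2, -⟩ := he
    refine ⟨Multiplicative.ofAdd x, ?_, ?_⟩
    · rw [mk_eq]
      exact e_same h h1
    · rw [mk_eq]
      exact e_same h h2

end

end QS_

open QS_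

/-- existence -/
theorem qex {V : Type} [AddCommGroup V] [Module (ZMod 2) V] {Z : V → V → Prop} {e : V}
    (h : LZe Z e) : ∃ S, QOfE Z e S := by
  refine ⟨QS_.str Z e h, MulEquiv.refl _, rfl, ?_⟩
  intro a b
  exact (QS_.mk_eq h a b 0 0).trans (QS_.e_zero_iff h a b)

/-- uniqueness -/
theorem qis {V V' : Type} [AddCommGroup V] [Module (ZMod 2) V] [AddCommGroup V']
    [Module (ZMod 2) V'] {Z : V → V → Prop} {Z' : V' → V' → Prop} {e : V} {e' : V'}
    (θ : V ≃+ V') (hZ : ∀ a b, Z a b ↔ Z' (θ a) (θ b)) (he : θ e = e') {S T : QS.QStruct}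
    (hS : QOfE Z e S) (hT : QOfE Z' e' T) : QS.Iso S T := by
  obtain ⟨φ, hSn, hφ⟩ := hS
  obtain ⟨ψ, hTn, hψ⟩ := hT
  refine ⟨(φ.symm.trans (AddEquiv.toMultiplicative θ)).trans ψ, ?_, ?_⟩
  · rw [hSn, hTn]
    simp only [MulEquiv.trans_apply, MulEquiv.symm_apply_apply]
    rw [← he]
    rfl
  · have key : ∀ a b : S.G, S.q a b = S.zero ↔
        T.q ((φ.symm.trans (AddEquiv.toMultiplicative θ)).trans ψ a)
          ((φ.symm.trans (AddEquiv.toMultiplicative θ)).trans ψ b) = T.zero := by
      intro a b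
      obtain ⟨u, rfl⟩ := φ.surjective a
      obtain ⟨v, rfl⟩ := φ.surjective b
      have h1 := hφ u.toAdd v.toAdd
      have h2 := hψ (θ u.toAdd) (θ v.toAdd)
      rw [ofAdd_toAdd, ofAdd_toAdd] at h1
      rw [h1, hZ, ← h2]
      simp only [MulEquiv.trans_apply, MulEquiv.symm_apply_apply]
      rfl
    intro a b c d
    rw [ETG.QIS_.q_eq_iff, ETG.QIS_.q_eq_iff]
    constructor
    · rintro ⟨x, h1, h2, h3⟩
      refine ⟨(φ.symm.trans (AddEquiv.toMultiplicative θ)).trans ψ x, ?_, ?_, ?_⟩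
      · rw [← map_mul, ← key, h1]
      · rw [← map_mul, ← key, h2]
      · rw [← map_mul, ← key, h3]
    · rintro ⟨y, h1, h2, h3⟩
      obtain ⟨x, rfl⟩ := ((φ.symm.trans (AddEquiv.toMultiplicative θ)).trans ψ).surjective y
      refine ⟨x, ?_, ?_, ?_⟩
      · rw [key, map_mul, h1]
      · rw [key, map_mul, h2]
      · rw [key, map_mul, h3]

/-- isomorphic structures -/
theorem ete_of_equiv {V V' : Type} [AddCommGroup V] [Module (ZMod 2) V] [AddCommGroup V']
    [Module (ZMod 2) V'] {Z : V → V → Prop} {Z' : V' → V' → Prop} {e : V} {e' : V'}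
    (θ : V ≃+ V') (hZ : ∀ a b, Z a b ↔ Z' (θ a) (θ b)) (he : θ e = e') (h : ETE Z' e') :
    ETE Z e := by
  intro S hS
  obtain ⟨φ, hSn, hφ⟩ := hS
  refine h S ⟨(AddEquiv.toMultiplicative θ).symm.trans φ, ?_, ?_⟩
  · rw [hSn, MulEquiv.trans_apply]
    congr 1
    apply (AddEquiv.toMultiplicative θ).injective
    rw [MulEquiv.apply_symm_apply, ← he]
    rfl
  · intro a b
    obtain ⟨a, rfl⟩ := θ.surjective a
    obtain ⟨b, rfl⟩ := θ.surjective b
    rw [← hZ, ← hφ a b]
    have h1 : ∀ v : V, (AddEquiv.toMultiplicative θ).symm (Multiplicative.ofAdd (θ v)) =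
        Multiplicative.ofAdd v := by
      intro v
      apply (AddEquiv.toMultiplicative θ).injective
      rw [MulEquiv.apply_symm_apply]
      rfl
    rw [MulEquiv.trans_apply, MulEquiv.trans_apply, h1, h1]

theorem qie_proof : Stmt_QIE := by
  intro V V' _ _ _ _ Z Z' e e' θ hZ he h
  exact ete_of_equiv θ.toAddEquiv hZ he h

/-- product of two structures -/
theorem qpr {U U' : Type} [AddCommGroup U] [Module (ZMod 2) U] [AddCommGroup U']
    [Module (ZMod 2) U'] {ZU : U → U → Prop} {ZU' : U' → U' → Prop} {e : U} {e' : U'}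
    (hZU : LZe ZU e) (hZU' : LZe ZU' e') (hE : ETE ZU e) (hE' : ETE ZU' e') :
    ETE (fun a b : U × U' => ZU a.1 b.1 ∧ ZU' a.2 b.2) (e, e') := by
  intro S hS
  obtain ⟨S1, hS1⟩ := qex hZU
  obtain ⟨S2, hS2⟩ := qex hZU'
  have h1 := hE S1 hS1
  have h2 := hE' S2 hS2
  have hP : QOfE (fun a b : U × U' => ZU a.1 b.1 ∧ ZU' a.2 b.2) (e, e') (QS.prod S1 S2) := by
    obtain ⟨φ1, hn1, hφ1⟩ := hS1
    obtain ⟨φ2, hn2, hφ2⟩ := hS2
    refine ⟨(MulEquiv.prodMultiplicative U U').trans (φ1.prodCongr φ2), Prod.ext hn1 hn2, ?_⟩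
    intro a b
    have e1 := hφ1 a.1 b.1
    have e2 := hφ2 a.2 b.2
    constructor
    · intro h
      have h' := Prod.ext_iff.1 h
      exact ⟨e1.1 h'.1, e2.1 h'.2⟩
    · intro h
      exact Prod.ext (e1.2 h.1) (e2.2 h.2)
  have hiso : QS.Iso (QS.prod S1 S2) S := qis (AddEquiv.refl _) (fun a b => Iff.rfl) rfl hP hS
  exact QS.ElemType.iso _ _ hiso (QS.ElemType.prod _ _ h1 h2)

section
variable {V : Type} [AddCommGroup V] [Module (ZMod 2) V]

theorem lz_true (e : V) : LZe (fun _ _ : V => True) e where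
  symm := fun _ _ _ => trivial
  zero := fun _ => trivial
  add := fun _ _ _ _ _ => trivial
  alt := fun _ => trivial
  trans := fun _ _ _ _ _ _ _ _ => ⟨0, trivial, trivial, trivial⟩

theorem card_eq {Z : V → V → Prop} {e : V} {S : QS.QStruct} (hS : QOfE Z e S) :
    Nat.card S.G = Nat.card V := by
  obtain ⟨φ, -, -⟩ := hS
  rw [← Nat.card_congr φ.toEquiv]
  exact Nat.card_congr Multiplicative.toAdd

theorem neg_eq_one {Z : V → V → Prop} {e : V} {S : QS.QStruct} (hS : QOfE Z e S) :
    S.neg = 1 ↔ e = 0 := by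
  obtain ⟨φ, hn, -⟩ := hS
  rw [hn, ← map_one φ, φ.injective.eq_iff]
  exact Iff.rfl

theorem all_zero {Z : V → V → Prop} {e : V} (hZ : ∀ a b, Z a b) {S : QS.QStruct}
    (hS : QOfE Z e S) (a b : S.G) : S.q a b = S.zero := by
  obtain ⟨φ, -, hφ⟩ := hS
  obtain ⟨a, rfl⟩ := φ.surjective a
  obtain ⟨b, rfl⟩ := φ.surjective b
  exact (hφ (Multiplicative.toAdd a) (Multiplicative.toAdd b)).2 (hZ _ _)

end

/-- the degenerate structure on `ZMod 2` -/
theorem rad_one (r : ZMod 2) : ETE (fun _ _ : ZMod 2 => True) r := by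
  intro S hS
  have hc : Nat.card S.G = 2 := by
    rw [card_eq hS, Nat.card_eq_fintype_card, ZMod.card]
  by_cases h : S.neg = 1
  · exact QS.ElemType.L10 S hc h (all_zero (fun _ _ => trivial) hS)
  · exact QS.ElemType.L11 S hc h (all_zero (fun _ _ => trivial) hS)

theorem rad_pi : ∀ (n : ℕ) (r : Fin n → ZMod 2), ETE (fun _ _ : Fin n → ZMod 2 => True) r := by
  intro n
  induction n with
  | zero =>
    intro r S hS
    refine QS.ElemType.L0 S ?_
    rw [card_eq hS, Nat.card_eq_fintype_card, Fintype.card_fun, Fintype.card_fin, pow_zero]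
  | succ n ih =>
    intro r
    let e1 : (Fin (n + 1) → ZMod 2) ≃+ ZMod 2 × (Fin n → ZMod 2) :=
      { toFun := fun f => (f 0, fun i => f i.succ)
        invFun := fun p => Fin.cons p.1 p.2
        left_inv := by
          intro f
          funext i
          refine Fin.cases ?_ (fun i => ?_) i
          · rfl
          · rfl
        right_inv := by
          rintro ⟨a, f⟩
          rfl
        map_add' := fun f g => rfl }
    refine ete_of_equiv e1 (e' := (r 0, fun i => r i.succ)) ?_ rfl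
      (qpr (lz_true (r 0)) (lz_true (fun i : Fin n => r i.succ)) (rad_one _) (ih _))
    intro a b
    exact ⟨fun _ => ⟨trivial, trivial⟩, fun _ => trivial⟩

/-- totally degenerate structures -/
theorem rad_all {V : Type} [AddCommGroup V] [Module (ZMod 2) V] [Finite V] (Z : V → V → Prop)
    (e : V) (hZ : ∀ a b, Z a b) : ETE Z e := by
  have hf : Module.Finite (ZMod 2) V := Module.Finite.of_finite
  have θ := LinearEquiv.ofFinrankEq V (Fin (Module.finrank (ZMod 2) V) → ZMod 2)
    (R := ZMod 2) (by rw [Module.finrank_fin_fun])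
  exact ete_of_equiv θ.toAddEquiv (Z' := fun _ _ => True)
    (fun a b => ⟨fun _ => trivial, fun _ => hZ a b⟩) rfl (rad_pi _ _)

theorem pi_lz {ι : Type} (W : ι → Type) [∀ j, AddCommGroup (W j)]
    [∀ j, Module (ZMod 2) (W j)] (Z : ∀ j, W j → W j → Prop) (e : ∀ j, W j)
    (hL : ∀ j, LZe (Z j) (e j)) :
    LZe (fun a b : (∀ j, W j) => ∀ j, Z j (a j) (b j)) e := by
  refine ⟨fun a b h j => (hL j).symm _ _ (h j), fun a j => (hL j).zero _,
    fun a b c h1 h2 j => (hL j).add _ _ _ (h1 j) (h2 j), fun a j => (hL j).alt _, ?_⟩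
  rintro a b c d a' b' ⟨x, h1, h2, h3⟩ ⟨y, h4, h5, h6⟩
  choose z hz using fun j => (hL j).trans (a j) (b j) (c j) (d j) (a' j) (b' j)
    ⟨x j, h1 j, h2 j, h3 j⟩ ⟨y j, h4 j, h5 j, h6 j⟩
  exact ⟨z, fun j => (hz j).1, fun j => (hz j).2.1, fun j => (hz j).2.2⟩

/-- product of a family -/
theorem pi_prod : ∀ (k : ℕ) (W : Fin k → Type) [∀ j, AddCommGroup (W j)]
    [∀ j, Module (ZMod 2) (W j)] (Z : ∀ j, W j → W j → Prop) (e : ∀ j, W j),
    (∀ j, LZe (Z j) (e j)) → (∀ j, ETE (Z j) (e j)) →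
    ETE (fun a b : (∀ j, W j) => ∀ j, Z j (a j) (b j)) e := by
  intro k
  induction k with
  | zero =>
    intro W _ _ Z e hL hE S hS
    refine QS.ElemType.L0 S ?_
    rw [card_eq hS]
    exact Nat.card_unique
  | succ n ih =>
    intro W _ _ Z e hL hE
    have h1 := ih (fun j => W j.succ) (fun j => Z j.succ) (fun j => e j.succ)
      (fun j => hL j.succ) (fun j => hE j.succ)
    have hL' := pi_lz (fun j : Fin n => W j.succ) (fun j => Z j.succ) (fun j => e j.succ)
      (fun j => hL j.succ)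
    let e1 : (∀ j, W j) ≃+ W 0 × (∀ j : Fin n, W j.succ) :=
      { toFun := fun f => (f 0, fun i => f i.succ)
        invFun := fun p => Fin.cons p.1 p.2
        left_inv := by
          intro f
          funext i
          refine Fin.cases ?_ (fun i => ?_) i
          · rfl
          · rfl
        right_inv := by
          rintro ⟨a, f⟩
          rfl
        map_add' := fun f g => rfl }
    refine ete_of_equiv e1 (e' := (e 0, fun i : Fin n => e i.succ)) ?_ rfl
      (qpr (hL 0) hL' (hE 0) h1)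
    intro a b
    constructor
    · intro h
      exact ⟨h 0, fun j => h j.succ⟩
    · intro h j
      refine Fin.cases ?_ (fun i => ?_) j
      · exact h.1
      · exact h.2 i

/-- structures modulo a part of the radical -/
theorem rad_quot {V W : Type} [AddCommGroup V] [Module (ZMod 2) V] [Finite V] [AddCommGroup W]
    [Module (ZMod 2) W] {Z : V → V → Prop} {ZW : W → W → Prop} {e : V} {e' : W}
    (hL : LZe ZW e') (π : V →ₗ[ZMod 2] W) (hs : Function.Surjective π)
    (hZ : ∀ v w, Z v w ↔ ZW (π v) (π w)) (he : π e = e') (hE : ETE ZW e') : ETE Z e := by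
  -- a section which hits `e`
  obtain ⟨σ, hσ, hσe⟩ : ∃ σ : W →ₗ[ZMod 2] V, (∀ w, π (σ w) = w) ∧
      (e' ≠ 0 → σ e' = e) := by
    obtain ⟨σ0, hσ0⟩ := LinearMap.exists_rightInverse_of_surjective π
      (LinearMap.range_eq_top.mpr hs)
    have hσ0' : ∀ w, π (σ0 w) = w := fun w => by
      have := congrArg (fun f => f w) hσ0
      simpa using this
    by_cases h0 : e' = 0
    · exact ⟨σ0, hσ0', fun h => absurd h0 h⟩
    · obtain ⟨f, hf⟩ : ∃ f : W →ₗ[ZMod 2] ZMod 2, f e' ≠ 0 := by
        by_contra hcon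
        push Not at hcon
        exact h0 ((Module.forall_dual_apply_eq_zero_iff (ZMod 2) e').1 hcon)
      have hf1 : f e' = 1 := by
        have h2 : ∀ a : ZMod 2, a ≠ 0 → a = 1 := by decide
        exact h2 _ hf
      refine ⟨σ0 + f.smulRight (e + σ0 e'), fun w => ?_, fun _ => ?_⟩
      · rw [LinearMap.add_apply, LinearMap.smulRight_apply, map_add, map_smul, map_add, hσ0',
          hσ0', he, dbl, smul_zero, add_zero]
      · rw [LinearMap.add_apply, LinearMap.smulRight_apply, hf1, one_smul, add_comm e, canc]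
  let R := LinearMap.ker π
  -- the isomorphism
  have hk : ∀ v, v + σ (π v) ∈ R := by
    intro v
    rw [LinearMap.mem_ker, map_add, hσ, dbl]
  let θ : V ≃+ R × W :=
    { toFun := fun v => (⟨v + σ (π v), hk v⟩, π v)
      invFun := fun p => p.1 + σ p.2
      left_inv := fun v => by
        show v + σ (π v) + σ (π v) = v
        rw [add_assoc, dbl, add_zero]
      right_inv := by
        rintro ⟨⟨r, hr⟩, w⟩
        have hr' : π r = 0 := hr
        have h1 : π (r + σ w) = w := by rw [map_add, hr', zero_add, hσ]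
        apply Prod.ext
        · apply Subtype.ext
          show r + σ w + σ (π (r + σ w)) = r
          rw [h1, add_assoc, dbl, add_zero]
        · exact h1
      map_add' := fun v w => by
        apply Prod.ext
        · apply Subtype.ext
          show v + w + σ (π (v + w)) = (v + σ (π v)) + (w + σ (π w))
          rw [map_add, map_add]
          abel
        · exact map_add π v w }
  refine ete_of_equiv θ (Z' := fun a b => True ∧ ZW a.2 b.2)
    (e' := (⟨e + σ (π e), hk e⟩, e')) ?_ ?_ ?_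
  · intro a b
    rw [hZ]
    exact ⟨fun h => ⟨trivial, h⟩, fun h => h.2⟩
  · apply Prod.ext
    · rfl
    · exact he
  · exact qpr (lz_true (⟨e + σ (π e), hk e⟩ : R)) hL (rad_all _ _ (fun _ _ => trivial)) hE

theorem qde_proof : Stmt_QDE := by
  intro V _ _ _ Z e hZ k W _ _ Zj ej π hsurj hiff he hE
  -- lifts
  have hlift : ∀ (j : Fin k) (a : W j), ∃ v, π j v = a ∧ ∀ i, i ≠ j → π i v = 0 := by
    intro j a
    obtain ⟨v, hv⟩ := hsurj (Function.update (fun _ => 0) j a)
    refine ⟨v, ?_, fun i hi => ?_⟩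
    · rw [hv j, Function.update_self]
    · rw [hv i, Function.update_of_ne hi]
  have h0 : ∀ (j : Fin k) (w : W j), Zj j 0 w ∧ Zj j w 0 := by
    intro j w
    obtain ⟨v, hv, -⟩ := hlift j w
    have h1 := (hiff 0 v).1 (zl hZ v) j
    have h2 := (hiff v 0).1 (hZ.zero v) j
    rw [map_zero, hv] at h1 h2
    exact ⟨h1, h2⟩
  have key : ∀ (j : Fin k) (v w : V), (∀ i, i ≠ j → π i v = 0) →
      (Z v w ↔ Zj j (π j v) (π j w)) := by
    intro j v w hv
    rw [hiff]
    constructor
    · intro h; exact h j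
    · intro h i
      by_cases hij : i = j
      · subst hij; exact h
      · rw [hv i hij]; exact (h0 i _).1
  have hL : ∀ j, LZe (Zj j) (ej j) := by
    intro j
    refine ⟨fun a b h => ?_, fun a => (h0 j a).2, fun a b c h1 h2 => ?_, fun a => ?_, ?_⟩
    · obtain ⟨v, hv, hv'⟩ := hlift j a
      obtain ⟨w, hw, hw'⟩ := hlift j b
      rw [← hv, ← hw] at h ⊢
      exact (key j w v hw').1 (hZ.symm _ _ ((key j v w hv').2 h))
    · obtain ⟨v, hv, hv'⟩ := hlift j a
      obtain ⟨w, hw, hw'⟩ := hlift j b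
      obtain ⟨u, hu, hu'⟩ := hlift j c
      rw [← hv, ← hw] at h1
      rw [← hv, ← hu] at h2
      rw [← hv, ← hw, ← hu, ← map_add]
      exact (key j v (w + u) hv').1 (hZ.add _ _ _ ((key j v w hv').2 h1) ((key j v u hv').2 h2))
    · obtain ⟨v, hv, hv'⟩ := hlift j a
      rw [← hv, ← he j, ← map_add]
      exact (key j v _ hv').1 (hZ.alt v)
    · have hEq : ∀ (a b c d : V), (∀ i, i ≠ j → π i a = 0) → (∀ i, i ≠ j → π i b = 0) →
          (∀ i, i ≠ j → π i c = 0) → (∀ i, i ≠ j → π i d = 0) →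
          (EqQ (Zj j) (π j a) (π j b) (π j c) (π j d) ↔ EqQ Z a b c d) := by
        intro a b c d ha hb hc hd
        constructor
        · rintro ⟨x, h1, h2, h3⟩
          obtain ⟨y, hy, hy'⟩ := hlift j x
          rw [← hy, ← map_add] at h1 h2
          rw [← hy, ← map_add] at h3
          refine ⟨y, (key j _ _ ha).2 h1, (key j _ _ hc).2 h2, (key j _ _ ?_).2 h3⟩
          intro i hi
          rw [map_add, ha i hi, hc i hi, add_zero]
        · rintro ⟨y, h1, h2, h3⟩
          refine ⟨π j y, ?_, ?_, ?_⟩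
          · rw [← map_add]; exact (key j _ _ ha).1 h1
          · rw [← map_add]; exact (key j _ _ hc).1 h2
          · rw [← map_add]
            refine (key j _ _ ?_).1 h3
            intro i hi
            rw [map_add, ha i hi, hc i hi, add_zero]
      intro a b c d a' b' h1 h2
      obtain ⟨a, rfl, ha⟩ := hlift j a
      obtain ⟨b, rfl, hb⟩ := hlift j b
      obtain ⟨c, rfl, hc⟩ := hlift j c
      obtain ⟨d, rfl, hd⟩ := hlift j d
      obtain ⟨a', rfl, ha'⟩ := hlift j a'
      obtain ⟨b', rfl, hb'⟩ := hlift j b'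
      rw [hEq _ _ _ _ ha hb hc hd] at h1
      rw [hEq _ _ _ _ hc hd ha' hb'] at h2
      rw [hEq _ _ _ _ ha hb ha' hb']
      exact hZ.trans _ _ _ _ _ _ h1 h2
  refine rad_quot (pi_lz W Zj ej hL) (LinearMap.pi π) ?_ ?_ ?_ (pi_prod k W Zj ej hL hE)
  · intro w
    obtain ⟨v, hv⟩ := hsurj w
    exact ⟨v, funext hv⟩
  · intro v w
    exact hiff v w
  · funext j
    exact he j

/-- the structure of a real closed field -/
theorem ql1_proof : Stmt_QL1 := by
  rintro V _ _ Z e ⟨h1, h2, h3⟩ S hS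
  have hf : Finite V := by
    have h : Set.Finite (Set.univ : Set V) := by
      refine Set.Finite.subset (Set.toFinite {0, e}) ?_
      intro v _
      rcases h1 v with h | h
      · left; exact h
      · right; exact h
    exact Set.finite_univ_iff.1 h
  refine QS.ElemType.L1 S ?_ ?_ ?_
  · rw [card_eq hS]
    rw [Nat.card_eq_two_iff]
    refine ⟨0, e, fun h => h2 h.symm, ?_⟩
    ext v
    simp only [Set.mem_insert_iff, Set.mem_singleton_iff, Set.mem_univ, iff_true]
    exact h1 v
  · rw [ne_eq, neg_eq_one hS]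
    exact h2
  · obtain ⟨φ, hn, hφ⟩ := hS
    rw [hn, ne_eq, hφ]
    exact h3

end Pool.Agent.EV3
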