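import Pool.Agent.EV3.QSE
import Pool.Agent.ETCG.FewQS

/-!
EV3: group extensions, structures with two quaternions, and structures with few sums of two
squares (arbitrary `e = -1`).
-/

set_option autoImplicit false
set_option linter.unusedSectionVars false

namespace Pool.Agent.EV3

open Pool.Agent.ETG (Zf Zh ETZ ETE LZe ND ZLoc Rig QOf QOfE EqQ InQ)
open Pool.Agent.EWG (VV vm QD Good)
open QS_

/-- few sums of two squares -/
theorem few {V : Type} [AddCommGroup V] [Module (ZMod 2) V] [Finite V] {Z : V → V → Prop} {e : V}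
    (h : Nat.card {v // Z e v} ≤ 2) : ETE Z e := by
  intro S hS
  obtain ⟨φ, hn, hφ⟩ := hS
  have hf : Finite S.G := Finite.of_equiv _ φ.toEquiv
  refine ETCG.few_struct S hf ?_
  refine le_trans (le_of_eq ?_) h
  symm
  refine Nat.card_congr ((Equiv.subtypeEquiv (Multiplicative.ofAdd.trans φ.toEquiv) ?_))
  intro v
  rw [hn]
  exact (hφ e v).symm

/-- group extension by an element `t`: the relation in the four cases -/
theorem qxe {V U : Type} [AddCommGroup V] [Module (ZMod 2) V] [AddCommGroup U]
    [Module (ZMod 2) U] {Z : V → V → Prop} {ZU : U → U → Prop} {e t : V} {eU : U}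
    (ρ : V →ₗ[ZMod 2] U) (τ : V →ₗ[ZMod 2] ZMod 2) (hZU : LZe ZU eU)
    (hρ : Function.Surjective ρ) (hk : ∀ v, ρ v = 0 ↔ v = 0 ∨ v = t) (ht : τ t = 1)
    (he : τ e = 0) (heU : ρ e = eU)
    (h00 : ∀ a b, τ a = 0 → τ b = 0 → (Z a b ↔ ZU (ρ a) (ρ b)))
    (h01 : ∀ a b, τ a = 0 → τ b = 1 → (Z a b ↔ a = 0))
    (h10 : ∀ a b, τ a = 1 → τ b = 0 → (Z a b ↔ b = 0))
    (h11 : ∀ a b, τ a = 1 → τ b = 1 → (Z a b ↔ a + b = e))
    (hE : ETE ZU eU) : ETE Z e := by
  intro S hS
  obtain ⟨T, hT⟩ := qex hZU
  have hET : QS.ElemType (QS.ext T) := QS.ElemType.ext T (hE T hT)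
  obtain ⟨φ, hneg, hφ⟩ := hT
  have ht0 : ρ t = 0 := (hk t).2 (Or.inr rfl)
  have zc : ∀ a : ZMod 2, a = 0 ∨ a = 1 := by decide
  -- kernel of `(ρ, τ)`
  have hinj : ∀ v, ρ v = 0 → τ v = 0 → v = 0 := by
    intro v h1 h2
    rcases (hk v).1 h1 with h | h
    · exact h
    · rw [h, ht] at h2; exact absurd h2 (by decide)
  have hinj2 : ∀ v w, ρ v = ρ w → τ v = τ w → v = w := by
    intro v w h1 h2
    apply eq_of_add
    apply hinj
    · rw [map_add, h1, dbl]
    · rw [map_add, h2, dbl]
  -- the isomorphism
  let f : Multiplicative V →* T.G × Multiplicative (ZMod 2) :=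
    { toFun := fun v => (φ (Multiplicative.ofAdd (ρ (Multiplicative.toAdd v))),
        Multiplicative.ofAdd (τ (Multiplicative.toAdd v)))
      map_one' := by
        simp only [toAdd_one, map_zero, ofAdd_zero, map_one]
        rfl
      map_mul' := by
        intro v w
        simp only [toAdd_mul, map_add, ofAdd_add, map_mul, Prod.mk_mul_mk] }
  have hf : ∀ v : V, f (Multiplicative.ofAdd v) =
    (φ (Multiplicative.ofAdd (ρ v)), Multiplicative.ofAdd (τ v)) := fun v => rfl
  have hbij : Function.Bijective f := by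
    constructor
    · intro v w h
      obtain ⟨v, rfl⟩ := Multiplicative.ofAdd.surjective v
      obtain ⟨w, rfl⟩ := Multiplicative.ofAdd.surjective w
      rw [hf, hf, Prod.mk.injEq] at h
      have h1 : ρ v = ρ w := Multiplicative.ofAdd.injective (φ.injective h.1)
      have h2 : τ v = τ w := Multiplicative.ofAdd.injective h.2
      rw [hinj2 v w h1 h2]
    · rintro ⟨u, ε⟩
      obtain ⟨u, rfl⟩ := φ.surjective u
      obtain ⟨u, rfl⟩ := Multiplicative.ofAdd.surjective u
      obtain ⟨ε, rfl⟩ := Multiplicative.ofAdd.surjective ε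
      obtain ⟨v, rfl⟩ := hρ u
      by_cases hv : τ v = ε
      · refine ⟨Multiplicative.ofAdd v, ?_⟩
        rw [hf, hv]
      · refine ⟨Multiplicative.ofAdd (v + t), ?_⟩
        have h1 : ρ (v + t) = ρ v := by rw [LinearMap.map_add, ht0, add_zero]
        have h2 : τ (v + t) = ε := by
          rw [LinearMap.map_add, ht]
          rcases zc (τ v) with h | h <;> rcases zc ε with h' | h' <;>
            rw [h, h'] at hv <;> rw [h, h'] <;> first | exact absurd rfl hv | decide
        rw [hf, h1, h2]
  let g : Multiplicative V ≃* T.G × Multiplicative (ZMod 2) := MulEquiv.ofBijective f hbij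
  have hφ1 : ∀ u : U, φ (Multiplicative.ofAdd u) = 1 ↔ u = 0 := by
    intro u
    constructor
    · intro h
      rw [← map_one φ] at h
      exact Multiplicative.ofAdd.injective (φ.injective h)
    · rintro rfl
      rw [ofAdd_zero, map_one]
  have hρ0 : ∀ a, τ a = 0 → (ρ a = 0 ↔ a = 0) := fun a ha =>
    ⟨fun h => hinj a h ha, fun h => by rw [h, map_zero]⟩
  have hQ : QOfE Z e (QS.ext T) := by
    refine ⟨g, ?_, ?_⟩
    · show ((T.neg, 1) : T.G × Multiplicative (ZMod 2)) =
        (φ (Multiplicative.ofAdd (ρ e)), Multiplicative.ofAdd (τ e))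
      rw [he, heU, hneg]
      rfl
    · intro a b
      have hz : (QS.ext T).q (g (Multiplicative.ofAdd a)) (g (Multiplicative.ofAdd b)) =
          (QS.ext T).zero ↔ QS.extMap T (g (Multiplicative.ofAdd a))
            (g (Multiplicative.ofAdd b)) = (T.zero, 1) := by
        constructor
        · intro h; exact congrArg Subtype.val h
        · intro h; exact Subtype.ext h
      refine hz.trans ?_
      change QS.extMap T (φ (Multiplicative.ofAdd (ρ a)), Multiplicative.ofAdd (τ a))
        (φ (Multiplicative.ofAdd (ρ b)), Multiplicative.ofAdd (τ b)) = (T.zero, 1) ↔ Z a b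
      have hab : T.q (φ (Multiplicative.ofAdd (ρ a))) (φ (Multiplicative.ofAdd (ρ b))) = T.zero ↔
        ZU (ρ a) (ρ b) := hφ _ _
      rcases zc (τ a) with h1 | h1 <;> rcases zc (τ b) with h2 | h2 <;> rw [h1, h2]
      · rw [ofAdd_zero, QS.extMap_one_one, Prod.mk.injEq, hab, h00 a b h1 h2]
        exact ⟨fun h => h.1, fun h => ⟨h, rfl⟩⟩
      · rw [ofAdd_zero, QS.extMap_one_x, Prod.mk.injEq, hφ1, h01 a b h1 h2, hρ0 a h1]
        constructor
        · rintro ⟨-, h⟩
          exact h
        · intro h
          refine ⟨?_, h⟩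
          rw [hab, h, map_zero]
          exact hZU.symm _ _ (hZU.zero _)
      · rw [ofAdd_zero, QS.extMap_x_one, Prod.mk.injEq, hφ1, h10 a b h1 h2, hρ0 b h2]
        constructor
        · rintro ⟨-, h⟩
          exact h
        · intro h
          refine ⟨?_, h⟩
          rw [hab, h, map_zero]
          exact hZU.zero _
      · have hs : T.neg * φ (Multiplicative.ofAdd (ρ a)) * φ (Multiplicative.ofAdd (ρ b)) =
            φ (Multiplicative.ofAdd (eU + ρ a + ρ b)) := by
          rw [hneg, ← map_mul, ← map_mul, ofAdd_add, ofAdd_add]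
        rw [QS.extMap_x_x, Prod.mk.injEq, h11 a b h1 h2]
        have hiff : T.neg * φ (Multiplicative.ofAdd (ρ a)) * φ (Multiplicative.ofAdd (ρ b)) = 1 ↔
            a + b = e := by
          rw [hs, hφ1, ← heU, ← map_add, ← map_add, hρ0]
          · constructor
            · intro h
              symm
              apply eq_of_add
              rw [← add_assoc]
              exact h
            · intro h
              rw [add_assoc, h, dbl]
          · rw [map_add, map_add, he, h1, h2]
            decide
        constructor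
        · rintro ⟨-, h⟩
          exact hiff.1 h
        · intro h
          refine ⟨?_, ?_⟩
          · rw [hab]
            have h3 : b = a + e := by rw [← h, canc]
            rw [h3, map_add, heU]
            exact hZU.alt _
          · exact hiff.2 h
  have hiso : QS.Iso (QS.ext T) S := qis (AddEquiv.refl V) (fun a b => Iff.rfl) rfl hQ hS
  exact QS.ElemType.iso _ _ hiso hET

/-- structures with two quaternions -/
theorem qle {V : Type} [AddCommGroup V] [Module (ZMod 2) V] [Finite V] {Z : V → V → Prop} {e : V}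
    (hZ : LZe Z e) (hN : ND Z) (he : e ≠ 0)
    (h2 : ∀ a b c d, ¬ Z a b → ¬ Z c d → EqQ Z a b c d) : ETE Z e := by
  intro S hS
  -- the number of elements
  obtain ⟨n, hn⟩ : ∃ n : ℕ, Nat.card V = 2 ^ n := by
    refine ⟨Module.finrank (ZMod 2) V, ?_⟩
    have h := Module.natCard_eq_pow_finrank (K := ZMod 2) (V := V)
    rwa [Nat.card_zmod] at h
  -- `q(e, -)` has two values
  obtain ⟨w, hw⟩ : ∃ w, ¬ Z e w := by
    by_contra hcon
    push Not at hcon
    exact he (hN e hcon)
  have hval : ∀ v, Z e v ∨ Z e (v + w) := by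
    intro v
    by_cases h : Z e v
    · left; exact h
    · right
      have h3 := h2 e v e w h hw
      exact (e_same_iff hZ e v w).1 h3
  rcases Nat.lt_or_ge n 3 with hn3 | hn3
  · -- small: few sums of two squares
    refine few ?_ S hS
    have h4 : 2 * Nat.card {v // Z e v} ≤ 4 := by
      have h5 : 2 * Nat.card {v // Z e v} = Nat.card ({v // Z e v} ⊕ {v // Z e v}) := by
        rw [Nat.card_sum]; ring
      rw [h5]
      have h6 : Nat.card ({v // Z e v} ⊕ {v // Z e v}) ≤ Nat.card V := by
        apply Nat.card_le_card_of_injective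
          (Sum.elim (fun v : {v // Z e v} => (v : V)) (fun v : {v // Z e v} => (v : V) + w))
        rintro (⟨a, ha⟩ | ⟨a, ha⟩) (⟨b, hb⟩ | ⟨b, hb⟩) h
        · simp only [Sum.elim_inl] at h
          subst h; rfl
        · exfalso
          simp only [Sum.elim_inl, Sum.elim_inr] at h
          apply hw
          have h7 := hZ.add _ _ _ ha hb
          rw [h, add_comm b w, add_assoc, dbl, add_zero] at h7
          exact h7
        · exfalso
          simp only [Sum.elim_inl, Sum.elim_inr] at h
          apply hw
          have h7 := hZ.add _ _ _ ha hb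
          rw [← h, canc] at h7
          exact h7
        · simp only [Sum.elim_inr] at h
          have h8 : a = b := add_right_cancel h
          subst h8; rfl
      have h9 : Nat.card V ≤ 4 := by
        rw [hn]
        calc 2 ^ n ≤ 2 ^ 2 := Nat.pow_le_pow_right (by norm_num) (by omega)
          _ = 4 := by norm_num
      exact h6.trans h9
    omega
  · obtain ⟨φ, hneg, hφ⟩ := hS
    refine QS.ElemType.loc S (Finite.of_equiv _ φ.toEquiv) ?_ ?_ ?_
    · rw [← Nat.card_congr φ.toEquiv]
      have h3 : Nat.card (Multiplicative V) = Nat.card V := Nat.card_congr Multiplicative.toAdd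
      rw [h3, hn]
      calc 8 = 2 ^ 3 := by norm_num
        _ ≤ 2 ^ n := Nat.pow_le_pow_right (by norm_num) hn3
    · intro a ha
      obtain ⟨a, rfl⟩ := φ.surjective a
      have h3 : Multiplicative.toAdd a = 0 := by
        apply hN
        intro w
        exact (hφ (Multiplicative.toAdd a) w).1 (ha _)
      have h4 : a = 1 := by
        apply Multiplicative.toAdd.injective
        rw [h3, toAdd_one]
      rw [h4, map_one]
    · have hSq : ∀ a b c d : V, S.q (φ (Multiplicative.ofAdd a)) (φ (Multiplicative.ofAdd b)) =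
          S.q (φ (Multiplicative.ofAdd c)) (φ (Multiplicative.ofAdd d)) ↔ EqQ Z a b c d := by
        intro a b c d
        rw [ETG.QIS_.q_eq_iff]
        constructor
        · rintro ⟨x, h3, h4, h5⟩
          obtain ⟨x, rfl⟩ := φ.surjective x
          obtain ⟨x, rfl⟩ := Multiplicative.ofAdd.surjective x
          rw [← map_mul, ← ofAdd_add, hφ] at h3 h4 h5
          exact ⟨x, h3, h4, h5⟩
        · rintro ⟨x, h3, h4, h5⟩
          refine ⟨φ (Multiplicative.ofAdd x), ?_, ?_, ?_⟩
          · rw [← map_mul, ← ofAdd_add, hφ]; exact h3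
          · rw [← map_mul, ← ofAdd_add, hφ]; exact h4
          · rw [← map_mul, ← ofAdd_add, hφ]; exact h5
      rw [Nat.card_eq_two_iff]
      refine ⟨S.zero, S.q (φ (Multiplicative.ofAdd e)) (φ (Multiplicative.ofAdd w)), ?_, ?_⟩
      · intro h
        exact hw ((hφ e w).1 h.symm)
      · ext β
        simp only [Set.mem_insert_iff, Set.mem_singleton_iff, Set.mem_univ, iff_true]
        obtain ⟨a, b, rfl⟩ := S.surj β
        obtain ⟨a, rfl⟩ := φ.surjective a
        obtain ⟨b, rfl⟩ := φ.surjective b
        obtain ⟨a, rfl⟩ := Multiplicative.ofAdd.surjective a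
        obtain ⟨b, rfl⟩ := Multiplicative.ofAdd.surjective b
        by_cases h : Z a b
        · left
          exact (hφ a b).2 h
        · right
          rw [hSq]
          exact h2 _ _ _ _ h hw

end Pool.Agent.EV3
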