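import Pool.Agent.EV3.ZHL
import Pool.Agent.EWH.All

/-!
EV3: square roots of birigid elements (arbitrary `-1`), union of a chain of fields, the field
`F(t^{1/2^∞})`.
-/

set_option autoImplicit false

namespace Pool.Agent.EV3

open Pool.Agent.EWG (VV vm iu QD vm_surj vm_mul vm_one vm_eq_zero vm_eq_iff vm_add_self iu_coe)
open Pool.Agent.EWH (Two)
open Pool.Agent.ETG (EqQ InQ LZe Zh vmap vmap_vm vmap_id vmap_comp rv)

/-- `Zh` is linked -/
theorem zhl : ETG.Stmt_ZHL := zhl_proof EWH.q_rel EWH.q_lnk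

/-- the class of `-1` -/
noncomputable def neg1 (F : Type) [Field F] : VV F := vm (-1 : Fˣ)

theorem vmap_neg1 {F K : Type} [Field F] [Field K] (f : F →+* K) :
    vmap f (neg1 F) = neg1 K := by
  unfold neg1
  rw [vmap_vm]
  congr 1
  apply Units.ext
  simp

/-- a birigid element -/
structure Big {V : Type} [AddCommGroup V] (Z : V → V → Prop) (e t : V) : Prop where
  t0 : t ≠ 0
  te : t ≠ e
  z1 : ∀ v, Z t v → v = 0 ∨ v = t + e
  z2 : ∀ v, Z (t + e) v → v = 0 ∨ v = t

namespace RGE_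

section Fields
variable {F K : Type} [Field F] [Field K] [Algebra F K]

theorem q_iff (hF : Two F) {E : QD F K} (X : EWH.FX E) (v w : VV F) :
    X.q v w = 0 ↔ Zh F v w := by
  obtain ⟨a, rfl⟩ := vm_surj v
  obtain ⟨b, rfl⟩ := vm_surj w
  rw [X.q_zero, (zhl F hF).2.1]

theorem Q_iff (hF : Two F) {E : QD F K} (X : EWH.FX E) (v w : VV K) :
    X.Q v w = 0 ↔ Zh K v w := by
  obtain ⟨a, rfl⟩ := vm_surj v
  obtain ⟨b, rfl⟩ := vm_surj w
  rw [X.Q_zero, (zhl K (Two.map (algebraMap F K) hF)).2.1]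

theorem res_eq {E : QD F K} (X : EWH.FX E) (v : VV F) : X.res v = rv F K v := by
  obtain ⟨a, rfl⟩ := vm_surj v
  rw [X.res_vm]
  rfl

theorem res_neg1 {E : QD F K} (X : EWH.FX E) : X.res (neg1 F) = neg1 K := by
  rw [res_eq]
  exact vmap_neg1 (algebraMap F K)

theorem nm_theta (E : QD F K) : E.nm E.θ = -E.x := by
  apply Units.ext
  rw [E.nmt]
  have h1 : E.t (E.θ : K) = 0 := by
    have := E.tθ 1
    rwa [map_one, one_mul] at this
  have h2 : E.s (E.θ : K) = 1 := by
    have := E.sθ 1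
    rwa [map_one, one_mul] at this
  rw [h1, h2, Units.val_neg]; ring

theorem N_theta {E : QD F K} (X : EWH.FX E) : X.N (vm E.θ) = vm E.x + neg1 F := by
  rw [X.N_vm, nm_theta]
  unfold neg1
  rw [← vm_mul]
  congr 1
  apply Units.ext
  simp

theorem dbl {K : Type} [Field K] (v : VV K) : v + v = 0 := vm_add_self v

theorem eq_of {K : Type} [Field K] {a b : VV K} (h : a + b = 0) : a = b := by
  calc a = a + (b + b) := by rw [dbl, add_zero]
    _ = (a + b) + b := (add_assoc _ _ _).symm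
    _ = b := by rw [h, zero_add]

/-- square root of a birigid element -/
theorem rgd (hF : Two F) (hfin : Finite (VV F)) (E : QD F K)
    (h : Big (Zh F) (neg1 F) (vm E.x)) : Finite (VV K) ∧ Big (Zh K) (neg1 K) (vm E.θ) ∧
    (∀ w : VV K, ∃ v : VV F, w = rv F K v ∨ w = rv F K v + vm E.θ) ∧
    (∀ v, rv F K v = 0 ↔ v = 0 ∨ v = vm E.x) ∧ (∀ v, rv F K v ≠ vm E.θ) ∧
    (∀ v w, Zh K (rv F K v) (rv F K w) ↔ InQ (Zh F) (vm E.x) v w) ∧
    ∀ v w, InQ (Zh K) (vm E.θ) (rv F K v) (rv F K w) → Zh K (rv F K v) (rv F K w) := by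
  obtain ⟨X⟩ := EWH.q_fx F K hF E
  have hK : Two K := Two.map (algebraMap F K) hF
  have hx2 : ∀ v, X.q (vm E.x + neg1 F) v = 0 → X.res v = 0 := by
    intro v hv
    rw [X.ker_res]
    rcases h.z2 v ((q_iff hF X _ _).1 hv) with h1 | h1
    · exact Or.inl h1
    · exact Or.inr h1
  -- the key point
  have hkey : ∀ v, X.Q (vm E.θ) (X.res v) = 0 → X.res v = 0 := by
    intro v hv
    apply hx2
    rw [← N_theta X, ← X.cor_Q, hv, map_zero]
  have hkey' : ∀ v, X.Q (vm E.θ + neg1 K) (X.res v) = 0 → X.res v = 0 := by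
    intro v hv
    apply hx2
    have h1 : X.N (vm E.θ + neg1 K) = vm E.x + neg1 F := by
      rw [map_add, N_theta X, ← res_neg1 X, X.N_res, add_zero]
    rw [← h1, ← X.cor_Q, hv, map_zero]
  have h3 : ∀ w : VV K, ∃ v : VV F, w = X.res v ∨ w = X.res v + vm E.θ := by
    intro w
    have h1 : X.q (vm E.x) (X.N w) = 0 := (X.im_N _).2 ⟨w, rfl⟩
    rcases h.z1 _ ((q_iff hF X _ _).1 h1) with h2 | h2
    · obtain ⟨v, hv⟩ := (X.ker_N w).1 h2
      exact ⟨v, Or.inl hv.symm⟩
    · have h4 : X.N (w + vm E.θ) = 0 := by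
        rw [map_add, N_theta X, h2, dbl]
      obtain ⟨v, hv⟩ := (X.ker_N _).1 h4
      refine ⟨v, Or.inr ?_⟩
      rw [hv, add_assoc, dbl, add_zero]
  have h5 : ∀ v, X.res v ≠ vm E.θ := by
    intro v hv
    have h1 := X.N_res v
    rw [hv, N_theta X] at h1
    exact h.te (eq_of h1)
  have hθθ : X.Q (vm E.θ) (vm E.θ) = X.Q (vm E.θ) (X.res (neg1 F)) := by
    rw [res_neg1 X]; exact X.Q_self _
  have hθe : X.Q (vm E.θ + neg1 K) (vm E.θ) = 0 := by
    rw [X.Q_symm, map_add, hθθ, res_neg1 X, ← map_add, dbl, map_zero]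
  have hres0 : ∀ v, X.res v = 0 ↔ v = 0 ∨ v = vm E.x := X.ker_res
  refine ⟨EWH.q_fin F hF hfin K E, ⟨?_, ?_, ?_, ?_⟩, ?_, ?_, ?_, ?_, ?_⟩
  · intro h0
    exact h5 0 (by rw [map_zero, h0])
  · intro h0
    exact h5 (neg1 F) (by rw [res_neg1 X, h0])
  · intro w hw
    rw [← Q_iff hF X] at hw
    obtain ⟨v, rfl | rfl⟩ := h3 w
    · exact Or.inl (hkey v hw)
    · right
      rw [map_add, hθθ, ← map_add, ← map_add] at hw
      have h6 := hkey _ hw
      rw [map_add] at h6
      rw [eq_of h6, res_neg1 X, add_comm]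
  · intro w hw
    rw [← Q_iff hF X] at hw
    obtain ⟨v, rfl | rfl⟩ := h3 w
    · exact Or.inl (hkey' v hw)
    · right
      rw [map_add, hθe, add_zero] at hw
      rw [hkey' v hw, zero_add]
  · intro w
    obtain ⟨v, hv⟩ := h3 w
    rw [res_eq] at hv
    exact ⟨v, hv⟩
  · intro v
    rw [← res_eq X]
    exact hres0 v
  · intro v
    rw [← res_eq X]
    exact h5 v
  · intro v w
    rw [← res_eq X, ← res_eq X, ← Q_iff hF X, X.F3]
    have hEq : ∀ a b c d, X.q a b = X.q c d ↔ EqQ (Zh F) a b c d := by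
      intro a b c d
      constructor
      · intro h1
        obtain ⟨y, hy1, hy2⟩ := X.q_link a b c d h1
        refine ⟨y, ?_, ?_, ?_⟩
        · rw [← q_iff hF X, map_add, hy1, ← map_add, dbl, map_zero]
        · rw [← q_iff hF X, map_add, hy2, h1, ← map_add, dbl, map_zero]
        · rw [← q_iff hF X, map_add, LinearMap.add_apply, hy1, hy2, ← map_add, dbl, map_zero]
      · rintro ⟨y, h1, h2, h3⟩
        rw [← q_iff hF X] at h1 h2 h3
        have hB : ∀ b : EWH.BQ F, b + b = 0 := EWH.bq_add_self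
        have e : ∀ {b c : EWH.BQ F}, b + c = 0 → b = c := by
          intro b c hbc
          calc b = b + (c + c) := by rw [hB, add_zero]
            _ = (b + c) + c := (add_assoc _ _ _).symm
            _ = c := by rw [hbc, zero_add]
        rw [map_add] at h1 h2
        rw [map_add, LinearMap.add_apply] at h3
        rw [e h1, e h2, e h3]
    constructor
    · rintro ⟨z, hz⟩
      exact ⟨z, (hEq _ _ _ _).1 hz⟩
    · rintro ⟨z, hz⟩
      exact ⟨z, (hEq _ _ _ _).2 hz⟩
  · intro v w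
    rw [← res_eq X, ← res_eq X]
    rintro ⟨s, y, h1, h2, h4⟩
    rw [← Q_iff hF X] at h1 h2 h4 ⊢
    have hB : ∀ b : EWH.BQ K, b + b = 0 := EWH.bq_add_self
    have e : ∀ {b c : EWH.BQ K}, b + c = 0 → b = c := by
      intro b c hbc
      calc b = b + (c + c) := by rw [hB, add_zero]
        _ = (b + c) + c := (add_assoc _ _ _).symm
        _ = c := by rw [hbc, zero_add]
    rw [map_add] at h1 h2
    rw [map_add, LinearMap.add_apply] at h4
    have h6 : X.Q (X.res v) (X.res w) = X.Q (vm E.θ) s := by rw [e h1, e h2, e h4]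
    -- replace `s` by an element of `res V`
    obtain ⟨u, hu⟩ : ∃ u, X.Q (vm E.θ) s = X.Q (vm E.θ) (X.res u) := by
      obtain ⟨u, rfl | rfl⟩ := h3 s
      · exact ⟨u, rfl⟩
      · exact ⟨u + neg1 F, by rw [map_add, hθθ, ← map_add, ← map_add]⟩
    rw [hu] at h6
    have h7 : X.q (X.N (vm E.θ)) u = 0 := by
      rw [← X.cor_Q, ← h6, ← X.rb_q, X.cor_rb]
    rw [N_theta X] at h7
    rw [h6, hx2 u h7, map_zero]

end Fields

end RGE_

end Pool.Agent.EV3
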