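import Pool.Agent.EV3.RGE
import Pool.Agent.EV3.QSX
import Pool.Agent.ETG.All

/-!
EV3: functoriality of `Zh`, union of a chain of fields, the field `F(t^{1/2^∞})` for a birigid
element `t` (arbitrary `-1`).
-/

set_option autoImplicit false

namespace Pool.Agent.EV3

open Pool.Agent.EWG (VV vm iu QD vm_surj vm_mul vm_one vm_eq_zero vm_eq_iff vm_add_self iu_coe)
open Pool.Agent.EWH (Two pf)
open Pool.Agent.ETG (EqQ InQ LZe Zh vmap vmap_vm vmap_id vmap_comp rv)

/-- functoriality -/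
theorem zmp {K L : Type} [Field K] [Field L] (f : K →+* L) (hK : Two K) (v w : VV K)
    (h : Zh K v w) : Zh L (vmap f v) (vmap f w) := by
  intro a b ha hb
  obtain ⟨c, rfl⟩ := vm_surj v
  obtain ⟨d, rfl⟩ := vm_surj w
  rw [vmap_vm] at ha hb
  have hL : Two L := Two.map f hK
  have h1 : pf c d = 0 := h c d rfl rfl
  obtain ⟨s, t, hst⟩ := (EWH.q_pfz K hK c d).1 h1
  rw [vm_eq_iff] at ha hb
  obtain ⟨x, hx⟩ := ha
  obtain ⟨y, hy⟩ := hb
  rw [EWH.q_pfz L hL]
  have hx' : (a : L) * f c = x * x := by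
    have := congrArg Units.val hx
    simpa using this
  have hy' : (b : L) * f d = y * y := by
    have := congrArg Units.val hy
    simpa using this
  have hfc : f (c : K) ≠ 0 := (map_ne_zero f).2 c.ne_zero
  have hfd : f (d : K) ≠ 0 := (map_ne_zero f).2 d.ne_zero
  have hb' : (b : L) ≠ 0 := b.ne_zero
  have hx0 : (x : L) ≠ 0 := x.ne_zero
  have hy0 : (y : L) ≠ 0 := y.ne_zero
  have hd : f (d : K) = f s ^ 2 - f c * f t ^ 2 := by
    rw [hst]; simp
  have hc : f (c : K) = (x : L) * x / a := by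
    rw [eq_div_iff a.ne_zero, mul_comm]; exact hx'
  refine ⟨y / f d * f s, y / f d * (x / a) * f t, ?_⟩
  have hbd : (b : L) = (y / f d) ^ 2 * f d := by
    field_simp
    rw [pow_two]
    exact hy'
  rw [hbd]
  conv_lhs => rw [show (y / f (d : K) : L) ^ 2 * f d = (y / f d) ^ 2 * (f s ^ 2 - f c * f t ^ 2) by rw [← hd]]
  rw [mul_sub, hc]
  have ha0 : (a : L) ≠ 0 := a.ne_zero
  field_simp

open ETG.UNI_ (vmap_incl lift_unit) in
/-- union of a chain -/
theorem uni (Ω W : Type) [Field Ω] [AddCommGroup W] [Module (ZMod 2) W]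
    (ZW : W → W → Prop) (K : ℕ → Subfield Ω) (h : ∀ n, K n ≤ K (n + 1))
    (π : ∀ n, VV (K n) →ₗ[ZMod 2] W) (hgood : ∀ n, Two (K n))
    (hcomp : ∀ n v, π (n + 1) (vmap (Subfield.inclusion (h n)) v) = π n v)
    (hsurj : ∀ w, ∃ v, π 0 v = w)
    (hZ : ∀ n v v', Zh (K n) v v' → ZW (π n v) (π n v'))
    (hker : ∀ n v, π n v = 0 → ∃ (m : ℕ) (hm : K n ≤ K m), vmap (Subfield.inclusion hm) v = 0)
    (hlift : ∀ v v' : VV (K 0), ZW (π 0 v) (π 0 v') → ∃ (m : ℕ) (hm : K 0 ≤ K m),
      Zh (K m) (vmap (Subfield.inclusion hm) v) (vmap (Subfield.inclusion hm) v')) :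
    ∃ (E : Subfield Ω) (hE : K 0 ≤ E), Two E ∧
      (∀ w : VV E, ∃ v, vmap (Subfield.inclusion hE) v = w) ∧
      (∀ v, vmap (Subfield.inclusion hE) v = 0 ↔ π 0 v = 0) ∧
      ∀ v v', Zh E (vmap (Subfield.inclusion hE) v) (vmap (Subfield.inclusion hE) v') ↔
        ZW (π 0 v) (π 0 v') := by
  have hmono : Monotone K := monotone_nat_of_le_succ h
  have hcomp' : ∀ (n m : ℕ) (hnm : K n ≤ K m), n ≤ m → ∀ v,
      π m (vmap (Subfield.inclusion hnm) v) = π n v := by
    intro n m hnm hle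
    induction m, hle using Nat.le_induction with
    | base =>
      intro v
      have : (Subfield.inclusion hnm) = RingHom.id (K n) := rfl
      rw [this, vmap_id]
    | succ m hle ih =>
      intro v
      rw [← vmap_incl (hmono hle) (h m) hnm, hcomp, ih (hmono hle)]
  let E : Subfield Ω := ⨆ n, K n
  have hmem : ∀ x : Ω, x ∈ E ↔ ∃ n, x ∈ K n := fun x =>
    Subfield.mem_iSup_of_directed (hmono.directed_le)
  have hle : ∀ n, K n ≤ E := fun n => le_iSup K n
  have hE : K 0 ≤ E := hle 0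
  have hGE : Two E := Two.map (Subfield.inclusion hE) (hgood 0)
  have hkerE : ∀ n (v : VV (K n)), π n v = 0 → vmap (Subfield.inclusion (hle n)) v = 0 := by
    intro n v hv
    obtain ⟨m, hm, hm'⟩ := hker n v hv
    rw [← vmap_incl hm (hle m) (hle n), hm', map_zero]
  refine ⟨E, hE, hGE, ?_, ?_, ?_⟩
  · intro w
    obtain ⟨u, rfl⟩ := vm_surj w
    obtain ⟨n, hn⟩ := (hmem _).1 (u : E).2
    obtain ⟨u', hu'⟩ := lift_unit (hle n) u hn
    obtain ⟨v, hv⟩ := hsurj (π n (vm u'))
    refine ⟨v, ?_⟩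
    have h1 : π n (vm u' + vmap (Subfield.inclusion (hmono (Nat.zero_le n))) v) = 0 := by
      rw [map_add, hcomp' 0 n _ (Nat.zero_le n), hv, QS_.dbl]
    have h2 := hkerE n _ h1
    rw [map_add, vmap_incl _ _ hE, vmap_vm, hu'] at h2
    calc vmap (Subfield.inclusion hE) v = (vm u + vm u) + vmap (Subfield.inclusion hE) v := by
          rw [vm_add_self, zero_add]
      _ = vm u := by rw [add_assoc, h2, add_zero]
  · intro v
    constructor
    · intro hv
      obtain ⟨a, rfl⟩ := vm_surj v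
      rw [vmap_vm, vm_eq_zero] at hv
      obtain ⟨c, hc⟩ := hv
      obtain ⟨n, hn⟩ := (hmem _).1 (c : E).2
      obtain ⟨c', hc'⟩ := lift_unit (hle n) c hn
      have h1 : vmap (Subfield.inclusion (hmono (Nat.zero_le n))) (vm a) = 0 := by
        rw [vmap_vm, vm_eq_zero]
        refine ⟨c', ?_⟩
        apply Units.ext
        apply Subtype.ext
        have h2 := congrArg (fun z : (E)ˣ => ((z : E) : Ω)) hc
        have h3 := congrArg (fun z : (E)ˣ => ((z : E) : Ω)) hc'
        change ((a : K 0) : Ω) = ((c : E) : Ω) * ((c : E) : Ω) at h2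
        change ((c' : K n) : Ω) = ((c : E) : Ω) at h3
        change ((a : K 0) : Ω) = ((c' : K n) : Ω) * ((c' : K n) : Ω)
        rw [h3, h2]
      rw [← hcomp' 0 n (hmono (Nat.zero_le n)) (Nat.zero_le n), h1, map_zero]
    · exact hkerE 0 v
  · intro v v'
    constructor
    · intro hv
      obtain ⟨a, rfl⟩ := vm_surj v
      obtain ⟨b, rfl⟩ := vm_surj v'
      rw [vmap_vm, vmap_vm, (zhl E hGE).2.1, EWH.q_pfz E hGE] at hv
      obtain ⟨s, t, hst⟩ := hv
      obtain ⟨n, hn⟩ := (hmem _).1 s.2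
      obtain ⟨m, hm⟩ := (hmem _).1 t.2
      have hsn : (s : Ω) ∈ K (max n m) := hmono (le_max_left n m) hn
      have htn : (t : Ω) ∈ K (max n m) := hmono (le_max_right n m) hm
      have h1 : Zh (K (max n m)) (vmap (Subfield.inclusion (hmono (Nat.zero_le _))) (vm a))
          (vmap (Subfield.inclusion (hmono (Nat.zero_le _))) (vm b)) := by
        rw [vmap_vm, vmap_vm, (zhl _ (hgood _)).2.1, EWH.q_pfz _ (hgood _)]
        refine ⟨⟨s, hsn⟩, ⟨t, htn⟩, ?_⟩
        apply Subtype.ext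
        exact congrArg (fun z : E => (z : Ω)) hst
      have h2 := hZ _ _ _ h1
      rwa [hcomp' 0 _ _ (Nat.zero_le _), hcomp' 0 _ _ (Nat.zero_le _)] at h2
    · intro hv
      obtain ⟨m, hm, hm'⟩ := hlift v v' hv
      have h1 := zmp (Subfield.inclusion (hle m)) (hgood m) _ _ hm'
      rwa [vmap_incl hm (hle m) hE, vmap_incl hm (hle m) hE] at h1

/-- square root of a birigid element inside an algebraically closed field -/
theorem rgs (Ω : Type) [Field Ω] [IsAlgClosed Ω] (K : Subfield Ω) (hG : Two K)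
    (hfin : Finite (VV K)) (t : VV K) (ht : Big (Zh K) (neg1 K) t) :
    ∃ (K' : Subfield Ω) (h : K ≤ K') (t' : VV K'),
    Two K' ∧ Finite (VV K') ∧ Big (Zh K') (neg1 K') t' ∧
    (∀ w : VV K', ∃ v : VV K, w = vmap (Subfield.inclusion h) v ∨
      w = vmap (Subfield.inclusion h) v + t') ∧
    (∀ v, vmap (Subfield.inclusion h) v = 0 ↔ v = 0 ∨ v = t) ∧
    (∀ v, vmap (Subfield.inclusion h) v ≠ t') ∧
    (∀ v w, Zh K' (vmap (Subfield.inclusion h) v) (vmap (Subfield.inclusion h) w) ↔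
      InQ (Zh K) t v w) ∧
    ∀ v w, InQ (Zh K') t' (vmap (Subfield.inclusion h) v) (vmap (Subfield.inclusion h) w) →
      Zh K' (vmap (Subfield.inclusion h) v) (vmap (Subfield.inclusion h) w) := by
  obtain ⟨y, rfl⟩ := vm_surj t
  have hy : ¬ IsSquare y := fun h => ht.t0 ((vm_eq_zero y).2 h)
  have h2 : (2 : Ω) ≠ 0 := by
    intro h0
    apply hG
    apply Subtype.ext
    exact h0
  obtain ⟨K', h, E, hE⟩ := ETG.sqx_proof Ω K h2 y hy
  letI : Algebra K K' := (Subfield.inclusion h).toAlgebra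
  have ht' : Big (Zh K) (neg1 K) (vm E.x) := by rw [hE]; exact ht
  obtain ⟨h1, h3, h4, h5, h6, h7, h8⟩ := RGE_.rgd (F := K) (K := K') hG hfin E ht'
  rw [hE] at h5 h7
  exact ⟨K', h, vm E.θ, Two.map (Subfield.inclusion h) hG, h1, h3, h4, h5, h6, h7, h8⟩

namespace RGE_

section
variable {V : Type} [AddCommGroup V] {Z : V → V → Prop} {e : V} (hZ : LZe Z e)
  (h2 : ∀ v : V, v + v = 0)

include hZ in
theorem inQ_of {t v w : V} (h : Z v w) : InQ Z t v w :=
  ⟨0, 0, by rwa [add_zero], by rw [add_zero]; exact hZ.zero t, hZ.zero _⟩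

include h2 in
theorem inQ_add {t v w : V} (h : InQ Z t v w) : InQ Z t (v + t) w := by
  obtain ⟨a, x, h3, h4, h5⟩ := h
  refine ⟨a + w, w + x, ?_, ?_, ?_⟩
  · rw [← add_assoc, h2, zero_add]
    exact h5
  · have : a + w + (w + x) = a + x := by
      calc a + w + (w + x) = a + (w + w) + x := by abel
        _ = a + x := by rw [h2, add_zero]
    rw [this]
    exact h4
  · rw [add_assoc, h2, add_zero]
    exact h3

include hZ h2 in
theorem inQ_symm {t v w : V} (h : InQ Z t v w) : InQ Z t w v := by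
  obtain ⟨a, h⟩ := h
  refine ⟨a, hZ.trans w v v w t a ⟨v + w + e, ?_, ?_, ?_⟩ h⟩
  · have e1 : v + (v + w + e) = w + e := by
      calc v + (v + w + e) = (v + v) + (w + e) := by abel
        _ = w + e := by rw [h2, zero_add]
    rw [e1]
    exact hZ.alt w
  · have e1 : w + (v + w + e) = v + e := by
      calc w + (v + w + e) = (w + w) + (v + e) := by abel
        _ = v + e := by rw [h2, zero_add]
    rw [e1]
    exact hZ.alt v
  · rw [add_comm w v]
    exact hZ.alt _

include h2 in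
theorem inQ_left {t v v' w : V} (h : v' = v ∨ v' = v + t) : InQ Z t v' w ↔ InQ Z t v w := by
  rcases h with rfl | rfl
  · exact Iff.rfl
  · refine ⟨fun h => ?_, inQ_add h2⟩
    have h3 := inQ_add h2 h
    rwa [add_assoc, h2, add_zero] at h3

include hZ h2 in
/-- invariance under translations by `t` -/
theorem inQ_inv {t v v' w w' : V} (h : v' = v ∨ v' = v + t) (h' : w' = w ∨ w' = w + t) :
    InQ Z t v' w' ↔ InQ Z t v w := by
  rw [inQ_left h2 h]
  constructor
  · intro h3
    exact inQ_symm hZ h2 ((inQ_left h2 h').1 (inQ_symm hZ h2 h3))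
  · intro h3
    exact inQ_symm hZ h2 ((inQ_left h2 h').2 (inQ_symm hZ h2 h3))

end

section
variable (Ω : Type) [Field Ω] {W : Type} [AddCommGroup W] [Module (ZMod 2) W]
  (ZW : W → W → Prop)

/-- a field of the chain -/
structure Ch where
  K : Subfield Ω
  t : VV K
  π : VV K →ₗ[ZMod 2] W
  good : Two K
  fin : Finite (VV K)
  rig : Big (Zh K) (neg1 K) t
  ker : ∀ v, π v = 0 ↔ v = 0 ∨ v = t
  inq : ∀ v w, InQ (Zh K) t v w ↔ ZW (π v) (π w)

variable {Ω} {ZW}

/-- the relation between a field of the chain and the next one -/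
def Nx (c d : Ch Ω ZW) : Prop := ∃ h : c.K ≤ d.K,
  (∀ v, d.π (vmap (Subfield.inclusion h) v) = c.π v) ∧
  (∀ v, vmap (Subfield.inclusion h) v = 0 ↔ v = 0 ∨ v = c.t) ∧
  ∀ v w, Zh d.K (vmap (Subfield.inclusion h) v) (vmap (Subfield.inclusion h) w) ↔
    InQ (Zh c.K) c.t v w

theorem exists_next [IsAlgClosed Ω] (c : Ch Ω ZW) : ∃ d : Ch Ω ZW, Nx c d := by
  obtain ⟨K', h, t', g', f', r', ha, hb, hc, hd, he⟩ := rgs Ω c.K c.good c.fin c.t c.rig
  have hLZ := (zhl K' g').1
  have h2 : ∀ v : VV K', v + v = 0 := vm_add_self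
  -- the linear map onto the square classes of `K'`
  let L : (VV c.K × ZMod 2) →ₗ[ZMod 2] VV K' :=
    (vmap (Subfield.inclusion h)).coprod (LinearMap.toSpanSingleton (ZMod 2) (VV K') t')
  have hL : ∀ v e, L (v, e) = vmap (Subfield.inclusion h) v + e • t' := fun v e => by
    simp [L]
  have hz2 : ∀ e : ZMod 2, e = 0 ∨ e = 1 := by decide
  have hsurj : Function.Surjective L := by
    intro w
    obtain ⟨v, hv | hv⟩ := ha w
    · exact ⟨(v, 0), by rw [hL, zero_smul, add_zero, hv]⟩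
    · exact ⟨(v, 1), by rw [hL, one_smul, hv]⟩
  have hker : ∀ x, L x = 0 → c.π x.1 = 0 := by
    rintro ⟨v, e⟩ hx
    rw [hL] at hx
    rcases hz2 e with rfl | rfl
    · rw [zero_smul, add_zero] at hx
      exact (c.ker v).2 ((hb v).1 hx)
    · rw [one_smul] at hx
      exfalso
      apply hc v
      calc vmap (Subfield.inclusion h) v = vmap (Subfield.inclusion h) v + (t' + t') := by
            rw [h2, add_zero]
        _ = t' := by rw [← add_assoc, hx, zero_add]
  obtain ⟨s, hs⟩ := L.exists_rightInverse_of_surjective (LinearMap.range_eq_top.2 hsurj)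
  let π' : VV K' →ₗ[ZMod 2] W := (c.π.comp (LinearMap.fst (ZMod 2) (VV c.K) (ZMod 2))).comp s
  have hπ : ∀ x, π' (L x) = c.π x.1 := by
    intro x
    have h3 : L (s (L x) - x) = 0 := by
      rw [map_sub, sub_eq_zero]
      exact congrArg (fun f : VV K' →ₗ[ZMod 2] VV K' => f (L x)) hs
    have h4 := hker _ h3
    rw [Prod.fst_sub, map_sub, sub_eq_zero] at h4
    exact h4
  have hπv : ∀ v, π' (vmap (Subfield.inclusion h) v) = c.π v := by
    intro v
    have := hπ (v, 0)
    rwa [hL, zero_smul, add_zero] at this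
  have hπt : ∀ v, π' (vmap (Subfield.inclusion h) v + t') = c.π v := by
    intro v
    have := hπ (v, 1)
    rwa [hL, one_smul] at this
  have hπ' : ∀ (w : VV K') (v : VV c.K), (w = vmap (Subfield.inclusion h) v ∨
      w = vmap (Subfield.inclusion h) v + t') → π' w = c.π v := by
    rintro w v (rfl | rfl)
    · exact hπv v
    · exact hπt v
  refine ⟨⟨K', t', π', g', f', r', ?_, ?_⟩, h, hπv, hb, hd⟩
  · intro w
    constructor
    · intro hw
      obtain ⟨v, hv⟩ := ha w
      rw [hπ' w v hv, c.ker, ← hb] at hw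
      rw [hw, zero_add] at hv
      exact hv
    · rintro (rfl | rfl)
      · exact map_zero _
      · have := hπt 0
        rwa [map_zero, zero_add, map_zero] at this
  · intro w w'
    obtain ⟨v, hv⟩ := ha w
    obtain ⟨v', hv'⟩ := ha w'
    rw [hπ' w v hv, hπ' w' v' hv', inQ_inv hLZ h2 hv hv', ← c.inq, ← hd]
    exact ⟨he v v', inQ_of hLZ⟩

end

end RGE_

open RGE_ in
/-- all `2`-power roots of a birigid element -/
theorem rge (Ω : Type) [Field Ω] [IsAlgClosed Ω] (K : Subfield Ω) (hK : Two K)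
    (hfin : Finite (VV K)) (t : VV K) (ht : Big (Zh K) (neg1 K) t) :
    ∃ (E : Subfield Ω) (hE : K ≤ E), Two E ∧
    (∀ w : VV E, ∃ v, vmap (Subfield.inclusion hE) v = w) ∧
    (∀ v, vmap (Subfield.inclusion hE) v = 0 ↔ v = 0 ∨ v = t) ∧
    ∀ v w, Zh E (vmap (Subfield.inclusion hE) v) (vmap (Subfield.inclusion hE) w) ↔
      InQ (Zh K) t v w := by
  have hLZ := (zhl K hK).1
  have h2 : ∀ v : VV K, v + v = 0 := vm_add_self
  let U : Submodule (ZMod 2) (VV K) := Submodule.span (ZMod 2) {t}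
  have hz2 : ∀ e : ZMod 2, e = 0 ∨ e = 1 := by decide
  have hU : ∀ v, v ∈ U ↔ v = 0 ∨ v = t := by
    intro v
    rw [Submodule.mem_span_singleton]
    constructor
    · rintro ⟨e, rfl⟩
      rcases hz2 e with rfl | rfl
      · left; rw [zero_smul]
      · right; rw [one_smul]
    · rintro (rfl | rfl)
      · exact ⟨0, zero_smul _ _⟩
      · exact ⟨1, one_smul _ _⟩
  let ZW : (VV K ⧸ U) → (VV K ⧸ U) → Prop := fun x y =>
    ∃ v w, U.mkQ v = x ∧ U.mkQ w = y ∧ InQ (Zh K) t v w
  have hmk : ∀ v v' : VV K, U.mkQ v = U.mkQ v' → v = v' ∨ v = v' + t := by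
    intro v v' h
    have h3 : v - v' ∈ U := (Submodule.Quotient.eq U).1 h
    rcases (hU _).1 h3 with h4 | h4
    · exact Or.inl (sub_eq_zero.1 h4)
    · right
      rw [← h4]
      abel
  let c0 : Ch Ω ZW :=
    { K := K
      t := t
      π := U.mkQ
      good := hK
      fin := hfin
      rig := ht
      ker := fun v => by
        rw [← hU v, Submodule.mkQ_apply, Submodule.Quotient.mk_eq_zero]
      inq := fun v w => by
        constructor
        · intro h
          exact ⟨v, w, rfl, rfl, h⟩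
        · rintro ⟨v', w', hv, hw, h⟩
          exact (inQ_inv hLZ h2 (hmk v' v hv) (hmk w' w hw)).1 h }
  choose nx hnx using fun c : Ch Ω ZW => exists_next c
  let q : ℕ → Ch Ω ZW := fun n => Nat.rec c0 (fun _ c => nx c) n
  have hq : ∀ n, Nx (q n) (q (n + 1)) := fun n => hnx (q n)
  have hle : ∀ n, (q n).K ≤ (q (n + 1)).K := fun n => (hq n).choose
  have hs1 : ∀ n v, (q (n + 1)).π (vmap (Subfield.inclusion (hle n)) v) = (q n).π v :=
    fun n => (hq n).choose_spec.1
  have hs2 : ∀ n v, vmap (Subfield.inclusion (hle n)) v = 0 ↔ v = 0 ∨ v = (q n).t :=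
    fun n => (hq n).choose_spec.2.1
  have hs3 : ∀ n v w, Zh (q (n + 1)).K (vmap (Subfield.inclusion (hle n)) v)
      (vmap (Subfield.inclusion (hle n)) w) ↔ InQ (Zh (q n).K) (q n).t v w :=
    fun n => (hq n).choose_spec.2.2
  obtain ⟨E, hE, e1, e2, e3, e4⟩ := uni Ω (VV K ⧸ U) ZW (fun n => (q n).K) hle
    (fun n => (q n).π) (fun n => (q n).good) hs1 (fun w => U.mkQ_surjective w)
    (fun n v v' h => ((q n).inq v v').1 (inQ_of (zhl _ (q n).good).1 h))
    (fun n v h => ⟨n + 1, hle n, (hs2 n v).2 (((q n).ker v).1 h)⟩)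
    (fun v v' h => ⟨1, hle 0, (hs3 0 v v').2 (((q 0).inq v v').2 h)⟩)
  refine ⟨E, hE, e1, e2, fun v => ?_, fun v w => ?_⟩
  · exact (e3 v).trans (c0.ker v)
  · exact (e4 v w).trans (c0.inq v w).symm

end Pool.Agent.EV3
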