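import Pool.Agent.EV3.GStmts

/-!
# SE0: counting, `V_x = 0`
-/

set_option autoImplicit false

namespace Pool.Agent.EV3

open scoped BigOperators
open Pool.Agent.EWG (VV vm iu QD vm_surj vm_mul vm_one vm_eq_zero vm_eq_iff Good)
open Pool.Agent.EWH (Two BQ FX pf sy)
open Pool.Agent.ETG (EqQ LZ ZDec ZLoc ZFan Fac ND Indec Rig Zf Zh vmap vmap_vm)

namespace SE0_

theorem add_self {M : Type} [AddCommGroup M] [Module (ZMod 2) M] (a : M) : a + a = 0 := by
  have h : (2 : ZMod 2) • a = a + a := two_smul _ a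
  have h2 : (2 : ZMod 2) = 0 := rfl
  rw [← h, h2, zero_smul]

theorem eq_of_add {M : Type} [AddCommGroup M] [Module (ZMod 2) M] {a b : M} (h : a + b = 0) :
    a = b := by
  have h1 : a + (b + b) = b := by rw [← add_assoc, h, zero_add]
  rwa [add_self b, add_zero] at h1

end SE0_

open SE0_ in
theorem se0_proof : Stmt_SE0 := by
  intro F K _ _ _ E X _ hx v
  have huniq : ∀ z z' : VV F, X.q (vm E.x) z = X.q (vm E.x) z' → z = z' := by
    intro z z' h
    apply eq_of_add
    apply hx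
    rw [map_add, h]
    exact add_self _
  have key : ∀ a b : VV F, X.q v a = 0 → X.q (v + vm E.x) b = 0 →
      X.q v (a + b) = X.q (vm E.x) b := by
    intro a b ha hb
    rw [map_add, LinearMap.add_apply] at hb
    rw [map_add, ha, zero_add]
    exact eq_of_add hb
  rw [← Nat.card_prod]
  symm
  refine Nat.card_congr (Equiv.ofBijective
    (fun p : {s : VV F // X.q v s = 0} × {s : VV F // X.q (v + vm E.x) s = 0} =>
      (⟨p.1.1 + p.2.1, (X.F3 v _).2 ⟨p.2.1, key _ _ p.1.2 p.2.2⟩⟩ :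
        {s : VV F // X.Q (X.res v) (X.res s) = 0})) ⟨?_, ?_⟩)
  · rintro ⟨⟨a, ha⟩, ⟨b, hb⟩⟩ ⟨⟨a', ha'⟩, ⟨b', hb'⟩⟩ h
    have h1 : a + b = a' + b' := congrArg Subtype.val h
    have h2 : b = b' := by
      apply huniq
      rw [← key a b ha hb, ← key a' b' ha' hb', h1]
    have h3 : a = a' := by
      rw [h2] at h1
      exact add_right_cancel h1
    subst h2
    subst h3
    rfl
  · rintro ⟨s, hs⟩
    obtain ⟨z, hz⟩ := (X.F3 v s).1 hs
    obtain ⟨y, hy1, hy2⟩ := X.q_link v s (vm E.x) z hz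
    have hyz : y = z := huniq y z (by rw [hy2, hz])
    subst hyz
    refine ⟨⟨⟨s + y, ?_⟩, ⟨y, ?_⟩⟩, ?_⟩
    · rw [map_add, hy1]
      exact add_self _
    · rw [map_add, LinearMap.add_apply, hy1, hy2]
      exact add_self _
    · apply Subtype.ext
      show s + y + y = s
      rw [add_assoc, add_self, add_zero]

end Pool.Agent.EV3
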