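import Pool.Agent.ETG.IfaceV

/-!
V3, THE ELEMENTARY TYPE CONJECTURE FOR ALL FIELDS (problem MP_d26ff6_al): top level of the last
step (fields in which `-1` is not a square).

`Stmt_GLUE` (localisations and glue) + `Stmt_ONE` (one component) + `Stmt_QDE` (products of
quaternionic structures) give `ETG.Stmt_V3`.
-/

set_option autoImplicit false

namespace Pool.Agent.EV3

open Pool.Agent.ETG (Zf Zh ETZ ETE LZe ND ZLoc Rig QOf QOfE)
open Pool.Agent.EWG (VV vm QD Good)

/-- `K = F(√-1)` has a nondegenerate structure which is local or has a rigid element -/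
def OneC (F : Type) [Field F] : Prop :=
  ∃ (K : Type) (_ : Field K) (_ : Algebra F K) (E : QD F K), E.x = -1 ∧ Finite (VV K) ∧
    ND (Zf K) ∧ (ZLoc (Zf K) LinearMap.id ∨ ∃ t, Rig (Zf K) t)

section
variable {W : Type} [AddCommGroup W] [Module (ZMod 2) W]

/-- factor from a free orbit: the structure of a field in which `-1` is a square -/
def TFree (Z : W → W → Prop) (e : W) : Prop := e = 0 ∧
  ∃ (K : Type) (_ : Field K) (θ : W ≃ₗ[ZMod 2] VV K), Good K ∧ Finite (VV K) ∧
    ∀ a b, Z a b ↔ Zf K (θ a) (θ b)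

/-- the factor of an ordering -/
def TOrd (Z : W → W → Prop) (e : W) : Prop := (∀ w : W, w = 0 ∨ w = e) ∧ e ≠ 0 ∧ ¬ Z e e

/-- factor from a component fixed by the conjugation: the structure of a field `F'` for which
`F'(√-1)` has only one component -/
def TFix (Z : W → W → Prop) (e : W) : Prop :=
  ∃ (F' : Type) (_ : Field F') (θ : W ≃ₗ[ZMod 2] VV F'), EWH.Two F' ∧ ¬ IsSquare (-1 : F') ∧
    Finite (VV F') ∧ OneC F' ∧ θ e = vm (-1 : F'ˣ) ∧ ∀ a b, Z a b ↔ Zh F' (θ a) (θ b)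

end

/-- GLUE: the structure of `F` is, modulo a part of the radical, the product of structures of the
three types above. -/
def Stmt_GLUE : Prop := ∀ (F : Type) [Field F], EWH.Two F → ¬ IsSquare (-1 : F) →
  Finite (VV F) → ∃ (k : ℕ) (W : Fin k → Type) (_ : ∀ j, AddCommGroup (W j))
    (_ : ∀ j, Module (ZMod 2) (W j)) (Z : ∀ j, W j → W j → Prop) (e : ∀ j, W j)
    (π : ∀ j, VV F →ₗ[ZMod 2] W j),
    (∀ w : ∀ j, W j, ∃ v, ∀ j, π j v = w j) ∧
    (∀ v w, Zh F v w ↔ ∀ j, Z j (π j v) (π j w)) ∧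
    (∀ j, π j (vm (-1 : Fˣ)) = e j) ∧
    ∀ j, TFree (Z j) (e j) ∨ TOrd (Z j) (e j) ∨ TFix (Z j) (e j)

/-- ONE: one component.  The hypothesis is the induction hypothesis (all fields). -/
def Stmt_ONE : Prop := ∀ (F : Type) [Field F], EWH.Two F → ¬ IsSquare (-1 : F) →
  Finite (VV F) → OneC F → (∀ (F' : Type) [Field F'], EWH.Two F' → Finite (VV F') →
    Nat.card (VV F') < Nat.card (VV F) → ETE (Zh F') (vm (-1 : F'ˣ))) →
  ETE (Zh F) (vm (-1 : Fˣ))

/-- QDE: products of quaternionic structures of elementary type -/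
def Stmt_QDE : Prop := ∀ (V : Type) [AddCommGroup V] [Module (ZMod 2) V] [Finite V]
  (Z : V → V → Prop) (e : V), LZe Z e → ∀ (k : ℕ) (W : Fin k → Type)
  [∀ j, AddCommGroup (W j)] [∀ j, Module (ZMod 2) (W j)] (Zj : ∀ j, W j → W j → Prop)
  (ej : ∀ j, W j) (π : ∀ j, V →ₗ[ZMod 2] W j), (∀ w : ∀ j, W j, ∃ v, ∀ j, π j v = w j) →
  (∀ v w, Z v w ↔ ∀ j, Zj j (π j v) (π j w)) → (∀ j, π j e = ej j) →
  (∀ j, ETE (Zj j) (ej j)) → ETE Z e

/-- QIE: isomorphic structures -/
def Stmt_QIE : Prop := ∀ (V V' : Type) [AddCommGroup V] [Module (ZMod 2) V] [AddCommGroup V']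
  [Module (ZMod 2) V'] (Z : V → V → Prop) (Z' : V' → V' → Prop) (e : V) (e' : V')
  (θ : V ≃ₗ[ZMod 2] V'), (∀ a b, Z a b ↔ Z' (θ a) (θ b)) → θ e = e' → ETE Z' e' → ETE Z e

/-- QL1: the structure of a real closed field -/
def Stmt_QL1 : Prop := ∀ (V : Type) [AddCommGroup V] [Module (ZMod 2) V] (Z : V → V → Prop)
  (e : V), TOrd Z e → ETE Z e

/-- fields in which `-1` is a square -/
theorem ete_of_good (hETF : ETG.Stmt_ETF) (hCMP : EWH.Stmt_CMP) (K : Type) [Field K]
    (hK : Good K) (hf : Finite (VV K)) : ETE (Zh K) (vm (-1 : Kˣ)) := by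
  intro S hS
  have he : (vm (-1 : Kˣ) : VV K) = 0 := by
    rw [EWG.vm_eq_zero]
    obtain ⟨i, hi⟩ := hK.neg
    have hi0 : i ≠ 0 := by rintro rfl; simp at hi
    refine ⟨Units.mk0 i hi0, ?_⟩
    ext
    rw [pow_two] at hi
    simpa using hi.symm
  have hZ : ∀ v w, Zh K v w ↔ Zf K v w := by
    intro v w
    unfold Zh Zf
    constructor
    · intro h a b ha hb
      exact (hCMP K hK a b a b).2.2 (h a b ha hb)
    · intro h a b ha hb
      exact (hCMP K hK a b a b).2.1 (h a b ha hb)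
  refine hETF K hK hf S ?_
  obtain ⟨φ, h1, h3⟩ := hS
  refine ⟨?_, φ, ?_⟩
  · rw [h1, he]
    exact map_one φ
  · intro a b
    rw [h3 a b, hZ]

/-- `Zf` and `Zh` agree for fields in which `-1` is a square -/
theorem zh_iff (hCMP : EWH.Stmt_CMP) (K : Type) [Field K] (hK : Good K) (v w : VV K) :
    Zh K v w ↔ Zf K v w := by
  unfold Zh Zf
  constructor
  · intro h a b ha hb
    exact (hCMP K hK a b a b).2.2 (h a b ha hb)
  · intro h a b ha hb
    exact (hCMP K hK a b a b).2.1 (h a b ha hb)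

/-- all fields, by induction on the number of square classes -/
theorem all_fields (hETF : ETG.Stmt_ETF) (hCMP : EWH.Stmt_CMP) (hGLUE : Stmt_GLUE)
    (hONE : Stmt_ONE) (hQDE : Stmt_QDE) (hQIE : Stmt_QIE) (hQL1 : Stmt_QL1)
    (hZHL : ETG.Stmt_ZHL) : ∀ (n : ℕ) (F : Type) [Field F], EWH.Two F → Finite (VV F) →
    Nat.card (VV F) ≤ n → ETE (Zh F) (vm (-1 : Fˣ)) := by
  intro n
  induction n with
  | zero =>
    intro F _ _ hf h
    have : 0 < Nat.card (VV F) := Nat.card_pos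
    omega
  | succ n ih =>
    intro F _ h2 hf hn
    by_cases hi : IsSquare (-1 : F)
    · have hG : Good F := by
        refine ⟨h2, ?_⟩
        obtain ⟨i, hi⟩ := hi
        exact ⟨i, by rw [pow_two, ← hi]⟩
      exact ete_of_good hETF hCMP F hG hf
    · obtain ⟨k, W, i1, i2, Z, e, π, hsurj, hZ, he, hT⟩ := hGLUE F h2 hi hf
      refine hQDE (VV F) (Zh F) (vm (-1 : Fˣ)) (hZHL F h2).1 k W Z e π hsurj hZ he ?_
      intro j
      rcases hT j with h | h | h
      · obtain ⟨he0, K, iK, θ, hK, hfK, hθ⟩ := h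
        refine hQIE (W j) (VV K) (Z j) (Zh K) (e j) (vm (-1 : Kˣ)) θ ?_ ?_
          (ete_of_good hETF hCMP K hK hfK)
        · intro a b
          rw [hθ, zh_iff hCMP K hK]
        · rw [he0, map_zero]
          symm
          rw [EWG.vm_eq_zero]
          obtain ⟨i, hi⟩ := hK.neg
          have hi0 : i ≠ 0 := by rintro rfl; simp at hi
          refine ⟨Units.mk0 i hi0, ?_⟩
          ext
          rw [pow_two] at hi
          simpa using hi.symm
      · exact hQL1 (W j) (Z j) (e j) h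
      · obtain ⟨F', iF, θ, h2', hi', hf', hO, hθe, hθ⟩ := h
        refine hQIE (W j) (VV F') (Z j) (Zh F') (e j) (vm (-1 : F'ˣ)) θ hθ hθe ?_
        refine hONE F' h2' hi' hf' hO ?_
        intro F'' _ h2'' hf'' hc
        refine ih F'' h2'' hf'' ?_
        have hle : Nat.card (VV F') ≤ Nat.card (VV F) := by
          apply Nat.card_le_card_of_surjective (fun v => θ (π j v))
          intro w
          obtain ⟨v, hv⟩ := hsurj (Function.update (fun _ => 0) j (θ.symm w))
          refine ⟨v, ?_⟩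
          show θ (π j v) = w
          rw [hv j, Function.update_self, LinearEquiv.apply_symm_apply]
        omega

/-- V3 -/
theorem v3_of (hETF : ETG.Stmt_ETF) (hCMP : EWH.Stmt_CMP) (hGLUE : Stmt_GLUE)
    (hONE : Stmt_ONE) (hQDE : Stmt_QDE) (hQIE : Stmt_QIE) (hQL1 : Stmt_QL1)
    (hZHL : ETG.Stmt_ZHL) : ETG.Stmt_V3 := by
  intro F _ h2 _ hf
  exact all_fields hETF hCMP hGLUE hONE hQDE hQIE hQL1 hZHL _ F h2 hf le_rfl

end Pool.Agent.EV3
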