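import Pool.Agent.ETG.IfaceV

/-!
EV3: the relation `Zh` of a field and quaternionic structures of fields (ZHL, QFH).
-/

set_option autoImplicit false

namespace Pool.Agent.EV3

open Pool.Agent.EWG (VV vm vm_surj vm_mul vm_one vm_eq_zero vm_eq_iff)
open Pool.Agent.EWH (Two W br br_mul br_one br_neg pf1 pf pf_comm)
open Pool.Agent.ETG (EqQ LZe Zh)

namespace ZHL_

variable {K : Type} [Field K]

theorem br_congr (hREL : EWH.Stmt_REL) (hK : Two K) {a b : Kˣ} (h : vm a = vm b) :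
    br a = br b :=
  ((hREL K hK).1 a b).2 ((vm_eq_iff a b).1 h)

theorem pf_congr (hREL : EWH.Stmt_REL) (hK : Two K) {a b a' b' : Kˣ}
    (h : vm a = vm a') (h' : vm b = vm b') : pf a b = pf a' b' := by
  unfold pf pf1
  rw [br_congr hREL hK h, br_congr hREL hK h']

theorem Zh_iff (hREL : EWH.Stmt_REL) (hK : Two K) (a b : Kˣ) :
    Zh K (vm a) (vm b) ↔ pf a b = 0 := by
  constructor
  · intro h
    exact h a b rfl rfl
  · intro h a' b' ha hb
    rw [pf_congr hREL hK ha hb, h]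

theorem br_self (hREL : EWH.Stmt_REL) (hK : Two K) (a : Kˣ) : br a * br a = 1 := by
  rw [← br_mul, ← br_one]
  apply br_congr hREL hK
  rw [vm_one, vm_eq_zero]
  exact ⟨a, rfl⟩

/-- additivity in the second slot -/
theorem pf_mul (hREL : EWH.Stmt_REL) (hK : Two K) (a b x : Kˣ) :
    pf a (b * x) = 0 ↔ pf a b = pf a x := by
  have h1 : br b * pf a (b * x) = pf a x - pf a b := by
    have h2 := br_self hREL hK b
    unfold pf pf1
    rw [br_mul]
    linear_combination (-(1 - br a)) * br x * h2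
  constructor
  · intro h
    rw [h, mul_zero] at h1
    exact (sub_eq_zero.1 h1.symm).symm
  · intro h
    rw [h, sub_self] at h1
    have h2 := congrArg (fun c => br b * c) h1
    simp only [mul_zero, ← mul_assoc, br_self hREL hK b, one_mul] at h2
    exact h2

theorem pf_mul' (hREL : EWH.Stmt_REL) (hK : Two K) (a c x : Kˣ) :
    pf (a * c) x = 0 ↔ pf a x = pf c x := by
  rw [pf_comm, pf_mul hREL hK, pf_comm, pf_comm x c]

theorem pf_one (a : Kˣ) : pf a 1 = 0 := by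
  unfold pf pf1
  rw [br_one, sub_self, mul_zero]

theorem pf_self (hREL : EWH.Stmt_REL) (hK : Two K) (a : Kˣ) : pf a (a * (-1)) = 0 := by
  have h2 := br_self hREL hK a
  unfold pf pf1
  rw [mul_neg, mul_one, br_neg]
  linear_combination -h2

theorem EqQ_iff (hREL : EWH.Stmt_REL) (hLNK : EWH.Stmt_LNK) (hK : Two K)
    (a b c d : Kˣ) : EqQ (Zh K) (vm a) (vm b) (vm c) (vm d) ↔ pf a b = pf c d := by
  constructor
  · rintro ⟨x, h1, h2, h3⟩
    obtain ⟨x, rfl⟩ := vm_surj x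
    rw [← vm_mul, Zh_iff hREL hK, pf_mul hREL hK] at h1 h2
    rw [← vm_mul, Zh_iff hREL hK, pf_mul' hREL hK] at h3
    rw [h1, h2, h3]
  · intro h
    obtain ⟨x, h1, h2⟩ := hLNK K hK a b c d h
    refine ⟨vm x, ?_, ?_, ?_⟩
    · rw [← vm_mul, Zh_iff hREL hK, pf_mul hREL hK, h1]
    · rw [← vm_mul, Zh_iff hREL hK, pf_mul hREL hK, h2, h]
    · rw [← vm_mul, Zh_iff hREL hK, pf_mul' hREL hK, h1, h2]

end ZHL_

open ZHL_

theorem zhl_proof (hREL : EWH.Stmt_REL) (hLNK : EWH.Stmt_LNK) : ETG.Stmt_ZHL := by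
  intro K _ hK
  refine ⟨⟨?_, ?_, ?_, ?_, ?_⟩, Zh_iff hREL hK, EqQ_iff hREL hLNK hK⟩
  · intro a b
    obtain ⟨a, rfl⟩ := vm_surj a
    obtain ⟨b, rfl⟩ := vm_surj b
    rw [Zh_iff hREL hK, Zh_iff hREL hK, pf_comm]
    exact id
  · intro a
    obtain ⟨a, rfl⟩ := vm_surj a
    rw [← vm_one, Zh_iff hREL hK, pf_one]
  · intro a b c
    obtain ⟨a, rfl⟩ := vm_surj a
    obtain ⟨b, rfl⟩ := vm_surj b
    obtain ⟨c, rfl⟩ := vm_surj c
    rw [← vm_mul, Zh_iff hREL hK, Zh_iff hREL hK, Zh_iff hREL hK, pf_mul hREL hK]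
    intro h1 h2
    rw [h1, h2]
  · intro a
    obtain ⟨a, rfl⟩ := vm_surj a
    rw [← vm_mul, Zh_iff hREL hK, pf_self hREL hK]
  · intro a b c d a' b'
    obtain ⟨a, rfl⟩ := vm_surj a
    obtain ⟨b, rfl⟩ := vm_surj b
    obtain ⟨c, rfl⟩ := vm_surj c
    obtain ⟨d, rfl⟩ := vm_surj d
    obtain ⟨a', rfl⟩ := vm_surj a'
    obtain ⟨b', rfl⟩ := vm_surj b'
    rw [EqQ_iff hREL hLNK hK, EqQ_iff hREL hLNK hK, EqQ_iff hREL hLNK hK]
    intro h1 h2
    rw [h1, h2]

theorem qfh_proof (hZHL : ETG.Stmt_ZHL) : ETG.Stmt_QFH := by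
  intro F _ hF S hS
  obtain ⟨φ, hs, hk, hneg, hq⟩ := hS
  let ψ : (Fˣ ⧸ (powMonoidHom 2 : Fˣ →* Fˣ).range) →* S.G :=
    QuotientGroup.lift _ φ (by
      rintro _ ⟨z, rfl⟩
      rw [MonoidHom.mem_ker, hk]
      exact ⟨z, by simp [pow_two]⟩)
  let f : Multiplicative (VV F) →* S.G :=
    { toFun := fun v => ψ (Additive.toMul (Multiplicative.toAdd v : VV F) :
        Fˣ ⧸ (powMonoidHom 2 : Fˣ →* Fˣ).range)
      map_one' := ψ.map_one
      map_mul' := fun v w => ψ.map_mul _ _ }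
  have hf : ∀ a : Fˣ, f (Multiplicative.ofAdd (vm a)) = φ a := fun a => rfl
  have hbij : Function.Bijective f := by
    constructor
    · rw [injective_iff_map_eq_one]
      intro v hv
      obtain ⟨a, ha⟩ := vm_surj (Multiplicative.toAdd v : VV F)
      have hv' : v = Multiplicative.ofAdd (vm a) := by rw [ha]; rfl
      rw [hv', hf, hk, ← vm_eq_zero] at hv
      rw [hv', hv]
      rfl
    · intro g
      obtain ⟨a, ha⟩ := hs g
      exact ⟨Multiplicative.ofAdd (vm a), by rw [hf, ha]⟩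
  refine ⟨MulEquiv.ofBijective f hbij, ?_, fun v w => ?_⟩
  · show S.neg = f (Multiplicative.ofAdd (vm (-1 : Fˣ)))
    rw [hf, hneg]
  obtain ⟨a, rfl⟩ := vm_surj v
  obtain ⟨b, rfl⟩ := vm_surj w
  show S.q (φ a) (φ b) = S.zero ↔ _
  rw [(hZHL F hF).2.1, ← S.q_one (φ a), ← φ.map_one, hq, pf_one]

end Pool.Agent.EV3
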